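import Pool.Agent.H92.SQ2.Defs

/-!
# Project SQ2 (MP_a3214d): definitions for the field side
-/

set_option autoImplicit false

open Polynomial Pool.Agent.H92.SQ

namespace Pool.Agent.H92.SQ2

/-- `g` is monic, irreducible over `ℚ`, of degree `n`, with second coefficient `a` and all complex
roots of size at most `R` -/
structure Mb (n : ℕ) (R : ℝ) (a : ℤ) (g : ℤ[X]) : Prop where
  deg : g.natDegree = n
  monic : g.Monic
  snd : g.coeff (n - 1) = a
  irr : Irreducible (FQ g)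
  rt : ∀ z : ℂ, aeval z g = 0 → ‖z‖ ≤ R

/-- any `r + 1` integral elements of trace zero and size at most `R` are dependent -/
def Thin (r : ℕ) (R : ℝ) (K : Type) [Field K] [NumberField K] : Prop :=
  ∀ z : Fin (r + 1) → K, (∀ i, Sh R (z i)) → ¬ LinearIndependent ℚ z

/-- `(n - 1) (n + 2) / 2` -/
noncomputable def WW (n : ℕ) : ℝ := ((n : ℝ) - 1) * (n + 2) / 2

/-- `(n + 2) ⌊n² / 4⌋ / (2 n)` -/
noncomputable def DD (n : ℕ) : ℝ := ((n : ℝ) + 2) * ((n ^ 2 / 4 : ℕ) : ℝ) / (2 * n)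

/-- `DD n - 2 ∑_{i < n} ⌈i / (r + 1)⌉` -/
noncomputable def mu (n r : ℕ) : ℝ := DD n - 2 * (gg n (r + 1) : ℝ)

/-- the exponent of the lower bound -/
noncomputable def ee (n r : ℕ) : ℝ :=
  (WW n - mu n r * WW n / (WW n - r)) / ((n : ℝ) * (n - 1) - 2 * mu n r)

end Pool.Agent.H92.SQ2
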