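import Pool.Agent.H92.SQ2.Defs

/-!
# Project SQ2 (MP_a3214d), row S2-19: number of integer polynomials with small roots
-/

set_option autoImplicit false

open Polynomial

namespace Pool.Agent.H92.SQ2

theorem s2_19_coeff {n : ℕ} {L : ℝ} {P : ℤ[X]} (hP : ShP n L P) (i : ℕ) :
    |(P.coeff i : ℝ)| ≤ L ^ (n - i) * (n.choose i : ℝ) := by
  have h := coeff_le_of_roots_le (f := Int.castRingHom ℂ) (B := L) i hP.monic
    (IsAlgClosed.splits _) (fun z hz => hP.sz z (by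
      have h1 := isRoot_of_mem_roots hz
      rw [IsRoot.def, eval_map] at h1
      rw [aeval_def]
      exact h1))
  rw [hP.deg, coeff_map] at h
  have h2 : ‖(Int.castRingHom ℂ) (P.coeff i)‖ = |(P.coeff i : ℝ)| := by
    simp
  rwa [h2] at h

theorem s2_19_sum (n : ℕ) (hn : 2 ≤ n) :
    ∑ i : Fin (n - 1), (n - (i : ℕ)) = n * (n + 1) / 2 - 1 := by
  obtain ⟨m, rfl⟩ : ∃ m, n = m + 2 := ⟨n - 2, by omega⟩
  rw [Fin.sum_univ_eq_sum_range (fun i => m + 2 - i), show m + 2 - 1 = m + 1 by omega]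
  have h1 : ∀ m : ℕ, (∑ i ∈ Finset.range (m + 1), (m + 2 - i)) * 2 + 2 = (m + 2) * (m + 3) := by
    intro m
    induction m with
    | zero => simp
    | succ m ih =>
      rw [Finset.sum_range_succ']
      have h2 : ∑ i ∈ Finset.range (m + 1), (m + 1 + 2 - (i + 1)) =
          ∑ i ∈ Finset.range (m + 1), (m + 2 - i) :=
        Finset.sum_congr rfl fun i _ => by omega
      rw [h2, show m + 1 + 2 - 0 = m + 3 by omega]
      nlinarith
  have h2 := h1 m
  have h3 : (m + 2) * (m + 2 + 1) = (∑ i ∈ Finset.range (m + 1), (m + 2 - i)) * 2 + 2 := by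
    rw [h2]
  rw [h3]
  omega

theorem shp_card (n : ℕ) (hn : 2 ≤ n) : ∃ C : ℝ, 0 < C ∧ ∀ L : ℝ, 1 ≤ L →
    {P : ℤ[X] | ShP n L P}.Finite ∧
      ({P : ℤ[X] | ShP n L P}.ncard : ℝ) ≤ C * L ^ (n * (n + 1) / 2 - 1) := by
  refine ⟨∏ i : Fin (n - 1), (3 * (n.choose i : ℝ)), ?_, fun L hL => ?_⟩
  · refine Finset.prod_pos fun i _ => ?_
    have h1 : 0 < n.choose i := Nat.choose_pos (by omega)
    positivity
  set b : Fin (n - 1) → ℤ := fun i => ⌊L ^ (n - (i : ℕ)) * (n.choose i : ℝ)⌋ with hb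
  set A : Finset (Fin (n - 1) → ℤ) := Fintype.piFinset fun i => Finset.Icc (-b i) (b i) with hA
  have hmaps : ∀ P ∈ {P : ℤ[X] | ShP n L P}, (fun i : Fin (n - 1) => P.coeff (i : ℕ)) ∈
      (A : Set (Fin (n - 1) → ℤ)) := by
    intro P hP
    rw [Finset.mem_coe, hA, Fintype.mem_piFinset]
    intro i
    have h1 := s2_19_coeff hP (i : ℕ)
    rw [abs_le] at h1
    rw [Finset.mem_Icc]
    constructor
    · have h2 : -P.coeff (i : ℕ) ≤ b i := Int.le_floor.2 (by push_cast; linarith [h1.1])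
      linarith
    · exact Int.le_floor.2 h1.2
  have hinj : Set.InjOn (fun (P : ℤ[X]) (i : Fin (n - 1)) => P.coeff (i : ℕ))
      {P : ℤ[X] | ShP n L P} := by
    intro P hP Q hQ hPQ
    ext i
    rcases lt_trichotomy i (n - 1) with hi | hi | hi
    · exact congrFun hPQ ⟨i, hi⟩
    · rw [hi, hP.snd, hQ.snd]
    · rcases eq_or_lt_of_le (show n ≤ i by omega) with h2 | h2
      · have h3 := hP.monic.coeff_natDegree
        have h4 := hQ.monic.coeff_natDegree
        rw [hP.deg] at h3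
        rw [hQ.deg] at h4
        rw [← h2, h3, h4]
      · rw [coeff_eq_zero_of_natDegree_lt (by rw [hP.deg]; exact h2),
          coeff_eq_zero_of_natDegree_lt (by rw [hQ.deg]; exact h2)]
  refine ⟨Set.Finite.of_injOn hmaps hinj A.finite_toSet, ?_⟩
  have h1 : {P : ℤ[X] | ShP n L P}.ncard ≤ (A : Set (Fin (n - 1) → ℤ)).ncard :=
    Set.ncard_le_ncard_of_injOn _ hmaps hinj A.finite_toSet
  rw [Set.ncard_coe_finset, hA, Fintype.card_piFinset] at h1
  have h2 : ({P : ℤ[X] | ShP n L P}.ncard : ℝ) ≤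
      ∏ i : Fin (n - 1), ((Finset.Icc (-b i) (b i)).card : ℝ) := by
    exact_mod_cast h1
  refine h2.trans ?_
  rw [← s2_19_sum n hn, ← Finset.prod_pow_eq_pow_sum, ← Finset.prod_mul_distrib]
  refine Finset.prod_le_prod (fun _ _ => by positivity) fun i _ => ?_
  have h3 : (1 : ℝ) ≤ n.choose i := by
    exact_mod_cast Nat.choose_pos (show (i : ℕ) ≤ n by omega)
  have h4 : (1 : ℝ) ≤ L ^ (n - (i : ℕ)) := one_le_pow₀ hL
  have h5 : (1 : ℝ) ≤ L ^ (n - (i : ℕ)) * (n.choose i : ℝ) := by nlinarith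
  have h6 : 0 ≤ b i := Int.floor_nonneg.2 (by linarith)
  have h7 : ((b i : ℤ) : ℝ) ≤ L ^ (n - (i : ℕ)) * (n.choose i : ℝ) := Int.floor_le _
  rw [Int.card_Icc]
  have h8 : (((b i + 1 - -b i).toNat : ℕ) : ℝ) = 2 * (b i : ℝ) + 1 := by
    have h9 : ((b i + 1 - -b i).toNat : ℤ) = 2 * b i + 1 := by
      rw [Int.toNat_of_nonneg (by linarith)]
      ring
    exact_mod_cast h9
  rw [h8]
  nlinarith

end Pool.Agent.H92.SQ2
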