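import Pool.Agent.H92.SQ2.Fixed

/-!
# Project SQ2 (MP_a3214d), row S2-2: bad triples (union bound)
-/

set_option autoImplicit false

open Polynomial

namespace Pool.Agent.H92.SQ2

/-- the polynomial with the given coefficients -/
noncomputable def s2_2_pol (d : ℕ) (c : Fin (d + 1) → ℤ) : ℤ[X] :=
  ∑ i : Fin (d + 1), C (c i) * X ^ (i : ℕ)

open scoped Classical in
/-- all nonzero polynomials in the box -/
noncomputable def s2_2_box (h b d ρ : ℕ) : Finset ℤ[X] :=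
  ((Fintype.piFinset fun j : Fin (d + 1) =>
    Finset.Icc (-((h : ℤ) ^ (ρ + b * (d - j)))) ((h : ℤ) ^ (ρ + b * (d - j)))).image
      (s2_2_pol d)).filter fun g => g ≠ 0 ∧ InBox h b d ρ g

private theorem s2_2_pol_coeff (d : ℕ) (g : ℤ[X]) (hg : g.natDegree ≤ d) :
    s2_2_pol d (fun i => g.coeff i) = g := by
  unfold s2_2_pol
  rw [Fin.sum_univ_eq_sum_range (fun i => C (g.coeff i) * X ^ i) (d + 1)]
  exact (g.as_sum_range_C_mul_X_pow' (Nat.lt_succ_of_le hg)).symm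

theorem s2_2_mem (h b d ρ : ℕ) (g : ℤ[X]) (hg0 : g ≠ 0) (hg : InBox h b d ρ g) :
    g ∈ s2_2_box h b d ρ := by
  classical
  unfold s2_2_box
  rw [Finset.mem_filter, Finset.mem_image]
  refine ⟨⟨fun i => g.coeff i, ?_, s2_2_pol_coeff d g hg.1⟩, hg0, hg⟩
  rw [Fintype.mem_piFinset]
  intro j
  rw [Finset.mem_Icc]
  exact abs_le.mp (hg.2 j (Nat.lt_succ_iff.mp j.2))

private theorem s2_2_exp (d ρ b : ℕ) :
    2 * ∑ j ∈ Finset.range (d + 1), (ρ + b * (d - j)) = 2 * ρ * (d + 1) + b * d * (d + 1) := by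
  have h1 : ∑ j ∈ Finset.range (d + 1), (d - j) = ∑ j ∈ Finset.range (d + 1), j := by
    have := Finset.sum_range_reflect (fun i => i) (d + 1)
    simpa using this
  have h2 := Finset.sum_range_id_mul_two (d + 1)
  rw [Finset.sum_add_distrib, ← Finset.mul_sum, h1]
  simp only [Finset.sum_const, Finset.card_range, smul_eq_mul, Nat.add_sub_cancel] at *
  nlinarith

theorem s2_2_card (h b d ρ : ℕ) (hh : 1 ≤ h) :
    (s2_2_box h b d ρ).card ≤
      3 ^ (d + 1) * h ^ (∑ j ∈ Finset.range (d + 1), (ρ + b * (d - j))) := by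
  classical
  unfold s2_2_box
  refine (Finset.card_filter_le _ _).trans (Finset.card_image_le.trans ?_)
  rw [Fintype.card_piFinset]
  have h1 : ∀ j : Fin (d + 1),
      (Finset.Icc (-((h : ℤ) ^ (ρ + b * (d - j)))) ((h : ℤ) ^ (ρ + b * (d - j)))).card ≤
        3 * h ^ (ρ + b * (d - j)) := by
    intro j
    rw [Int.card_Icc]
    have h2 : 1 ≤ h ^ (ρ + b * (d - (j : ℕ))) := Nat.one_le_pow _ _ hh
    have h3 : (h : ℤ) ^ (ρ + b * (d - (j : ℕ))) = ((h ^ (ρ + b * (d - (j : ℕ))) : ℕ) : ℤ) := by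
      push_cast; rfl
    rw [h3]
    omega
  refine (Finset.prod_le_prod' fun j _ => h1 j).trans ?_
  rw [Finset.prod_mul_distrib, Finset.prod_const, Finset.card_univ, Fintype.card_fin,
    Fin.prod_univ_eq_prod_range (fun j => h ^ (ρ + b * (d - j))) (d + 1),
    Finset.prod_pow_eq_pow_sum]

open scoped Classical in
theorem bad_triples (d ρ b u v : ℕ) (hu : 1 ≤ u) (hv : 1 ≤ v) (huv : u ≠ v)
    (hc : 2 * ρ * (d + 1) + b * d * (d + 1) + 8 ≤ 2 * (u + v)) :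
    ∃ h0 : ℕ, ∀ h ≥ h0,
      (∑ m ∈ PR h u, ∑ l ∈ PR h v,
        ((Finset.range (m * l)).filter fun x : ℕ => ∃ g : ℤ[X], g ≠ 0 ∧ InBox h b d ρ g ∧
          ((m * l : ℕ) : ℤ) ∣ g.eval (x : ℤ)).card) ≤ h ^ (2 * (u + v) - 3) := by
  obtain ⟨K, h0, hK⟩ := pairs_fixed d ρ b u v hu hv huv
  refine ⟨max h0 (max 1 (3 ^ (d + 1) * K)), fun h hh => ?_⟩
  have hh0 : h0 ≤ h := (le_max_left _ _).trans hh
  have hh1 : 1 ≤ h := ((le_max_left _ _).trans (le_max_right _ _)).trans hh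
  have hh2 : 3 ^ (d + 1) * K ≤ h := ((le_max_right _ _).trans (le_max_right _ _)).trans hh
  set E := ∑ j ∈ Finset.range (d + 1), (ρ + b * (d - j)) with hE
  have hE2 : 2 * E + 8 ≤ 2 * (u + v) := by rw [hE, s2_2_exp]; exact hc
  have step : ∀ m l : ℕ,
      ((Finset.range (m * l)).filter fun x : ℕ => ∃ g : ℤ[X], g ≠ 0 ∧ InBox h b d ρ g ∧
          ((m * l : ℕ) : ℤ) ∣ g.eval (x : ℤ)).card ≤
        ∑ g ∈ s2_2_box h b d ρ,
          ((Finset.range (m * l)).filter fun x : ℕ =>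
            ((m * l : ℕ) : ℤ) ∣ g.eval (x : ℤ)).card := by
    intro m l
    refine (Finset.card_le_card ?_).trans Finset.card_biUnion_le
    intro x hx
    rw [Finset.mem_filter] at hx
    obtain ⟨hx1, g, hg0, hg1, hg2⟩ := hx
    rw [Finset.mem_biUnion]
    exact ⟨g, s2_2_mem h b d ρ g hg0 hg1, Finset.mem_filter.mpr ⟨hx1, hg2⟩⟩
  calc (∑ m ∈ PR h u, ∑ l ∈ PR h v,
        ((Finset.range (m * l)).filter fun x : ℕ => ∃ g : ℤ[X], g ≠ 0 ∧ InBox h b d ρ g ∧
          ((m * l : ℕ) : ℤ) ∣ g.eval (x : ℤ)).card)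
      ≤ ∑ m ∈ PR h u, ∑ l ∈ PR h v, ∑ g ∈ s2_2_box h b d ρ,
          ((Finset.range (m * l)).filter fun x : ℕ =>
            ((m * l : ℕ) : ℤ) ∣ g.eval (x : ℤ)).card :=
        Finset.sum_le_sum fun m _ => Finset.sum_le_sum fun l _ => step m l
    _ = ∑ g ∈ s2_2_box h b d ρ, ∑ m ∈ PR h u, ∑ l ∈ PR h v,
          ((Finset.range (m * l)).filter fun x : ℕ =>
            ((m * l : ℕ) : ℤ) ∣ g.eval (x : ℤ)).card := by
        rw [Finset.sum_congr rfl fun m _ => Finset.sum_comm]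
        exact Finset.sum_comm
    _ ≤ ∑ _g ∈ s2_2_box h b d ρ, K * h ^ (u + v) := by
        refine Finset.sum_le_sum fun g hg => ?_
        have hg' := (Finset.mem_filter.mp hg).2
        exact hK h hh0 g hg'.1 hg'.2
    _ = (s2_2_box h b d ρ).card * (K * h ^ (u + v)) := by
        rw [Finset.sum_const, smul_eq_mul]
    _ ≤ 3 ^ (d + 1) * h ^ E * (K * h ^ (u + v)) :=
        Nat.mul_le_mul_right _ (s2_2_card h b d ρ hh1)
    _ = 3 ^ (d + 1) * K * h ^ (E + (u + v)) := by rw [pow_add]; ring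
    _ ≤ h * h ^ (2 * (u + v) - 4) :=
        Nat.mul_le_mul hh2 (Nat.pow_le_pow_right hh1 (by omega))
    _ = h ^ (2 * (u + v) - 3) := by
        rw [← pow_succ']
        congr 1
        omega

end Pool.Agent.H92.SQ2
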