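import Pool.Agent.H35.AN.Count
import Pool.Agent.H92.SQ2.DefsF

/-!
# Project SQ2, row S2-23: the number of fields from the multiplicity
-/

set_option autoImplicit false

open Polynomial IsDedekindDomain NumberField Pool.Agent.H35.AN Pool.Agent.H92.SQ

namespace Pool.Agent.H92.SQ2

/-- an isomorphism of the fields gives `Iso` -/
private theorem s2_23_iso {n : ℕ} {f g : ℤ[X]} {x y : AlgebraicClosure ℚ} (hx : aeval x f = 0)
    (hy : aeval y g = 0) (hn : Module.finrank ℚ (IntermediateField.adjoin ℚ {x}) = n)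
    (hnf : NumberField (IntermediateField.adjoin ℚ {x}))
    (e : IntermediateField.adjoin ℚ {y} ≃ₐ[ℚ] IntermediateField.adjoin ℚ {x}) : Iso n f g := by
  refine ⟨IntermediateField.adjoin ℚ {x}, inferInstance, hnf,
    ⟨x, IntermediateField.mem_adjoin_simple_self ℚ x⟩,
    e ⟨y, IntermediateField.mem_adjoin_simple_self ℚ y⟩, ?_, ?_, ?_⟩
  · rw [← hn]
  · exact (aeval_algebraMap_eq_zero_iff (AlgebraicClosure ℚ)
      (⟨x, IntermediateField.mem_adjoin_simple_self ℚ x⟩ : IntermediateField.adjoin ℚ {x}) f).1 hx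
  · have h1 : aeval (⟨y, IntermediateField.mem_adjoin_simple_self ℚ y⟩ :
        IntermediateField.adjoin ℚ {y}) g = 0 :=
      (aeval_algebraMap_eq_zero_iff (AlgebraicClosure ℚ)
        (⟨y, IntermediateField.mem_adjoin_simple_self ℚ y⟩ : IntermediateField.adjoin ℚ {y}) g).1 hy
    have h2 := congrArg (e : IntermediateField.adjoin ℚ {y} →+* IntermediateField.adjoin ℚ {x}) h1
    rw [aeval_def, hom_eval₂, map_zero] at h2
    rw [aeval_def]
    convert h2 using 2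
    · exact Subsingleton.elim _ _
    · rfl

theorem class_sym (n : ℕ) (B : ℝ) (T : Finset ℤ[X]) (N : ℕ)
    (hT : ∀ f ∈ T, f.natDegree = n ∧ Irreducible (FQ f) ∧
      ∃ x : AlgebraicClosure ℚ, aeval x f = 0 ∧ IsSymField n (IntermediateField.adjoin ℚ {x}) ∧
        ∃ _ : NumberField (IntermediateField.adjoin ℚ {x}),
          |(NumberField.discr (IntermediateField.adjoin ℚ {x}) : ℝ)| ≤ B)
    (hN : ∀ f ∈ T, ∀ G : Finset ℤ[X], G ⊆ T → (∀ g ∈ G, Iso n f g) → G.card ≤ N) :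
    T.card ≤ N * malleCount ℚ n ⊤ B := by
  classical
  have hT' := fun f hf => (hT f hf).2.2
  choose! x hx hsym hnf hdisc using hT'
  have hX : ∀ f (hf : f ∈ T), Module.finrank ℚ (IntermediateField.adjoin ℚ {x f}) = n ∧
      (∃ e : ((IntermediateField.adjoin ℚ {x f}) →ₐ[ℚ] AlgebraicClosure ℚ) ≃ Fin n,
        ∀ π : Equiv.Perm (Fin n),
        π ∈ (⊤ : Subgroup (Equiv.Perm (Fin n))) ↔
          ∃ σ : AlgebraicClosure ℚ ≃ₐ[ℚ] AlgebraicClosure ℚ,
          ∀ φ : (IntermediateField.adjoin ℚ {x f}) →ₐ[ℚ] AlgebraicClosure ℚ,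
            e (σ.toAlgHom.comp φ) = π (e φ)) ∧
      ∃ h : NumberField (IntermediateField.adjoin ℚ {x f}),
        ((|@NumberField.discr (IntermediateField.adjoin ℚ {x f}) _ h| : ℤ) : ℝ) ≤
          B * ((|NumberField.discr ℚ| : ℤ) : ℝ) ^ n := by
    intro f hf
    obtain ⟨h1, e, he⟩ := hsym f hf
    refine ⟨h1, ⟨e, fun π => ⟨fun _ => he π, fun _ => Subgroup.mem_top π⟩⟩, hnf f hf, ?_⟩
    rw [Rat.numberField_discr]
    have := hdisc f hf
    push_cast
    simpa using this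
  let F : {f // f ∈ T} → an35_X ℚ n ⊤ B := fun f => ⟨IntermediateField.adjoin ℚ {x f.1}, hX f.1 f.2⟩
  have hfin := an35_finite ℚ n ⊤ B
  have hr : Equivalence (fun L L' : an35_X ℚ n ⊤ B => Nonempty (L.1 ≃ₐ[ℚ] L'.1)) :=
    ⟨fun L => ⟨AlgEquiv.refl⟩, fun ⟨e⟩ => ⟨e.symm⟩, fun ⟨e⟩ ⟨f⟩ => ⟨e.trans f⟩⟩
  have key := an35_fibres (fun L L' : an35_X ℚ n ⊤ B => Nonempty (L.1 ≃ₐ[ℚ] L'.1)) hr T.attach F N ?_
  · rw [Finset.card_attach] at key
    exact key
  · intro f₀ _ S' _ hS'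
    have h1 : (S'.image Subtype.val).card = S'.card :=
      Finset.card_image_of_injective _ Subtype.val_injective
    rw [← h1]
    apply hN f₀.1 f₀.2
    · intro g hg
      obtain ⟨g', _, rfl⟩ := Finset.mem_image.1 hg
      exact g'.2
    · intro g hg
      obtain ⟨g', hg', rfl⟩ := Finset.mem_image.1 hg
      obtain ⟨e⟩ := hS' g' hg'
      exact s2_23_iso (hx f₀.1 f₀.2) (hx g'.1 g'.2) (hsym f₀.1 f₀.2).1 (hnf f₀.1 f₀.2) e

end Pool.Agent.H92.SQ2
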