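import Pool.Agent.H92.SQ2.Defs

/-! Project SQ2, row S2-6: every residue class has its share of the family. -/

set_option autoImplicit false

open Polynomial

namespace Pool.Agent.H92.SQ2

/-- representation of an integer polynomial by rational multiples of `N0 • y i` -/
private theorem s2_6_repr {N : ℕ} (y : Fin (N + 1) → ℤ[X]) (hy : LinearIndependent ℤ y)
    (hd : ∀ i, (y i).natDegree ≤ N) (D : ℤ[X]) (N0 : ℕ) (hN0 : 0 < N0) :
    ∃ c : Fin (N + 1) → ℚ, ∀ j ≤ N, (D.coeff j : ℚ) = ∑ i, c i * (N0 * (y i).coeff j) := by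
  classical
  let v : Fin (N + 1) → (Fin (N + 1) → ℚ) := fun i j => ((y i).coeff j : ℚ)
  have hv : LinearIndependent ℤ v := by
    rw [Fintype.linearIndependent_iff] at hy ⊢
    intro g hg
    apply hy g
    ext j
    rw [Polynomial.finset_sum_coeff, Polynomial.coeff_zero]
    by_cases hj : j < N + 1
    · have h1 := congrFun hg ⟨j, hj⟩
      rw [Finset.sum_apply] at h1
      have h2 : ((∑ i, g i * (y i).coeff j : ℤ) : ℚ) = 0 := by
        push_cast
        rw [← h1.trans (Pi.zero_apply _)]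
        refine Finset.sum_congr rfl fun i _ => ?_
        simp [v]
      have h3 : (∑ i, g i * (y i).coeff j : ℤ) = 0 := by exact_mod_cast h2
      rw [← h3]
      refine Finset.sum_congr rfl fun i _ => ?_
      simp
    · refine Finset.sum_eq_zero fun i _ => ?_
      rw [Polynomial.coeff_smul, Polynomial.coeff_eq_zero_of_natDegree_lt
        (lt_of_le_of_lt (hd i) (by omega)), smul_zero]
  have hvQ : LinearIndependent ℚ v := (LinearIndependent.iff_fractionRing ℤ ℚ).1 hv
  have hspan : Submodule.span ℚ (Set.range v) = ⊤ :=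
    hvQ.span_eq_top_of_card_eq_finrank' (by simp)
  have hmem : (fun j : Fin (N + 1) => ((D.coeff j : ℚ) / N0)) ∈
      Submodule.span ℚ (Set.range v) := by
    rw [hspan]; trivial
  rw [Submodule.mem_span_range_iff_exists_fun] at hmem
  obtain ⟨c, hc⟩ := hmem
  refine ⟨c, fun j hj => ?_⟩
  have h1 := congrFun hc ⟨j, Nat.lt_succ_of_le hj⟩
  rw [Finset.sum_apply] at h1
  have hN : (N0 : ℚ) ≠ 0 := by positivity
  have h2 : (D.coeff j : ℚ) = N0 * ((D.coeff j : ℚ) / N0) := by field_simp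
  rw [h2, ← h1, Finset.mul_sum]
  refine Finset.sum_congr rfl fun i _ => ?_
  simp [v]
  ring

/-- the sum of the exponents -/
private theorem s2_6_expsum (N : ℕ) :
    ∑ i : Fin (N + 1), (N + 2 - (i : ℕ)) = (N + 2) * (N + 3) / 2 - 1 := by
  rw [Fin.sum_univ_eq_sum_range (fun i => N + 2 - i)]
  have h1 : ∑ i ∈ Finset.range (N + 1), (N + 2 - i) = ∑ i ∈ Finset.range (N + 1), (i + 2) := by
    rw [← Finset.sum_range_reflect]
    refine Finset.sum_congr rfl fun i hi => ?_
    rw [Finset.mem_range] at hi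
    omega
  rw [h1]
  have h2 : ∀ N : ℕ, 2 * (∑ i ∈ Finset.range (N + 1), (i + 2) + 1) = (N + 2) * (N + 3) := by
    intro N
    induction N with
    | zero => simp
    | succ k ih =>
      rw [Finset.sum_range_succ]
      calc 2 * (∑ i ∈ Finset.range (k + 1), (i + 2) + (k + 1 + 2) + 1)
          = 2 * (∑ i ∈ Finset.range (k + 1), (i + 2) + 1) + 2 * (k + 3) := by ring
        _ = _ := by rw [ih]; ring
  have h3 := h2 N
  omega

/-- the polynomial with given lower coefficients -/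
private noncomputable def s2_6_f {N : ℕ} (a : ℤ) (u : Fin (N + 1) → ℕ) : ℤ[X] :=
  X ^ (N + 2) + C a * X ^ (N + 1) + ∑ i : Fin (N + 1), C (u i : ℤ) * X ^ (i : ℕ)

private theorem s2_6_f_coeff {N : ℕ} (a : ℤ) (u : Fin (N + 1) → ℕ) (j : ℕ) :
    (s2_6_f a u).coeff j = (if j = N + 2 then 1 else 0) + (if j = N + 1 then a else 0) +
      (if hj : j < N + 1 then (u ⟨j, hj⟩ : ℤ) else 0) := by
  classical
  unfold s2_6_f
  rw [coeff_add, coeff_add, coeff_X_pow, coeff_C_mul, coeff_X_pow, finset_sum_coeff]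
  congr 1
  · congr 1
    split_ifs <;> simp
  · by_cases hj : j < N + 1
    · rw [dif_pos hj, Finset.sum_eq_single ⟨j, hj⟩]
      · rw [coeff_C_mul, coeff_X_pow, if_pos rfl, mul_one]
      · intro i _ hi
        rw [coeff_C_mul, coeff_X_pow, if_neg, mul_zero]
        intro h
        exact hi (Fin.ext h.symm)
      · intro h
        exact absurd (Finset.mem_univ _) h
    · rw [dif_neg hj]
      refine Finset.sum_eq_zero fun i _ => ?_
      rw [coeff_C_mul, coeff_X_pow, if_neg, mul_zero]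
      have := i.2
      omega

/-- a multiple of `N0` in a given class -/
private theorem s2_6_crt (Q N0 : ℤ) (hc : IsCoprime Q N0) (E : ℤ) :
    ∃ α : ℤ, N0 ∣ α ∧ Q ∣ α - E := by
  obtain ⟨a, b, hab⟩ := hc
  refine ⟨E * (b * N0), ⟨E * b, by ring⟩, ⟨-(E * a), ?_⟩⟩
  linear_combination E * hab

private theorem s2_6_dvd_of_cast {q : ℕ} {a b : ℤ} (h : (a : ZMod q) = (b : ZMod q)) :
    (q : ℤ) ∣ a - b := by
  rw [← ZMod.intCast_zmod_eq_zero_iff_dvd]
  push_cast
  rw [h, sub_self]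

private theorem s2_6_main (N N0 b : ℕ) (s : ℤ[X]) (hN : 1 ≤ N) (hN0 : 0 < N0) (hs : s.Monic)
    (hsn : s.natDegree = N + 2) (hb : 1 ≤ b) (h : ℕ) (hh : 2 * N0 * (N + 1) ≤ h)
    (q : ℕ) (x A B : ℤ) (hq : 0 < q) (hc : Nat.Coprime q N0) (y : Fin (N + 1) → ℤ[X])
    (hy : LinearIndependent ℤ y) (hyb : ∀ i, InBox h b N (2 * b - 1) (y i) ∧ Dbl q x (y i)) :
    ∃ T : Finset ℤ[X], (∀ f ∈ T, Fam (N + 2) N0 s b h f ∧ (q : ℤ) ^ 2 ∣ f.eval x - A ∧
        (q : ℤ) ∣ f.derivative.eval x - B) ∧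
        h ^ (b * ((N + 2) * (N + 3) / 2 - 1)) ≤ 2 ^ (N + 1) * (N0 ^ (N + 1) * (q ^ 2 * q)) *
          T.card := by
  classical
  haveI : NeZero N0 := ⟨hN0.ne'⟩
  haveI : NeZero q := ⟨hq.ne'⟩
  haveI : NeZero (q ^ 2) := ⟨(pow_pos hq 2).ne'⟩
  set a := s.coeff (N + 1) with ha
  -- the box
  set U : Finset (Fin (N + 1) → ℕ) := Fintype.piFinset
    (fun i : Fin (N + 1) => Finset.range (h ^ (b * (N + 2 - (i : ℕ))) / 2 + 1)) with hU
  have hUcard : h ^ (b * ((N + 2) * (N + 3) / 2 - 1)) ≤ 2 ^ (N + 1) * U.card := by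
    rw [hU, Fintype.card_piFinset]
    have h1 : (2 : ℕ) ^ (N + 1) = ∏ _i : Fin (N + 1), 2 := by simp
    rw [h1, ← Finset.prod_mul_distrib, ← s2_6_expsum N, Finset.mul_sum,
      ← Finset.prod_pow_eq_pow_sum]
    refine Finset.prod_le_prod' fun i _ => ?_
    rw [Finset.card_range]
    omega
  -- the key
  let key : (Fin (N + 1) → ℕ) → (Fin (N + 1) → ZMod N0) × ZMod (q ^ 2) × ZMod q := fun u =>
    (fun i => ((u i : ℤ) : ZMod N0), (((s2_6_f a u).eval x : ℤ) : ZMod (q ^ 2)),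
      (((s2_6_f a u).derivative.eval x : ℤ) : ZMod q))
  have hcardkey : Fintype.card ((Fin (N + 1) → ZMod N0) × ZMod (q ^ 2) × ZMod q) =
      N0 ^ (N + 1) * (q ^ 2 * q) := by
    rw [Fintype.card_prod, Fintype.card_prod, Fintype.card_fun, ZMod.card, ZMod.card, ZMod.card,
      Fintype.card_fin]
  have hpig : ∃ k ∈ (Finset.univ : Finset ((Fin (N + 1) → ZMod N0) × ZMod (q ^ 2) × ZMod q)),
      U.card ≤ N0 ^ (N + 1) * (q ^ 2 * q) * (U.filter fun u => key u = k).card := by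
    refine Finset.exists_le_of_sum_le Finset.univ_nonempty ?_
    rw [← Finset.mul_sum, ← Finset.card_eq_sum_card_fiberwise (fun u _ => Finset.mem_univ _),
      Finset.sum_const, smul_eq_mul, Finset.card_univ, hcardkey]
  obtain ⟨k, -, hk⟩ := hpig
  set K := U.filter fun u => key u = k with hK
  have hUpos : 0 < U.card := by
    rw [hU, Fintype.card_piFinset]
    refine Finset.prod_pos fun i _ => ?_
    rw [Finset.card_range]
    omega
  have hKne : K.Nonempty := by
    rw [← Finset.card_pos]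
    rcases Nat.eq_zero_or_pos K.card with h0 | h0
    · rw [h0, mul_zero] at hk
      omega
    · exact h0
  obtain ⟨u0, hu0⟩ := hKne
  -- the target
  have hcop2 : IsCoprime ((q : ℤ) ^ 2) (N0 : ℤ) := by
    exact (Nat.isCoprime_iff_coprime.2 hc).pow_left
  have hcop1 : IsCoprime (q : ℤ) (N0 : ℤ) := Nat.isCoprime_iff_coprime.2 hc
  obtain ⟨α, hα0, hα⟩ := s2_6_crt _ _ hcop2 (A - s.eval x)
  obtain ⟨β, hβ0, hβ⟩ := s2_6_crt _ _ hcop1 (B - s.derivative.eval x)
  set g0 : ℤ[X] := C α + C β * (X - C x) with hg0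
  have hg0e : g0.eval x = α := by simp [hg0]
  have hg0d : g0.derivative.eval x = β := by simp [hg0]
  have hg0c : ∀ j, (N0 : ℤ) ∣ g0.coeff j := by
    intro j
    rw [hg0, coeff_add, coeff_C_mul, coeff_C]
    refine dvd_add ?_ (hβ0.mul_right _)
    split_ifs
    · exact hα0
    · exact dvd_zero _
  have hg0h : ∀ j, 1 < j → g0.coeff j = 0 := by
    intro j hj
    rw [hg0, coeff_add, coeff_C_mul, coeff_C, coeff_sub, coeff_X, coeff_C, if_neg (by omega),
      if_neg (by omega), if_neg (by omega)]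
    simp
  set D : ℤ[X] := s + g0 - s2_6_f a u0 with hD
  have hDe : D.eval x = s.eval x + α - (s2_6_f a u0).eval x := by
    rw [hD, eval_sub, eval_add, hg0e]
  have hDd : D.derivative.eval x =
      s.derivative.eval x + β - (s2_6_f a u0).derivative.eval x := by
    rw [hD, derivative_sub, derivative_add, eval_sub, eval_add, hg0d]
  have hDc : ∀ j, D.coeff j = s.coeff j + g0.coeff j - (s2_6_f a u0).coeff j := by
    intro j
    rw [hD, coeff_sub, coeff_add]
  have hDh : ∀ j, N < j → D.coeff j = 0 := by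
    intro j hj
    rw [hD, coeff_sub, coeff_add, hg0h j (by omega), s2_6_f_coeff, dif_neg (by omega)]
    rcases lt_trichotomy j (N + 2) with hj2 | hj2 | hj2
    · have hj3 : j = N + 1 := by omega
      subst hj3
      rw [if_neg (by omega), if_pos rfl, ha]
      ring
    · subst hj2
      rw [if_pos rfl, if_neg (by omega)]
      have : s.coeff (N + 2) = 1 := by
        rw [← hsn]; exact hs
      rw [this]; ring
    · rw [if_neg (by omega), if_neg (by omega),
        Polynomial.coeff_eq_zero_of_natDegree_lt (by omega)]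
      ring
  obtain ⟨c, hcD⟩ := s2_6_repr y hy (fun i => (hyb i).1.1) D N0 hN0
  set t : ℤ[X] := D - ∑ i, C (⌊c i⌋ * (N0 : ℤ)) * y i with ht
  have htc : ∀ j ≤ N, (t.coeff j : ℚ) = ∑ i, Int.fract (c i) * (N0 * (y i).coeff j) := by
    intro j hj
    rw [ht, coeff_sub, finset_sum_coeff, Int.cast_sub, hcD j hj, Int.cast_sum,
      ← Finset.sum_sub_distrib]
    refine Finset.sum_congr rfl fun i _ => ?_
    rw [coeff_C_mul, Int.fract]
    push_cast
    ring
  have hth : ∀ j, N < j → t.coeff j = 0 := by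
    intro j hj
    rw [ht, coeff_sub, hDh j hj, finset_sum_coeff, Finset.sum_eq_zero, sub_zero]
    intro i _
    rw [coeff_C_mul, Polynomial.coeff_eq_zero_of_natDegree_lt
      (lt_of_le_of_lt (hyb i).1.1 hj), mul_zero]
  have hhpos : 0 < h := lt_of_lt_of_le (by positivity) hh
  have htb : ∀ j ≤ N, 2 * |t.coeff j| ≤ (h : ℤ) ^ (b * (N + 2 - j)) := by
    intro j hj
    have h1 : |(t.coeff j : ℚ)| ≤ (N + 1) * (N0 * (h : ℚ) ^ (2 * b - 1 + b * (N - j))) := by
      rw [htc j hj]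
      refine (Finset.abs_sum_le_sum_abs _ _).trans ?_
      have h2 : ∀ i ∈ (Finset.univ : Finset (Fin (N + 1))),
          |Int.fract (c i) * (N0 * ((y i).coeff j : ℚ))| ≤
            N0 * (h : ℚ) ^ (2 * b - 1 + b * (N - j)) := by
        intro i _
        rw [abs_mul, abs_mul, abs_of_nonneg (Int.fract_nonneg _), Nat.abs_cast]
        have h3 : |((y i).coeff j : ℚ)| ≤ (h : ℚ) ^ (2 * b - 1 + b * (N - j)) := by
          have := (hyb i).1.2 j hj
          exact_mod_cast this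
        have h4 : Int.fract (c i) ≤ 1 := (Int.fract_lt_one _).le
        have h5 : (0 : ℚ) ≤ N0 * |((y i).coeff j : ℚ)| := by positivity
        calc Int.fract (c i) * (N0 * |((y i).coeff j : ℚ)|)
            ≤ 1 * (N0 * |((y i).coeff j : ℚ)|) := mul_le_mul_of_nonneg_right h4 h5
          _ = N0 * |((y i).coeff j : ℚ)| := one_mul _
          _ ≤ _ := mul_le_mul_of_nonneg_left h3 (by positivity)
      refine (Finset.sum_le_sum h2).trans ?_
      simp
    have h6 : |t.coeff j| ≤ ((N : ℤ) + 1) * (N0 * (h : ℤ) ^ (2 * b - 1 + b * (N - j))) := by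
      exact_mod_cast h1
    have h7 : b * (N + 2 - j) = (2 * b - 1 + b * (N - j)) + 1 := by
      have : N + 2 - j = (N - j) + 2 := by omega
      rw [this, mul_add]
      omega
    rw [h7, pow_succ]
    have h8 : (2 : ℤ) * N0 * (N + 1) ≤ h := by exact_mod_cast hh
    have h9 : (0 : ℤ) ≤ (h : ℤ) ^ (2 * b - 1 + b * (N - j)) := by positivity
    nlinarith [mul_le_mul_of_nonneg_left h8 h9]
  have hte : (q : ℤ) ^ 2 ∣ t.eval x - D.eval x := by
    rw [ht, eval_sub, eval_finset_sum]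
    have : (q : ℤ) ^ 2 ∣ ∑ i, (C (⌊c i⌋ * (N0 : ℤ)) * y i).eval x := by
      refine Finset.dvd_sum fun i _ => ?_
      rw [eval_mul]
      exact (hyb i).2.1.mul_left _
    have h2 : D.eval x - ∑ i, (C (⌊c i⌋ * (N0 : ℤ)) * y i).eval x - D.eval x =
      -∑ i, (C (⌊c i⌋ * (N0 : ℤ)) * y i).eval x := by ring
    rw [h2]
    exact (dvd_neg).2 this
  have htd : (q : ℤ) ∣ t.derivative.eval x - D.derivative.eval x := by
    rw [ht, derivative_sub, derivative_sum, eval_sub, eval_finset_sum]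
    have : (q : ℤ) ∣ ∑ i, (derivative (C (⌊c i⌋ * (N0 : ℤ)) * y i)).eval x := by
      refine Finset.dvd_sum fun i _ => ?_
      rw [derivative_C_mul, eval_mul]
      exact (hyb i).2.2.mul_left _
    have h2 : D.derivative.eval x - ∑ i, (derivative (C (⌊c i⌋ * (N0 : ℤ)) * y i)).eval x -
      D.derivative.eval x = -∑ i, (derivative (C (⌊c i⌋ * (N0 : ℤ)) * y i)).eval x := by ring
    rw [h2]
    exact (dvd_neg).2 this
  have htN : ∀ j, (N0 : ℤ) ∣ t.coeff j - D.coeff j := by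
    intro j
    rw [ht, coeff_sub, finset_sum_coeff]
    have : (N0 : ℤ) ∣ ∑ i, (C (⌊c i⌋ * (N0 : ℤ)) * y i).coeff j := by
      refine Finset.dvd_sum fun i _ => ?_
      rw [coeff_C_mul]
      exact (dvd_mul_left _ _).mul_right _
    have h2 : D.coeff j - ∑ i, (C (⌊c i⌋ * (N0 : ℤ)) * y i).coeff j - D.coeff j =
      -∑ i, (C (⌊c i⌋ * (N0 : ℤ)) * y i).coeff j := by ring
    rw [h2]
    exact (dvd_neg).2 this
  -- the set
  have hinj : ∀ u1 ∈ K, ∀ u2 ∈ K, s2_6_f a u1 + t = s2_6_f a u2 + t → u1 = u2 := by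
    intro u1 _ u2 _ h12
    have h3 : s2_6_f a u1 = s2_6_f a u2 := add_right_cancel h12
    funext i
    have h4 := congrArg (fun p : ℤ[X] => p.coeff (i : ℕ)) h3
    simp only [s2_6_f_coeff, dif_pos i.2] at h4
    have h5 : ((u1 i : ℕ) : ℤ) = (u2 i : ℕ) := by
      have := i.2
      simpa using h4
    exact_mod_cast h5
  refine ⟨K.image fun u => s2_6_f a u + t, ?_, ?_⟩
  · intro f hf
    rw [Finset.mem_image] at hf
    obtain ⟨u, huK, rfl⟩ := hf
    have huU : u ∈ U := (Finset.mem_filter.1 huK).1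
    have hukey : key u = key u0 := by
      rw [(Finset.mem_filter.1 huK).2, (Finset.mem_filter.1 hu0).2]
    have hk1 : ∀ i, ((u i : ℤ) : ZMod N0) = ((u0 i : ℤ) : ZMod N0) := fun i =>
      congrFun (congrArg Prod.fst hukey) i
    have hk2 : (((s2_6_f a u).eval x : ℤ) : ZMod (q ^ 2)) =
        (((s2_6_f a u0).eval x : ℤ) : ZMod (q ^ 2)) :=
      congrArg (fun z => z.2.1) hukey
    have hk3 : (((s2_6_f a u).derivative.eval x : ℤ) : ZMod q) =
        (((s2_6_f a u0).derivative.eval x : ℤ) : ZMod q) :=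
      congrArg (fun z => z.2.2) hukey
    have hcoef : ∀ j, (s2_6_f a u + t).coeff j = (s2_6_f a u).coeff j + t.coeff j :=
      fun j => coeff_add _ _ _
    have htop : (s2_6_f a u + t).coeff (N + 2) = 1 := by
      rw [hcoef, hth _ (by omega), s2_6_f_coeff]
      simp
    have hdeg : (s2_6_f a u + t).natDegree = N + 2 := by
      refine le_antisymm ?_ ?_
      · rw [Polynomial.natDegree_le_iff_coeff_eq_zero]
        intro j hj
        rw [hcoef, hth _ (by omega), s2_6_f_coeff, dif_neg (by omega), if_neg (by omega),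
          if_neg (by omega)]
        simp
      · refine Polynomial.le_natDegree_of_ne_zero ?_
        rw [htop]; exact one_ne_zero
    refine ⟨⟨hdeg, ?_, ?_, ?_, ?_⟩, ?_, ?_⟩
    · rw [Monic, leadingCoeff, hdeg, htop]
    · show (s2_6_f a u + t).coeff (N + 1) = s.coeff (N + 1)
      rw [hcoef, hth _ (by omega), s2_6_f_coeff]
      simp [ha]
    · intro i hi
      have hi' : i ≤ N := hi
      rw [hcoef, s2_6_f_coeff, dif_pos (Nat.lt_succ_of_le hi'), if_neg (by omega),
        if_neg (by omega), zero_add, zero_add]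
      have h1 := htb i hi'
      have h2 : u ⟨i, Nat.lt_succ_of_le hi'⟩ < h ^ (b * (N + 2 - i)) / 2 + 1 := by
        have := (Fintype.mem_piFinset.1 huU) ⟨i, Nat.lt_succ_of_le hi'⟩
        exact Finset.mem_range.1 this
      have h3 : 2 * u ⟨i, Nat.lt_succ_of_le hi'⟩ ≤ h ^ (b * (N + 2 - i)) := by omega
      have h4 : (2 : ℤ) * (u ⟨i, Nat.lt_succ_of_le hi'⟩ : ℕ) ≤ (h : ℤ) ^ (b * (N + 2 - i)) := by
        exact_mod_cast h3
      have h5 := abs_add_le ((u ⟨i, Nat.lt_succ_of_le hi'⟩ : ℕ) : ℤ) (t.coeff i)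
      rw [Nat.abs_cast] at h5
      linarith
    · intro j
      have h1 := htN j
      have h2 : (N0 : ℤ) ∣ (s2_6_f a u).coeff j - (s2_6_f a u0).coeff j := by
        rw [s2_6_f_coeff, s2_6_f_coeff]
        by_cases hj : j < N + 1
        · rw [dif_pos hj, dif_pos hj]
          have h3 := s2_6_dvd_of_cast (hk1 ⟨j, hj⟩)
          have h4 : ((if j = N + 2 then (1 : ℤ) else 0) + (if j = N + 1 then a else 0) +
              (u ⟨j, hj⟩ : ℤ)) - ((if j = N + 2 then (1 : ℤ) else 0) +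
              (if j = N + 1 then a else 0) + (u0 ⟨j, hj⟩ : ℤ)) =
              (u ⟨j, hj⟩ : ℤ) - (u0 ⟨j, hj⟩ : ℤ) := by ring
          rw [h4]
          exact h3
        · rw [dif_neg hj, dif_neg hj, sub_self]
          exact dvd_zero _
      have h3 := hg0c j
      have h4 : (s2_6_f a u + t).coeff j - s.coeff j =
          ((s2_6_f a u).coeff j - (s2_6_f a u0).coeff j) + (t.coeff j - D.coeff j) +
            g0.coeff j := by
        rw [hcoef, hDc]
        ring
      rw [h4]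
      exact dvd_add (dvd_add h2 h1) h3
    · have h2 : (q : ℤ) ^ 2 ∣ (s2_6_f a u).eval x - (s2_6_f a u0).eval x := by
        have := s2_6_dvd_of_cast hk2
        exact_mod_cast this
      have h4 : (s2_6_f a u + t).eval x - A =
          ((s2_6_f a u).eval x - (s2_6_f a u0).eval x) + (t.eval x - D.eval x) +
            (α - (A - s.eval x)) := by
        rw [eval_add, hDe]
        ring
      rw [h4]
      exact dvd_add (dvd_add h2 hte) hα
    · have h2 : (q : ℤ) ∣ (s2_6_f a u).derivative.eval x - (s2_6_f a u0).derivative.eval x :=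
        s2_6_dvd_of_cast hk3
      have h4 : (s2_6_f a u + t).derivative.eval x - B =
          ((s2_6_f a u).derivative.eval x - (s2_6_f a u0).derivative.eval x) +
            (t.derivative.eval x - D.derivative.eval x) + (β - (B - s.derivative.eval x)) := by
        rw [derivative_add, eval_add, hDd]
        ring
      rw [h4]
      exact dvd_add (dvd_add h2 htd) hβ
  · rw [Finset.card_image_of_injOn (fun u1 h1 u2 h2 h12 => hinj u1 h1 u2 h2 h12)]
    calc h ^ (b * ((N + 2) * (N + 3) / 2 - 1)) ≤ 2 ^ (N + 1) * U.card := hUcard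
      _ ≤ 2 ^ (N + 1) * (N0 ^ (N + 1) * (q ^ 2 * q) * K.card) := Nat.mul_le_mul_left _ hk
      _ = _ := by ring

theorem class_count (n N0 b : ℕ) (s : ℤ[X]) (hn : 4 ≤ n) (hN0 : 0 < N0) (hs : s.Monic)
    (hsn : s.natDegree = n) (hb : 1 ≤ b) : ∃ c : ℝ, 0 < c ∧ ∃ h0 : ℕ, ∀ h ≥ h0,
    ∀ (q : ℕ) (x A B : ℤ), 0 < q → Nat.Coprime q N0 → ∀ y : Fin (n - 1) → ℤ[X],
      LinearIndependent ℤ y → (∀ i, InBox h b (n - 2) (2 * b - 1) (y i) ∧ Dbl q x (y i)) →
      ∃ T : Finset ℤ[X], (∀ f ∈ T, Fam n N0 s b h f ∧ (q : ℤ) ^ 2 ∣ f.eval x - A ∧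
        (q : ℤ) ∣ f.derivative.eval x - B) ∧
        c * (h : ℝ) ^ (b * (n * (n + 1) / 2 - 1)) ≤ (q : ℝ) ^ 3 * T.card := by
  obtain ⟨N, rfl⟩ : ∃ N, n = N + 2 := ⟨n - 2, by omega⟩
  refine ⟨1 / (2 ^ (N + 1) * N0 ^ (N + 1)), by positivity, 2 * N0 * (N + 1), ?_⟩
  intro h hh q x A B hq hc y hy hyb
  obtain ⟨T, hT, hcard⟩ := s2_6_main N N0 b s (by omega) hN0 hs hsn hb h hh q x A B hq hc y hy hyb
  refine ⟨T, hT, ?_⟩
  have h1 : ((h : ℝ) ^ (b * ((N + 2) * (N + 3) / 2 - 1))) ≤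
      2 ^ (N + 1) * ((N0 : ℝ) ^ (N + 1) * ((q : ℝ) ^ 2 * q)) * T.card := by
    exact_mod_cast hcard
  have h2 : (0 : ℝ) < 2 ^ (N + 1) * (N0 : ℝ) ^ (N + 1) := by positivity
  show 1 / (2 ^ (N + 1) * (N0 : ℝ) ^ (N + 1)) * (h : ℝ) ^ (b * ((N + 2) * (N + 3) / 2 - 1)) ≤ _
  rw [div_mul_eq_mul_div, one_mul, div_le_iff₀ h2]
  calc ((h : ℝ) ^ (b * ((N + 2) * (N + 3) / 2 - 1))) ≤
      2 ^ (N + 1) * ((N0 : ℝ) ^ (N + 1) * ((q : ℝ) ^ 2 * q)) * T.card := h1
    _ = _ := by ring

end Pool.Agent.H92.SQ2
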