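import Pool.Agent.H92.SQ.Defs

/-!
# Project SQ2 (MP_a3214d): definitions

A lower bound for Malle's counting function `N(ℚ, S_n; B)` with an exponent larger than
`1/2 + 1/(n-1)`, for all `n ≥ 28` (proof of helper33).
-/

set_option autoImplicit false

open Polynomial

namespace Pool.Agent.H92.SQ2

/-- the primes in `(h^j, 8 h^j]` -/
def PR (h j : ℕ) : Finset ℕ :=
  (Finset.range (8 * h ^ j + 1)).filter fun p => p.Prime ∧ h ^ j < p

/-- `g` has degree at most `d` and `|g_j| ≤ h ^ (ρ + b (d - j))` -/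
def InBox (h b d ρ : ℕ) (g : ℤ[X]) : Prop :=
  g.natDegree ≤ d ∧ ∀ j ≤ d, |g.coeff j| ≤ (h : ℤ) ^ (ρ + b * (d - j))

/-- `g (x) = 0` modulo `q²` and `g' (x) = 0` modulo `q` -/
def Dbl (q : ℕ) (x : ℤ) (g : ℤ[X]) : Prop :=
  (q : ℤ) ^ 2 ∣ g.eval x ∧ (q : ℤ) ∣ g.derivative.eval x

/-- the family: monic polynomials `f` of degree `n`, congruent to `s` modulo `N0`, with the same
second coefficient as `s` and `|f_i| ≤ h ^ (b (n - i))` for `i ≤ n - 2` -/
structure Fam (n N0 : ℕ) (s : ℤ[X]) (b h : ℕ) (f : ℤ[X]) : Prop where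
  deg : f.natDegree = n
  monic : f.Monic
  snd : f.coeff (n - 1) = s.coeff (n - 1)
  ht : ∀ i ≤ n - 2, |f.coeff i| ≤ (h : ℤ) ^ (b * (n - i))
  cong : ∀ i, (N0 : ℤ) ∣ f.coeff i - s.coeff i

/-- `f` has a double root at `x` modulo `m` and modulo `l`, with `m² ∣ f (x)` and `l² ∤ f (x)` -/
structure Pl (f : ℤ[X]) (m l : ℕ) (x : ℤ) : Prop where
  m2 : (m : ℤ) ^ 2 ∣ f.eval x
  m1 : (m : ℤ) ∣ f.derivative.eval x
  l1 : (l : ℤ) ∣ f.eval x
  l2 : ¬ (l : ℤ) ^ 2 ∣ f.eval x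
  l3 : (l : ℤ) ∣ f.derivative.eval x

/-- the number field `K` has degree `n` and its Galois closure has the group `S_n` -/
def SymK (n : ℕ) (K : Type) [Field K] [NumberField K] : Prop :=
  Module.finrank ℚ K = n ∧
    ∃ e : (K →ₐ[ℚ] AlgebraicClosure ℚ) ≃ Fin n, ∀ π : Equiv.Perm (Fin n),
      ∃ σ : AlgebraicClosure ℚ ≃ₐ[ℚ] AlgebraicClosure ℚ,
        ∀ φ : K →ₐ[ℚ] AlgebraicClosure ℚ, e (σ.toAlgHom.comp φ) = π (e φ)

/-- an integral element of trace zero with all conjugates of size at most `R` -/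
structure Sh {K : Type} [Field K] [NumberField K] (R : ℝ) (z : K) : Prop where
  int : IsIntegral ℤ z
  tr : Algebra.trace ℚ K z = 0
  sz : ∀ φ : K →+* ℂ, ‖φ z‖ ≤ R

/-- `∑_{i < n} ⌈i / u⌉` -/
def gg (n u : ℕ) : ℕ := ∑ i ∈ Finset.range n, (i + u - 1) / u

/-- monic integer polynomials of degree `n` with second coefficient `0` and all complex roots of
size at most `L` -/
structure ShP (n : ℕ) (L : ℝ) (P : ℤ[X]) : Prop where
  deg : P.natDegree = n
  monic : P.Monic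
  snd : P.coeff (n - 1) = 0
  sz : ∀ z : ℂ, aeval z P = 0 → ‖z‖ ≤ L

end Pool.Agent.H92.SQ2
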