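import Pool.Agent.H92.SQ.Disc
import Pool.Agent.H92.SQ2.Defs

/-!
# Project SQ2 (MP_a3214d), row S2-8: the discriminant bound for monic polynomials
-/

set_option autoImplicit false

open Polynomial IsDedekindDomain NumberField Module Matrix Pool.Agent.H35.AN Pool.Agent.H92.SQ

namespace Pool.Agent.H92.SQ2

theorem disc_bound2 (n : ℕ) (hn : 2 ≤ n) : ∃ C : ℝ, 0 < C ∧ ∀ (K : Type) [Field K] [NumberField K]
    (f : ℤ[X]) (θ : K) (R : ℝ) (m r : ℤ), f.natDegree = n → f.Monic → Module.finrank ℚ K = n →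
    Irreducible (FQ f) → aeval θ f = 0 → 1 ≤ R → (∀ φ : K →+* ℂ, ‖φ θ‖ ≤ R) → 0 < m →
    m ^ 2 ∣ f.eval r → m ∣ f.derivative.eval r →
    |(NumberField.discr K : ℝ)| * (m : ℝ) ^ 2 ≤ C * R ^ (n * (n - 1)) := by
  classical
  refine ⟨(n.factorial : ℝ) ^ 2, by positivity, ?_⟩
  intro K _ _ f θ R m r hdeg hmon hfin hirr hθ hR hconj hm h0 h1
  have hθr : θ - (r : K) ≠ 0 := by
    intro h
    have h2 : θ = (r : K) := sub_eq_zero.1 h
    have h3 : ((f.eval r : ℤ) : K) = 0 := by
      have h4 : ((f.eval r : ℤ) : K) = aeval (r : K) f := by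
        rw [aeval_def, ← eq_intCast (algebraMap ℤ K) r, eval₂_at_apply]
        rfl
      rw [h4, ← h2, hθ]
    have h5 : f.eval r = 0 := by exact_mod_cast h3
    have h6 : (FQ f).IsRoot (r : ℚ) := by
      rw [IsRoot.def, FQ, eval_intCast_map, Int.cast_id, h5, map_zero]
    have h7 := degree_eq_one_of_irreducible_of_root hirr h6
    have h8 := natDegree_eq_of_degree_eq_some (show (FQ f).degree = ((1 : ℕ) : WithBot ℕ) from h7)
    rw [FQ, natDegree_map_eq_of_injective (RingHom.injective_int _), hdeg] at h8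
    omega
  have hmK : (m : K) ≠ 0 := by exact_mod_cast hm.ne'
  set ψ : K := ((f.eval r : ℤ) : K) / ((m : K) * (θ - (r : K))) with hψ
  have hψint : IsIntegral ℤ ψ := psi_int hm.ne' h0 h1 hθ
  -- the expansion
  have hsumθ : ∑ i ∈ Finset.range (n + 1), ((f.coeff i : ℤ) : K) * θ ^ i = 0 := by
    rw [← hθ, aeval_eq_sum_range, hdeg]
    refine Finset.sum_congr rfl fun i _ => ?_
    rw [zsmul_eq_mul]
  have hsumr : ∑ i ∈ Finset.range (n + 1), ((f.coeff i : ℤ) : K) * (r : K) ^ i =
      ((f.eval r : ℤ) : K) := by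
    rw [eval_eq_sum_range, hdeg]
    push_cast
    rfl
  have hfn : f.coeff n = 1 := by
    rw [← hdeg]
    exact hmon
  let e : ℕ → ℤ := fun j => ∑ i ∈ Finset.range (n + 1), if j < i then f.coeff i * r ^ (i - 1 - j)
    else 0
  have he : e (n - 1) = 1 := by
    simp only [e]
    rw [Finset.sum_eq_single n]
    · rw [if_pos (by omega), hfn, show n - 1 - (n - 1) = 0 by omega, pow_zero, mul_one]
    · intro i hi hin
      rw [Finset.mem_range] at hi
      rw [if_neg (by omega)]
    · intro h
      exact absurd (Finset.mem_range.2 (by omega)) h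
  have hG : ∑ j ∈ Finset.range n, θ ^ j * ((e j : ℤ) : K) = -((m : K) * ψ) := by
    have h2 : ∀ i ∈ Finset.range (n + 1), ((f.coeff i : ℤ) : K) * (θ ^ i - (r : K) ^ i) =
        (∑ j ∈ Finset.range n, if j < i then ((f.coeff i : ℤ) : K) *
          (θ ^ j * (r : K) ^ (i - 1 - j)) else 0) * (θ - (r : K)) := by
      intro i hi
      rw [Finset.mem_range] at hi
      rw [← geom_sum₂_mul θ (r : K) i, ← mul_assoc, Finset.mul_sum, ← Finset.sum_filter]
      congr 1
      refine Finset.sum_congr ?_ fun j _ => rfl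
      ext j
      simp only [Finset.mem_range, Finset.mem_filter]
      omega
    have h3 : -((f.eval r : ℤ) : K) =
        (∑ j ∈ Finset.range n, θ ^ j * ((e j : ℤ) : K)) * (θ - (r : K)) := by
      have h4 : -((f.eval r : ℤ) : K) =
          ∑ i ∈ Finset.range (n + 1), ((f.coeff i : ℤ) : K) * (θ ^ i - (r : K) ^ i) := by
        simp only [mul_sub, Finset.sum_sub_distrib]
        rw [hsumθ, hsumr, zero_sub]
      rw [h4, Finset.sum_congr rfl h2, ← Finset.sum_mul, Finset.sum_comm]
      congr 1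
      refine Finset.sum_congr rfl fun j _ => ?_
      simp only [e]
      push_cast
      rw [Finset.mul_sum]
      refine Finset.sum_congr rfl fun i _ => ?_
      split_ifs
      · ring
      · rw [mul_zero]
    have h5 : (m : K) * ψ * (θ - (r : K)) = ((f.eval r : ℤ) : K) := by
      rw [hψ]
      field_simp
    have h6 : (∑ j ∈ Finset.range n, θ ^ j * ((e j : ℤ) : K)) * (θ - (r : K)) =
        (-((m : K) * ψ)) * (θ - (r : K)) := by
      rw [← h3, ← h5]
      ring
    exact mul_right_cancel₀ hθr h6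
  -- the family
  let l0 : Fin n := ⟨n - 1, by omega⟩
  let τ : Fin n → K := fun j => θ ^ (j : ℕ)
  let c : Fin n → ℚ := fun j => if j = l0 then -(m : ℚ) else -((e (j : ℕ) : ℤ) : ℚ)
  have hrel : τ l0 = ∑ j, (Function.update τ l0 ψ) j * algebraMap ℚ K (c j) := by
    have hterm : ∀ j ∈ Finset.univ.erase l0, (Function.update τ l0 ψ) j * algebraMap ℚ K (c j) =
        -(θ ^ (j : ℕ) * ((e (j : ℕ) : ℤ) : K)) := by
      intro j hj
      have hji : j ≠ l0 := Finset.ne_of_mem_erase hj
      rw [Function.update_of_ne hji]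
      simp only [c, if_neg hji, τ]
      simp
    rw [← Finset.add_sum_erase _ _ (Finset.mem_univ l0), Finset.sum_congr rfl hterm,
      Finset.sum_neg_distrib, Function.update_self]
    have hc : algebraMap ℚ K (c l0) = -(m : K) := by simp [c]
    rw [Finset.sum_range, ← Finset.add_sum_erase _ _ (Finset.mem_univ l0)] at hG
    have h7 : (l0 : ℕ) = n - 1 := rfl
    rw [h7, he, Int.cast_one, mul_one] at hG
    rw [hc]
    simp only [τ, h7]
    linear_combination hG
  have hdisc := sq8_update τ l0 ψ c hrel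
  have hci : c l0 = -(m : ℚ) := by simp [c]
  rw [hci, neg_sq] at hdisc
  -- independence
  have hone : (1 : K) ∈ Submodule.span ℚ (Set.range τ) := by
    refine Submodule.subset_span ⟨⟨0, by omega⟩, ?_⟩
    simp [τ]
  have hmem : ∀ k, k < n → θ ^ k ∈ Submodule.span ℚ (Set.range τ) := fun k hk =>
    Submodule.subset_span ⟨⟨k, hk⟩, rfl⟩
  have hstab : ∀ x ∈ Submodule.span ℚ (Set.range τ), θ * x ∈ Submodule.span ℚ (Set.range τ) := by
    intro x hx
    induction hx using Submodule.span_induction with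
    | mem x hx =>
      obtain ⟨j, rfl⟩ := hx
      simp only [τ]
      rw [← pow_succ']
      by_cases hj : (j : ℕ) + 1 < n
      · exact hmem _ hj
      · have hjn : (j : ℕ) + 1 = n := by
          have := j.2
          omega
        rw [hjn]
        rw [Finset.sum_range_succ, hfn, Int.cast_one, one_mul] at hsumθ
        have h8 : θ ^ n = -∑ i ∈ Finset.range n, ((f.coeff i : ℤ) : K) * θ ^ i := by
          linear_combination hsumθ
        rw [h8]
        refine Submodule.neg_mem _ (Submodule.sum_mem _ fun i hi => ?_)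
        have h9 : ((f.coeff i : ℤ) : K) * θ ^ i = (f.coeff i : ℚ) • θ ^ i := by
          rw [Algebra.smul_def]
          simp
        rw [h9]
        exact Submodule.smul_mem _ _ (hmem i (Finset.mem_range.1 hi))
    | zero => simp
    | add x y _ _ hx hy =>
      rw [mul_add]
      exact Submodule.add_mem _ hx hy
    | smul q x _ hx =>
      rw [mul_smul_comm]
      exact Submodule.smul_mem _ _ hx
  have htop := sq8_span hdeg hfin hirr hθ _ hone hstab
  have hcard : Fintype.card (Fin n) = Module.finrank ℚ K := by rw [hfin, Fintype.card_fin]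
  have hli : LinearIndependent ℚ τ :=
    linearIndependent_of_top_le_span_of_card_eq_finrank htop.ge hcard
  have hne : Algebra.discr ℚ τ ≠ 0 := by
    have : Nonempty (Fin n) := ⟨l0⟩
    have h1 := Algebra.discr_not_zero_of_basis ℚ (basisOfLinearIndependentOfCardEqFinrank hli
      hcard)
    rwa [coe_basisOfLinearIndependentOfCardEqFinrank] at h1
  have hne' : Algebra.discr ℚ (Function.update τ l0 ψ) ≠ 0 := by
    intro h
    rw [hdisc, h, mul_zero] at hne
    exact hne rfl
  have hωint : ∀ j, IsIntegral ℤ (Function.update τ l0 ψ j) := by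
    intro j
    by_cases hji : j = l0
    · subst hji
      rw [Function.update_self]
      exact hψint
    · rw [Function.update_of_ne hji]
      have hθint : IsIntegral ℤ θ := ⟨f, hmon, by rwa [aeval_def] at hθ⟩
      exact hθint.pow _
  have hle := sq8_discr_le hcard.symm _ hωint hne'
  -- the size
  have hB : ∀ (φ : K →+* ℂ) (j : Fin n), ‖φ (τ j)‖ ≤ R ^ (j : ℕ) := by
    intro φ j
    simp only [τ]
    rw [map_pow, norm_pow]
    exact pow_le_pow_left₀ (norm_nonneg _) (hconj φ) _
  have hnorm := sq8_norm hcard.symm τ (fun j => R ^ (j : ℕ)) hB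
  have hprod : (∏ j : Fin n, R ^ (j : ℕ)) ^ 2 = R ^ (n * (n - 1)) := by
    rw [Finset.prod_pow_eq_pow_sum, ← pow_mul, ← Finset.sum_range (fun j => j),
      Finset.sum_range_id_mul_two]
  rw [Fintype.card_fin, mul_pow, hprod, hdisc, Rat.cast_mul, abs_mul] at hnorm
  have hm2 : |(((m : ℚ) ^ 2 : ℚ) : ℝ)| = (m : ℝ) ^ 2 := by
    rw [Rat.cast_pow, Rat.cast_intCast, abs_of_nonneg (sq_nonneg _)]
  rw [hm2] at hnorm
  calc |(NumberField.discr K : ℝ)| * (m : ℝ) ^ 2
      ≤ |((Algebra.discr ℚ (Function.update τ l0 ψ) : ℚ) : ℝ)| * (m : ℝ) ^ 2 :=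
        mul_le_mul_of_nonneg_right hle (sq_nonneg _)
    _ = (m : ℝ) ^ 2 * |((Algebra.discr ℚ (Function.update τ l0 ψ) : ℚ) : ℝ)| := mul_comm _ _
    _ ≤ _ := hnorm

end Pool.Agent.H92.SQ2
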