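import Pool.Agent.H92.SQ2.Basis
import Pool.Agent.H35.AN.DiscLe

/-!
# Project SQ2 (MP_a3214d), row S2-16: the discriminant of a field with many small elements
-/

set_option autoImplicit false

open Polynomial IsDedekindDomain NumberField Pool.Agent.H35.AN Pool.Agent.H92.SQ

namespace Pool.Agent.H92.SQ2

theorem s2_16_cons {n u : ℕ} {K : Type} [Field K] [NumberField K] (hK : Module.finrank ℚ K = n)
    {R : ℝ} (z : Fin u → K) (hz : ∀ i, Sh R (z i)) (hli : LinearIndependent ℚ z) :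
    LinearIndependent ℚ (Fin.cons 1 z : Fin (u + 1) → K) := by
  rw [linearIndependent_finCons]
  refine ⟨hli, fun h => ?_⟩
  have h1 : Submodule.span ℚ (Set.range z) ≤ LinearMap.ker (Algebra.trace ℚ K) := by
    rw [Submodule.span_le]
    rintro _ ⟨i, rfl⟩
    exact (hz i).tr
  have h2 : Algebra.trace ℚ K 1 = 0 := h1 h
  have h3 : Algebra.trace ℚ K 1 = (n : ℚ) := by
    have := Algebra.trace_algebraMap (R := ℚ) (S := K) (1 : ℚ)
    rw [map_one] at this
    rw [this, hK, nsmul_eq_mul, mul_one]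
  have h4 : 0 < n := by
    rw [← hK]
    exact Module.finrank_pos
  rw [h3] at h2
  have : n = 0 := by exact_mod_cast h2
  omega

theorem s2_16_core (n u : ℕ) {K : Type} [Field K] [NumberField K]
    (hK : Module.finrank ℚ K = n) (R : ℝ) (hR : 1 ≤ R) (z : Fin u → K) (hz : ∀ i, Sh R (z i))
    (w : Fin n → (Fin u → ℕ)) (hw : ∀ i : Fin n, ∑ j, w i j ≤ ((i : ℕ) + u - 1) / u)
    (hli : LinearIndependent ℚ (fun i => ∏ j, z j ^ w i j)) :
    |(NumberField.discr K : ℝ)| ≤ (n.factorial : ℝ) ^ 2 * R ^ (2 * gg n u) := by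
  have hint : ∀ i, IsIntegral ℤ (∏ j, z j ^ w i j) := fun i =>
    IsIntegral.prod _ fun j _ => (hz j).int.pow _
  have hB : ∀ (φ : K →+* ℂ) (i : Fin n), ‖φ (∏ j, z j ^ w i j)‖ ≤ R ^ (((i : ℕ) + u - 1) / u) := by
    intro φ i
    rw [map_prod, norm_prod]
    calc ∏ j, ‖φ (z j ^ w i j)‖ ≤ ∏ j, R ^ w i j := by
          refine Finset.prod_le_prod (fun j _ => norm_nonneg _) fun j _ => ?_
          rw [map_pow, norm_pow]
          exact pow_le_pow_left₀ (norm_nonneg _) ((hz j).sz φ) _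
      _ = R ^ ∑ j, w i j := Finset.prod_pow_eq_pow_sum _ _ _
      _ ≤ R ^ (((i : ℕ) + u - 1) / u) := pow_le_pow_right₀ hR (hw i)
  have h1 := discr_le_of_family (by rw [hK, Fintype.card_fin]) _ hint hli _ hB
  rw [Fintype.card_fin, mul_pow, Finset.prod_pow_eq_pow_sum, ← pow_mul,
    ← Finset.sum_range (fun i => (i + u - 1) / u), mul_comm _ 2] at h1
  exact h1

theorem disc_small (n u : ℕ) (hu : 1 ≤ u) : ∃ C : ℝ, 0 < C ∧
    ∀ (K : Type) [Field K] [NumberField K], SymK n K → ∀ R : ℝ, 1 ≤ R → ∀ z : Fin u → K,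
      (∀ i, Sh R (z i)) → LinearIndependent ℚ z →
      |(NumberField.discr K : ℝ)| ≤ C * R ^ (2 * gg n u) := by
  refine ⟨(n.factorial : ℝ) ^ 2, by positivity, ?_⟩
  intro K _ _ hK R hR z hz hli
  obtain ⟨w, hw, hwli⟩ := gp_basis hu hK z (s2_16_cons hK.1 z hz hli)
  exact s2_16_core n u hK.1 R hR z hz w hw hwli

end Pool.Agent.H92.SQ2
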