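import Pool.Agent.H92.SQ2.Defs

/-!
# Project SQ2 (MP_a3214d), row S2-5: independent small products

If `v` spans the polynomials of degree at most `d1` and `w` those of degree at most `d2` (over the
rationals), then `n - 1` of the products `v i * w j` are independent, `d1 + d2 = n - 2`.
-/

set_option autoImplicit false

open Polynomial

namespace Pool.Agent.H92.SQ2

/-- the map to rational polynomials -/
private noncomputable def s2q (g : ℤ[X]) : ℚ[X] := g.map (Int.castRingHom ℚ)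

private theorem s2q_mul (g k : ℤ[X]) : s2q (g * k) = s2q g * s2q k := by
  unfold s2q
  exact Polynomial.map_mul _

private noncomputable def s2L : ℤ[X] →ₗ[ℤ] ℚ[X] :=
  (Polynomial.mapRingHom (Int.castRingHom ℚ)).toAddMonoidHom.toIntLinearMap

private theorem s2L_apply (g : ℤ[X]) : s2L g = s2q g := rfl

private theorem s2L_inj : Function.Injective s2L := by
  intro g k h
  exact Polynomial.map_injective (Int.castRingHom ℚ) Int.cast_injective h

private theorem s2_indep {ι : Type} {v : ι → ℤ[X]} (hv : LinearIndependent ℤ v) :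
    LinearIndependent ℚ (fun i => s2q (v i)) := by
  have h1 : LinearIndependent ℤ (s2L ∘ v) := hv.map' s2L (LinearMap.ker_eq_bot.mpr s2L_inj)
  exact (LinearIndependent.iff_fractionRing ℤ ℚ).mp h1

private theorem s2_indep' {ι : Type} {v : ι → ℤ[X]}
    (hv : LinearIndependent ℚ (fun i => s2q (v i))) : LinearIndependent ℤ v := by
  have h1 : LinearIndependent ℤ (s2L ∘ v) := (LinearIndependent.iff_fractionRing ℤ ℚ).mpr hv
  exact LinearIndependent.of_comp s2L h1

private theorem s2_span {d : ℕ} {v : Fin (d + 1) → ℤ[X]} (hv : LinearIndependent ℤ v)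
    (hd : ∀ i, (v i).natDegree ≤ d) :
    Submodule.span ℚ (Set.range fun i => s2q (v i)) = degreeLT ℚ (d + 1) := by
  have hle : Submodule.span ℚ (Set.range fun i => s2q (v i)) ≤ degreeLT ℚ (d + 1) := by
    rw [Submodule.span_le]
    rintro _ ⟨i, rfl⟩
    rw [SetLike.mem_coe, mem_degreeLT]
    have h1 : (s2q (v i)).natDegree ≤ d := natDegree_map_le.trans (hd i)
    refine lt_of_le_of_lt degree_le_natDegree ?_
    exact_mod_cast Nat.lt_succ_of_le h1
  have hfin : Module.finrank ℚ (degreeLT ℚ (d + 1)) = d + 1 := by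
    rw [LinearEquiv.finrank_eq (degreeLTEquiv ℚ (d + 1)), Module.finrank_fin_fun]
  have : FiniteDimensional ℚ (degreeLT ℚ (d + 1)) :=
    Module.Finite.of_surjective _ (degreeLTEquiv ℚ (d + 1)).symm.surjective
  apply Submodule.eq_of_le_of_finrank_eq hle
  rw [hfin, finrank_span_eq_card (s2_indep hv), Fintype.card_fin]

/-- the products span -/
private theorem s2_top {n d1 d2 : ℕ} (hn : 4 ≤ n) (hd : d1 + d2 = n - 2)
    {v : Fin (d1 + 1) → ℤ[X]} {w : Fin (d2 + 1) → ℤ[X]}
    (hv : LinearIndependent ℤ v) (hw : LinearIndependent ℤ w)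
    (hdv : ∀ i, (v i).natDegree ≤ d1) (hdw : ∀ i, (w i).natDegree ≤ d2) :
    Submodule.span ℚ (Set.range fun ij : Fin (d1 + 1) × Fin (d2 + 1) =>
      s2q (v ij.1 * w ij.2)) = degreeLT ℚ (n - 1) := by
  apply le_antisymm
  · rw [Submodule.span_le]
    rintro _ ⟨ij, rfl⟩
    rw [SetLike.mem_coe, mem_degreeLT]
    have h1 : (s2q (v ij.1 * w ij.2)).natDegree ≤ n - 2 := by
      refine natDegree_map_le.trans (natDegree_mul_le.trans ?_)
      have := hdv ij.1
      have := hdw ij.2
      omega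
    refine lt_of_le_of_lt degree_le_natDegree ?_
    have h2 : (s2q (v ij.1 * w ij.2)).natDegree < n - 1 := by omega
    exact_mod_cast h2
  · have hmul : ∀ p ∈ degreeLT ℚ (d1 + 1), ∀ r ∈ degreeLT ℚ (d2 + 1),
        p * r ∈ Submodule.span ℚ (Set.range fun ij : Fin (d1 + 1) × Fin (d2 + 1) =>
          s2q (v ij.1 * w ij.2)) := by
      intro p hp r hr
      rw [← s2_span hv hdv] at hp
      rw [← s2_span hw hdw] at hr
      have h3 := Submodule.mul_mem_mul hp hr
      rw [Submodule.span_mul_span] at h3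
      refine Submodule.span_mono ?_ h3
      rintro _ ⟨_, ⟨i, rfl⟩, _, ⟨j, rfl⟩, rfl⟩
      exact ⟨(i, j), s2q_mul _ _⟩
    rw [degreeLT_eq_span_X_pow, Submodule.span_le]
    rintro _ hx
    rw [Finset.mem_coe, Finset.mem_image] at hx
    obtain ⟨k, hk, rfl⟩ := hx
    rw [Finset.mem_range] at hk
    have hk1 : min k d1 + (k - min k d1) = k := by omega
    have h4 : (X : ℚ[X]) ^ k = X ^ (min k d1) * X ^ (k - min k d1) := by
      rw [← pow_add, hk1]
    rw [SetLike.mem_coe, h4]
    apply hmul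
    · rw [mem_degreeLT, degree_X_pow]
      have : min k d1 < d1 + 1 := by omega
      exact_mod_cast this
    · rw [mem_degreeLT, degree_X_pow]
      have : k - min k d1 < d2 + 1 := by omega
      exact_mod_cast this

private theorem s2_box {h b d1 d2 R1 R2 n : ℕ} (hh : n ≤ h) (hn : 4 ≤ n) (hd : d1 + d2 = n - 2)
    {g k : ℤ[X]} (hg : InBox h b d1 R1 g) (hk : InBox h b d2 R2 k) :
    InBox h b (n - 2) (R1 + R2 + 1) (g * k) := by
  refine ⟨natDegree_mul_le.trans (by have := hg.1; have := hk.1; omega), ?_⟩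
  intro j hj
  rw [coeff_mul]
  have hh1 : (1 : ℤ) ≤ h := by exact_mod_cast (by omega : 1 ≤ h)
  have hterm : ∀ p ∈ Finset.HasAntidiagonal.antidiagonal j, |g.coeff p.1 * k.coeff p.2| ≤
      (h : ℤ) ^ (R1 + R2 + b * (n - 2 - j)) := by
    intro p hp
    rw [Finset.HasAntidiagonal.mem_antidiagonal] at hp
    by_cases h1 : p.1 ≤ d1
    · by_cases h2 : p.2 ≤ d2
      · rw [abs_mul]
        calc |g.coeff p.1| * |k.coeff p.2|
            ≤ (h : ℤ) ^ (R1 + b * (d1 - p.1)) * (h : ℤ) ^ (R2 + b * (d2 - p.2)) :=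
              mul_le_mul (hg.2 _ h1) (hk.2 _ h2) (abs_nonneg _) (by positivity)
          _ = (h : ℤ) ^ (R1 + R2 + b * (n - 2 - j)) := by
              rw [← pow_add]
              congr 1
              have h3 : n - 2 - j = (d1 - p.1) + (d2 - p.2) := by omega
              rw [h3]
              ring
      · rw [coeff_eq_zero_of_natDegree_lt (lt_of_le_of_lt hk.1 (not_le.mp h2)), mul_zero, abs_zero]
        positivity
    · rw [coeff_eq_zero_of_natDegree_lt (lt_of_le_of_lt hg.1 (not_le.mp h1)), zero_mul, abs_zero]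
      positivity
  calc |∑ p ∈ Finset.HasAntidiagonal.antidiagonal j, g.coeff p.1 * k.coeff p.2|
      ≤ ∑ p ∈ Finset.HasAntidiagonal.antidiagonal j, |g.coeff p.1 * k.coeff p.2| := Finset.abs_sum_le_sum_abs _ _
    _ ≤ ∑ _p ∈ Finset.HasAntidiagonal.antidiagonal j, (h : ℤ) ^ (R1 + R2 + b * (n - 2 - j)) :=
        Finset.sum_le_sum hterm
    _ = ((j + 1 : ℕ) : ℤ) * (h : ℤ) ^ (R1 + R2 + b * (n - 2 - j)) := by
        rw [Finset.sum_const, Finset.Nat.card_antidiagonal, nsmul_eq_mul]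
    _ ≤ (h : ℤ) * (h : ℤ) ^ (R1 + R2 + b * (n - 2 - j)) := by
        apply mul_le_mul_of_nonneg_right _ (by positivity)
        exact_mod_cast (by omega : j + 1 ≤ h)
    _ = (h : ℤ) ^ (R1 + R2 + 1 + b * (n - 2 - j)) := by
        rw [← pow_succ']
        congr 1
        ring

private theorem s2_dbl {q : ℕ} {x : ℤ} {g k : ℤ[X]} (hg : (q : ℤ) ∣ g.eval x)
    (hk : (q : ℤ) ∣ k.eval x) : Dbl q x (g * k) := by
  constructor
  · rw [eval_mul, sq]
    exact mul_dvd_mul hg hk
  · rw [derivative_mul, eval_add, eval_mul, eval_mul]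
    exact dvd_add (Dvd.dvd.mul_left hk _) (Dvd.dvd.mul_right hg _)

theorem products (n b d1 d2 R1 R2 : ℕ) (hn : 4 ≤ n) (hd : d1 + d2 = n - 2) :
    ∃ h0 : ℕ, ∀ h ≥ h0, ∀ (q : ℕ) (x : ℤ) (v : Fin (d1 + 1) → ℤ[X]) (w : Fin (d2 + 1) → ℤ[X]),
      LinearIndependent ℤ v → LinearIndependent ℤ w →
      (∀ i, InBox h b d1 R1 (v i) ∧ (q : ℤ) ∣ (v i).eval x) →
      (∀ i, InBox h b d2 R2 (w i) ∧ (q : ℤ) ∣ (w i).eval x) →
      ∃ y : Fin (n - 1) → ℤ[X], LinearIndependent ℤ y ∧
        ∀ i, InBox h b (n - 2) (R1 + R2 + 1) (y i) ∧ Dbl q x (y i) := by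
  refine ⟨n, ?_⟩
  intro h hh q x v w hv hw hv1 hw1
  have hspan := s2_top hn hd hv hw (fun i => (hv1 i).1.1) (fun i => (hw1 i).1.1)
  set S : Set ℚ[X] := Set.range fun ij : Fin (d1 + 1) × Fin (d2 + 1) => s2q (v ij.1 * w ij.2)
    with hS
  obtain ⟨B, hBS, hBspan, hBind⟩ := exists_linearIndependent ℚ S
  have hSfin : S.Finite := Set.finite_range _
  have : Finite B := (hSfin.subset hBS).to_subtype
  have := Fintype.ofFinite B
  have hcard : Fintype.card B = n - 1 := by
    have h1 := finrank_span_eq_card hBind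
    rw [Subtype.range_coe, hBspan, hspan, LinearEquiv.finrank_eq (degreeLTEquiv ℚ (n - 1)),
      Module.finrank_fin_fun] at h1
    exact h1.symm
  let e : Fin (n - 1) ≃ B := (Fintype.equivFinOfCardEq hcard).symm
  have hex : ∀ k : Fin (n - 1), ∃ ij : Fin (d1 + 1) × Fin (d2 + 1),
      s2q (v ij.1 * w ij.2) = (e k : ℚ[X]) := fun k => hBS (e k).2
  choose ij hij using hex
  refine ⟨fun k => v (ij k).1 * w (ij k).2, ?_, ?_⟩
  · apply s2_indep'
    have h2 : (fun k => s2q (v (ij k).1 * w (ij k).2)) = fun k => ((e k : B) : ℚ[X]) :=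
      funext hij
    rw [h2]
    exact hBind.comp e e.injective
  · intro k
    exact ⟨s2_box hh hn hd (hv1 _).1 (hw1 _).1, s2_dbl (hv1 _).2 (hw1 _).2⟩

end Pool.Agent.H92.SQ2
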