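import Pool.Agent.H92.SQ2.Pack

/-!
# Project SQ2, row S2-4: full rank by pigeonhole and packing
-/

set_option autoImplicit false

open Polynomial

namespace Pool.Agent.H92.SQ2

/-- the polynomial with given coefficients -/
noncomputable def s2_4_P (d : ℕ) (g : Fin (d + 1) → ℕ) : ℤ[X] :=
  ∑ j : Fin (d + 1), C ((g j : ℕ) : ℤ) * X ^ (j : ℕ)

theorem s2_4_coeff (d : ℕ) (g : Fin (d + 1) → ℕ) (i : Fin (d + 1)) :
    (s2_4_P d g).coeff (i : ℕ) = g i := by
  unfold s2_4_P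
  rw [finsetSum_coeff, Finset.sum_eq_single i]
  · simp
  · intro j _ hj
    rw [coeff_C_mul, coeff_X_pow, if_neg, mul_zero]
    intro h
    exact hj (Fin.ext h.symm)
  · intro h
    exact absurd (Finset.mem_univ i) h

theorem s2_4_deg (d : ℕ) (g : Fin (d + 1) → ℕ) : (s2_4_P d g).natDegree ≤ d := by
  unfold s2_4_P
  refine natDegree_sum_le_of_forall_le _ _ (fun j _ => ?_)
  exact (natDegree_C_mul_X_pow_le _ _).trans (by omega)

/-- the scaled coefficient vector -/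
noncomputable def s2_4_psi (d ρ b h : ℕ) : ℤ[X] →ₗ[ℤ] (Fin (d + 1) → ℝ) where
  toFun g := fun j => (g.coeff (j : ℕ) : ℝ) / (h : ℝ) ^ (ρ + b * (d - (j : ℕ)))
  map_add' g g' := by
    funext j
    rw [coeff_add, Int.cast_add, add_div]
    rfl
  map_smul' c g := by
    funext j
    rw [coeff_smul, smul_eq_mul, Int.cast_mul, mul_div_assoc]
    simp

theorem s2_4_sum (d a b : ℕ) :
    2 * ∑ j : Fin (d + 1), (a + b * (d - (j : ℕ))) = 2 * a * (d + 1) + b * d * (d + 1) := by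
  rw [Fin.sum_univ_eq_sum_range (fun j => a + b * (d - j)) (d + 1), Finset.sum_add_distrib,
    Finset.sum_const, Finset.card_range, smul_eq_mul, ← Finset.mul_sum]
  have h1 : ∑ j ∈ Finset.range (d + 1), (d - j) = ∑ j ∈ Finset.range (d + 1), j := by
    have h2 := Finset.sum_range_reflect (fun j => j) (d + 1)
    rw [← h2]
    refine Finset.sum_congr rfl (fun j _ => ?_)
    omega
  rw [h1]
  have h3 := Finset.sum_range_id_mul_two (d + 1)
  simp only [Nat.add_sub_cancel] at h3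
  calc 2 * ((d + 1) * a + b * ∑ j ∈ Finset.range (d + 1), j)
      = 2 * a * (d + 1) + b * ((∑ j ∈ Finset.range (d + 1), j) * 2) := by ring
    _ = _ := by rw [h3]; ring

theorem s2_4_box {d ρ b h : ℕ} (hh : 0 < h) {g : ℤ[X]} (hd : g.natDegree ≤ d)
    (hg : ‖s2_4_psi d ρ b h g‖ ≤ 1) : InBox h b d ρ g := by
  refine ⟨hd, fun j hj => ?_⟩
  have hpos : (0 : ℝ) < (h : ℝ) ^ (ρ + b * (d - j)) := by positivity
  have h1 : ‖s2_4_psi d ρ b h g ⟨j, by omega⟩‖ ≤ 1 := (norm_le_pi_norm _ _).trans hg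
  have h2 : s2_4_psi d ρ b h g ⟨j, by omega⟩ = (g.coeff j : ℝ) / (h : ℝ) ^ (ρ + b * (d - j)) := rfl
  rw [h2, Real.norm_eq_abs, abs_div, abs_of_pos hpos, div_le_one hpos] at h1
  exact_mod_cast h1

/-! ## S2-4 Rank.lean (uses S2-3) -/

theorem full_rank (d ρ κ b : ℕ) : ∃ h0 : ℕ, ∀ h ≥ h0, ∀ (q : ℕ) (x : ℤ), 0 < q →
    (∀ g : ℤ[X], g ≠ 0 → InBox h b d ρ g → ¬ (q : ℤ) ∣ g.eval x) →
    q ^ 2 * h ^ (2 * (κ * d + 1)) ≤ h ^ (2 * (ρ + κ) * (d + 1) + b * d * (d + 1)) →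
    ∃ v : Fin (d + 1) → ℤ[X], LinearIndependent ℤ v ∧
      ∀ i, InBox h b d (ρ + κ) (v i) ∧ (q : ℤ) ∣ (v i).eval x := by
  classical
  refine ⟨3 ^ d + 1, fun h hh q x hq hno hle => ?_⟩
  have hh3 : 3 ^ d < h := by omega
  have hh0 : 0 < h := lt_of_le_of_lt (Nat.zero_le _) hh3
  have hh1' : (1 : ℝ) ≤ h := by exact_mod_cast hh0
  have : NeZero q := ⟨hq.ne'⟩
  let r : Fin (d + 1) → ℕ := fun j => ρ + κ + b * (d - (j : ℕ))
  let A : Finset (Fin (d + 1) → ℕ) := Fintype.piFinset fun j => Finset.range (h ^ r j + 1)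
  have hA : h ^ (∑ j, r j) < A.card := by
    rw [Fintype.card_piFinset, ← Finset.prod_pow_eq_pow_sum]
    refine Finset.prod_lt_prod_of_nonempty (fun j _ => by positivity) (fun j _ => ?_)
      Finset.univ_nonempty
    rw [Finset.card_range]
    omega
  have hsum : 2 * ∑ j, r j = 2 * (ρ + κ) * (d + 1) + b * d * (d + 1) := s2_4_sum d (ρ + κ) b
  have hq1 : q * h ^ (κ * d + 1) ≤ h ^ (∑ j, r j) := by
    rw [← hsum, mul_comm 2 (κ * d + 1), mul_comm 2 (∑ j, r j), pow_mul, pow_mul, ← mul_pow] at hle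
    exact (Nat.pow_le_pow_iff_left (by norm_num)).mp hle
  let f : (Fin (d + 1) → ℕ) → ZMod q := fun g => (((s2_4_P d g).eval x : ℤ) : ZMod q)
  obtain ⟨c, _, hc⟩ := Finset.exists_lt_card_fiber_of_mul_lt_card_of_maps_to (s := A)
    (t := (Finset.univ : Finset (ZMod q))) (f := f) (n := h ^ (κ * d + 1))
    (fun _ _ => Finset.mem_univ _) (by
      rw [Finset.card_univ, ZMod.card]
      omega)
  set S0 := A.filter (fun g => f g = c) with hS0
  have hS0ne : S0.Nonempty := by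
    rw [← Finset.card_pos]
    omega
  obtain ⟨g0, hg0⟩ := hS0ne
  -- the differences
  let δ : (Fin (d + 1) → ℕ) → ℤ[X] := fun g => s2_4_P d g - s2_4_P d g0
  have hdeg : ∀ g g' : Fin (d + 1) → ℕ, (s2_4_P d g - s2_4_P d g').natDegree ≤ d := fun g g' =>
    (natDegree_sub_le _ _).trans (max_le (s2_4_deg d g) (s2_4_deg d g'))
  have hdvd : ∀ g ∈ S0, ∀ g' ∈ S0, (q : ℤ) ∣ (s2_4_P d g - s2_4_P d g').eval x := by
    intro g hg g' hg'
    have h1 : f g = f g' := by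
      rw [(Finset.mem_filter.mp hg).2, (Finset.mem_filter.mp hg').2]
    rw [eval_sub]
    have h2 : (((s2_4_P d g).eval x - (s2_4_P d g').eval x : ℤ) : ZMod q) = 0 := by
      rw [Int.cast_sub]
      exact sub_eq_zero.mpr h1
    exact (ZMod.intCast_zmod_eq_zero_iff_dvd _ q).mp h2
  have hbox : ∀ g ∈ S0, InBox h b d (ρ + κ) (δ g) := by
    intro g hg
    refine ⟨hdeg g g0, fun j hj => ?_⟩
    have h1 : (δ g).coeff j = (g ⟨j, by omega⟩ : ℤ) - (g0 ⟨j, by omega⟩ : ℤ) := by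
      have h2 := s2_4_coeff d g ⟨j, by omega⟩
      have h3 := s2_4_coeff d g0 ⟨j, by omega⟩
      show (s2_4_P d g - s2_4_P d g0).coeff j = _
      rw [coeff_sub, ← h2, ← h3]
    have h4 : ∀ g' ∈ S0, g' ⟨j, by omega⟩ ≤ h ^ (ρ + κ + b * (d - j)) := by
      intro g' hg'
      have h5 := (Fintype.mem_piFinset.mp (Finset.mem_filter.mp hg').1) ⟨j, by omega⟩
      exact Nat.lt_succ_iff.mp (Finset.mem_range.mp h5)
    have h6 := h4 g hg
    have h7 := h4 g0 hg0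
    have h6' : ((g ⟨j, by omega⟩ : ℕ) : ℤ) ≤ (h : ℤ) ^ (ρ + κ + b * (d - j)) := by
      exact_mod_cast h6
    have h7' : ((g0 ⟨j, by omega⟩ : ℕ) : ℤ) ≤ (h : ℤ) ^ (ρ + κ + b * (d - j)) := by
      exact_mod_cast h7
    rw [h1, abs_le]
    have h8 : (0 : ℤ) ≤ ((g ⟨j, by omega⟩ : ℕ) : ℤ) := by positivity
    have h9 : (0 : ℤ) ≤ ((g0 ⟨j, by omega⟩ : ℕ) : ℤ) := by positivity
    constructor <;> linarith
  -- separation
  have hsep : ∀ g ∈ S0, ∀ g' ∈ S0, g ≠ g' →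
      1 < ‖s2_4_psi d ρ b h (s2_4_P d g - s2_4_P d g')‖ := by
    intro g hg g' hg' hne
    by_contra hcon
    refine hno (s2_4_P d g - s2_4_P d g') ?_ (s2_4_box hh0 (hdeg g g') (le_of_not_gt hcon))
      (hdvd g hg g' hg')
    intro h1
    apply hne
    funext j
    have h2 := s2_4_coeff d g j
    have h3 := s2_4_coeff d g' j
    rw [sub_eq_zero] at h1
    rw [h1, h3] at h2
    exact_mod_cast h2.symm
  let Ψ : (Fin (d + 1) → ℕ) → (Fin (d + 1) → ℝ) := fun g => s2_4_psi d ρ b h (δ g)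
  have hΨ : ∀ g g', Ψ g - Ψ g' = s2_4_psi d ρ b h (s2_4_P d g - s2_4_P d g') := by
    intro g g'
    show s2_4_psi d ρ b h (s2_4_P d g - s2_4_P d g0) -
      s2_4_psi d ρ b h (s2_4_P d g' - s2_4_P d g0) = _
    rw [← map_sub]
    congr 1
    ring
  have hinj : Set.InjOn Ψ S0 := by
    intro g hg g' hg' hgg
    by_contra hne
    have h1 := hsep g hg g' hg' hne
    rw [← hΨ, hgg, sub_self, norm_zero] at h1
    linarith
  set T := S0.image Ψ with hT
  have hTcard : T.card = S0.card := Finset.card_image_of_injOn hinj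
  set W := Submodule.span ℝ (T : Set (Fin (d + 1) → ℝ)) with hW
  have hnorm : ∀ z ∈ T, ‖z‖ ≤ (h : ℝ) ^ κ := by
    intro z hz
    obtain ⟨g, hg, rfl⟩ := Finset.mem_image.mp hz
    rw [pi_norm_le_iff_of_nonneg (by positivity)]
    intro j
    have h1 := (hbox g hg).2 (j : ℕ) (by omega)
    have h2 : Ψ g j = ((δ g).coeff (j : ℕ) : ℝ) / (h : ℝ) ^ (ρ + b * (d - (j : ℕ))) := rfl
    have hpos : (0 : ℝ) < (h : ℝ) ^ (ρ + b * (d - (j : ℕ))) := by positivity
    rw [h2, Real.norm_eq_abs, abs_div, abs_of_pos hpos, div_le_iff₀ hpos, ← pow_add]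
    have h3 : ρ + κ + b * (d - (j : ℕ)) = κ + (ρ + b * (d - (j : ℕ))) := by ring
    rw [h3] at h1
    exact_mod_cast h1
  have hpack := packing W T (fun z hz => Submodule.subset_span hz) ((h : ℝ) ^ κ) (by positivity)
    hnorm (by
      intro z hz z' hz' hne
      obtain ⟨g, hg, rfl⟩ := Finset.mem_image.mp hz
      obtain ⟨g', hg', rfl⟩ := Finset.mem_image.mp hz'
      rw [hΨ]
      exact (hsep g hg g' hg' (fun h => hne (by rw [h]))).le)
  have hrank : d + 1 ≤ Module.finrank ℝ W := by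
    by_contra hcon
    have h1 : Module.finrank ℝ W ≤ d := by omega
    have h2 : (2 * (h : ℝ) ^ κ + 1) ^ Module.finrank ℝ W ≤ (3 * (h : ℝ) ^ κ) ^ d := by
      have h3 : (1 : ℝ) ≤ (h : ℝ) ^ κ := one_le_pow₀ hh1'
      calc (2 * (h : ℝ) ^ κ + 1) ^ Module.finrank ℝ W ≤ (3 * (h : ℝ) ^ κ) ^ Module.finrank ℝ W :=
            pow_le_pow_left₀ (by positivity) (by linarith) _
        _ ≤ _ := pow_le_pow_right₀ (by linarith) h1
    have h3 : (3 * (h : ℝ) ^ κ) ^ d ≤ ((h ^ (κ * d + 1) : ℕ) : ℝ) := by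
      push_cast
      rw [mul_pow, ← pow_mul, pow_succ, mul_comm]
      refine mul_le_mul_of_nonneg_left ?_ (by positivity)
      exact_mod_cast hh3.le
    have h4 : (T.card : ℝ) ≤ ((h ^ (κ * d + 1) : ℕ) : ℝ) := hpack.trans (h2.trans h3)
    have h5 : T.card ≤ h ^ (κ * d + 1) := by exact_mod_cast h4
    omega
  obtain ⟨w, hwT, _, hwli⟩ := Submodule.exists_fun_fin_finrank_span_eq ℝ
    (T : Set (Fin (d + 1) → ℝ))
  let w' : Fin (d + 1) → (Fin (d + 1) → ℝ) := fun i => w (Fin.castLE hrank i)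
  have hw'li : LinearIndependent ℝ w' := hwli.comp _ (Fin.castLE_injective hrank)
  have hw'T : ∀ i, ∃ g ∈ S0, Ψ g = w' i := by
    intro i
    obtain ⟨g, hg, hgw⟩ := Finset.mem_image.mp (Finset.mem_coe.mp (hwT (Fin.castLE hrank i)))
    exact ⟨g, hg, hgw⟩
  choose G hG hGw using hw'T
  refine ⟨fun i => δ (G i), ?_, fun i => ⟨hbox _ (hG i), hdvd _ (hG i) _ hg0⟩⟩
  have h1 : LinearIndependent ℤ w' := by
    refine hw'li.restrict_scalars ?_
    intro a b hab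
    simpa using hab
  refine LinearIndependent.of_comp (s2_4_psi d ρ b h) ?_
  have h2 : (s2_4_psi d ρ b h) ∘ (fun i => δ (G i)) = w' := by
    funext i
    exact hGw i
  rw [h2]
  exact h1

end Pool.Agent.H92.SQ2
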