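import Pool.Agent.H92.SQ2.BadT
import Pool.Agent.H92.SQ2.Rank
import Pool.Agent.H92.SQ2.Prod
import Pool.Agent.H92.SQ2.ClassC
import Pool.Agent.H92.SQ.Primes
import Pool.Agent.H92.SQ.Union

/-!
# Project SQ2, row S2-11: the size of the family

Triples (m, l, x) with no small polynomial vanishing at x modulo m l carry a full lattice of small
doubly vanishing polynomials, so every residue class has its share of the family; double counting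
over the triples.
-/

set_option autoImplicit false

open Polynomial

namespace Pool.Agent.H92.SQ2

private theorem s2_11_mono {h b d r r' : ℕ} {g : ℤ[X]} (hh : 1 ≤ h) (hr : r ≤ r')
    (hg : InBox h b d r g) : InBox h b d r' g := by
  refine ⟨hg.1, fun j hj => (hg.2 j hj).trans ?_⟩
  exact pow_le_pow_right₀ (by exact_mod_cast hh) (by omega)

private theorem s2_11_rho (d b U : ℕ) (h : b * d * (d + 1) + 8 ≤ 2 * U) :
    ∃ r : ℕ, 2 * r * (d + 1) + b * d * (d + 1) + 8 ≤ 2 * U ∧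
      2 * U < 2 * r * (d + 1) + 2 * (d + 1) + b * d * (d + 1) + 8 := by
  set t := 2 * U - (b * d * (d + 1) + 8) with ht
  have h1 := Nat.div_add_mod t (2 * (d + 1))
  have h2 := Nat.mod_lt t (show 0 < 2 * (d + 1) by omega)
  refine ⟨t / (2 * (d + 1)), ?_, ?_⟩
  · have h3 : 2 * (t / (2 * (d + 1))) * (d + 1) = 2 * (d + 1) * (t / (2 * (d + 1))) := by ring
    omega
  · have h3 : 2 * (t / (2 * (d + 1))) * (d + 1) = 2 * (d + 1) * (t / (2 * (d + 1))) := by ring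
    omega

private theorem s2_11_mem {h j p : ℕ} (hp : p ∈ PR h j) :
    p.Prime ∧ h ^ j < p ∧ p ≤ 8 * h ^ j := by
  rw [PR, Finset.mem_filter, Finset.mem_range] at hp
  exact ⟨hp.2.1, hp.2.2, by omega⟩

/-- the ranges of the primes are disjoint -/
private theorem s2_11_ne {h u v m l : ℕ} (hh : 8 ≤ h) (huv : u ≠ v) (hm : m ∈ PR h u)
    (hl : l ∈ PR h v) : m ≠ l := by
  have h1 := s2_11_mem hm
  have h2 := s2_11_mem hl
  rintro rfl
  rcases Nat.lt_or_gt_of_ne huv with hlt | hlt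
  · have h3 : h ^ (u + 1) ≤ h ^ v := Nat.pow_le_pow_right (by omega) hlt
    have h4 : 8 * h ^ u ≤ h ^ (u + 1) := by
      rw [pow_succ, mul_comm]; exact Nat.mul_le_mul_left _ hh
    omega
  · have h3 : h ^ (v + 1) ≤ h ^ u := Nat.pow_le_pow_right (by omega) hlt
    have h4 : 8 * h ^ v ≤ h ^ (v + 1) := by
      rw [pow_succ, mul_comm]; exact Nat.mul_le_mul_left _ hh
    omega

/-- one degree: the lattice has full rank in the box -/
private theorem s2_11_rank (d b u v : ℕ) (hc : b * d * (d + 1) + 8 ≤ 2 * (u + v)) :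
    ∃ r : ℕ, 2 * r * (d + 1) + b * d * (d + 1) + 8 ≤ 2 * (u + v) ∧
    ∃ h0 : ℕ, ∀ h ≥ h0, ∀ m ∈ PR h u, ∀ l ∈ PR h v, ∀ x : ℤ,
    (∀ g : ℤ[X], g ≠ 0 → InBox h b d r g → ¬ ((m * l : ℕ) : ℤ) ∣ g.eval x) →
      ∃ w : Fin (d + 1) → ℤ[X], LinearIndependent ℤ w ∧
      ∀ i, InBox h b d (r + (d + 7)) (w i) ∧ ((m * l : ℕ) : ℤ) ∣ (w i).eval x := by
  obtain ⟨r, hr1, hr2⟩ := s2_11_rho d b (u + v) hc
  refine ⟨r, hr1, ?_⟩
  obtain ⟨h0, H⟩ := full_rank d r (d + 7) b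
  refine ⟨max h0 64, fun h hh m hm l hl x hg => ?_⟩
  have hh1 : h0 ≤ h := le_trans (le_max_left _ _) hh
  have hh2 : 64 ≤ h := le_trans (le_max_right _ _) hh
  have h1 := s2_11_mem hm
  have h2 := s2_11_mem hl
  refine H h hh1 (m * l) x (Nat.mul_pos h1.1.pos h2.1.pos) hg ?_
  have h3 : m * l ≤ h ^ (u + v + 1) := by
    calc m * l ≤ (8 * h ^ u) * (8 * h ^ v) := Nat.mul_le_mul h1.2.2 h2.2.2
      _ = 64 * h ^ (u + v) := by rw [pow_add]; ring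
      _ ≤ h * h ^ (u + v) := Nat.mul_le_mul_right _ hh2
      _ = h ^ (u + v + 1) := by rw [pow_succ]; ring
  calc (m * l) ^ 2 * h ^ (2 * ((d + 7) * d + 1))
      ≤ (h ^ (u + v + 1)) ^ 2 * h ^ (2 * ((d + 7) * d + 1)) :=
        Nat.mul_le_mul_right _ (Nat.pow_le_pow_left h3 2)
    _ = h ^ (2 * (u + v + 1) + 2 * ((d + 7) * d + 1)) := by rw [← pow_mul, ← pow_add]; ring_nf
    _ ≤ _ := Nat.pow_le_pow_right (by omega) (by nlinarith)

/-- good triples have a full lattice of doubly vanishing polynomials -/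
private theorem s2_11_good (n b u v d1 d2 : ℕ) (hn : 4 ≤ n) (hs : d1 + d2 = n - 2)
    (h12 : d1 ≤ d2) (hc1 : b * d2 * (d2 + 1) + 8 ≤ 2 * (u + v))
    (hc2 : 2 * n * (u + v) + 2 * (n + 14) * ((d1 + 1) * (d2 + 1)) ≤
      b * (n + 2) * ((d1 + 1) * (d2 + 1))) :
    ∃ r1 r2 : ℕ,
    2 * r1 * (d1 + 1) + b * d1 * (d1 + 1) + 8 ≤ 2 * (u + v) ∧
    2 * r2 * (d2 + 1) + b * d2 * (d2 + 1) + 8 ≤ 2 * (u + v) ∧
    ∃ h0 : ℕ, ∀ h ≥ h0, ∀ m ∈ PR h u, ∀ l ∈ PR h v, ∀ x : ℤ,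
    (¬ ∃ g : ℤ[X], g ≠ 0 ∧ InBox h b d1 r1 g ∧ ((m * l : ℕ) : ℤ) ∣ g.eval x) →
    (¬ ∃ g : ℤ[X], g ≠ 0 ∧ InBox h b d2 r2 g ∧ ((m * l : ℕ) : ℤ) ∣ g.eval x) →
    ∃ y : Fin (n - 1) → ℤ[X], LinearIndependent ℤ y ∧
      ∀ i, InBox h b (n - 2) (2 * b - 1) (y i) ∧ Dbl (m * l) x (y i) := by
  have hc1' : b * d1 * (d1 + 1) + 8 ≤ 2 * (u + v) := by
    refine le_trans ?_ hc1
    have : b * d1 * (d1 + 1) ≤ b * d2 * (d2 + 1) := by gcongr
    omega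
  obtain ⟨r1, hr1, h01, H1⟩ := s2_11_rank d1 b u v hc1'
  obtain ⟨r2, hr2, h02, H2⟩ := s2_11_rank d2 b u v hc1
  obtain ⟨h03, H3⟩ := products n b d1 d2 (r1 + (d1 + 7)) (r2 + (d2 + 7)) hn hs
  refine ⟨r1, r2, hr1, hr2, max (max h01 h02) (max h03 1), fun h hh m hm l hl x hg1 hg2 => ?_⟩
  have a1 : h01 ≤ h := le_trans (le_trans (le_max_left _ _) (le_max_left _ _)) hh
  have a2 : h02 ≤ h := le_trans (le_trans (le_max_right _ _) (le_max_left _ _)) hh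
  have a3 : h03 ≤ h := le_trans (le_trans (le_max_left _ _) (le_max_right _ _)) hh
  have a4 : 1 ≤ h := le_trans (le_trans (le_max_right _ _) (le_max_right _ _)) hh
  obtain ⟨w1, hw1, hw1'⟩ := H1 h a1 m hm l hl x (fun g hg0 hgb hgd => hg1 ⟨g, hg0, hgb, hgd⟩)
  obtain ⟨w2, hw2, hw2'⟩ := H2 h a2 m hm l hl x (fun g hg0 hgb hgd => hg2 ⟨g, hg0, hgb, hgd⟩)
  obtain ⟨y, hy, hy'⟩ := H3 h a3 (m * l) x w1 w2 hw1 hw2 hw1' hw2'
  refine ⟨y, hy, fun i => ⟨s2_11_mono a4 ?_ (hy' i).1, (hy' i).2⟩⟩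
  -- the scale
  have hn' : n = d1 + d2 + 2 := by omega
  have hP : 0 < (d1 + 1) * (d2 + 1) := by positivity
  have e1 : (2 * r1 * (d1 + 1) + b * d1 * (d1 + 1) + 8) * (d2 + 1) ≤ 2 * (u + v) * (d2 + 1) :=
    Nat.mul_le_mul_right _ hr1
  have e2 : (2 * r2 * (d2 + 1) + b * d2 * (d2 + 1) + 8) * (d1 + 1) ≤ 2 * (u + v) * (d1 + 1) :=
    Nat.mul_le_mul_right _ hr2
  have key : r1 + r2 + n + 14 + 1 ≤ 2 * b := by
    by_contra hcon
    push Not at hcon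
    have hcon' : 2 * b ≤ r1 + r2 + n + 14 := by omega
    have e3 : 2 * b * ((d1 + 1) * (d2 + 1)) ≤ (r1 + r2 + n + 14) * ((d1 + 1) * (d2 + 1)) :=
      Nat.mul_le_mul_right _ hcon'
    subst hn'
    nlinarith [e1, e2, e3, hc2, hP]
  omega

/-- the members of the family planted at a good triple -/
private theorem s2_11_sets (n N0 b u v : ℕ) (s : ℤ[X]) (hn : 4 ≤ n) (hN0 : 0 < N0) (hs : s.Monic)
    (hsn : s.natDegree = n) (hb : 1 ≤ b) (hu : 1 ≤ u) (hv : 1 ≤ v) (huv : u ≠ v) :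
    ∃ c : ℝ, 0 < c ∧ ∃ h0 : ℕ, ∀ h ≥ h0, ∀ m ∈ PR h u, ∀ l ∈ PR h v, ∀ x : ℤ,
    ∀ y : Fin (n - 1) → ℤ[X], LinearIndependent ℤ y →
      (∀ i, InBox h b (n - 2) (2 * b - 1) (y i) ∧ Dbl (m * l) x (y i)) →
      ∃ T : Finset ℤ[X], (∀ f ∈ T, Fam n N0 s b h f ∧ Pl f m l x) ∧
        c * (h : ℝ) ^ (b * (n * (n + 1) / 2 - 1)) ≤
          2 * 8 ^ 5 * (h : ℝ) ^ (3 * u + 2 * v) * T.card := by
  classical
  obtain ⟨c, hc, h0, H⟩ := class_count n N0 b s hn hN0 hs hsn hb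
  refine ⟨c, hc, max h0 (max 8 N0), fun h hh m hm l hl x y hy hy' => ?_⟩
  have a1 : h0 ≤ h := le_trans (le_max_left _ _) hh
  have a2 : 8 ≤ h := le_trans (le_trans (le_max_left _ _) (le_max_right _ _)) hh
  have a3 : N0 ≤ h := le_trans (le_trans (le_max_right _ _) (le_max_right _ _)) hh
  have hmm := s2_11_mem hm
  have hll := s2_11_mem hl
  have hne : m ≠ l := s2_11_ne a2 huv hm hl
  have hmh : h < m := lt_of_le_of_lt (Nat.le_self_pow (by omega) h) hmm.2.1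
  have hlh : h < l := lt_of_le_of_lt (Nat.le_self_pow (by omega) h) hll.2.1
  have hmP : Prime (m : ℤ) := Nat.prime_iff_prime_int.mp hmm.1
  have hlP : Prime (l : ℤ) := Nat.prime_iff_prime_int.mp hll.1
  have hm0 : (m : ℤ) ≠ 0 := hmP.ne_zero
  have hl0 : (l : ℤ) ≠ 0 := hlP.ne_zero
  have hlm : ¬ (l : ℤ) ∣ m := by
    intro hd
    have := (Nat.prime_dvd_prime_iff_eq hll.1 hmm.1).mp (by exact_mod_cast hd)
    exact hne this.symm
  have hcopN : ∀ p : ℕ, p.Prime → h < p → Nat.Coprime p N0 := fun p hp hlt =>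
    (Nat.Prime.coprime_iff_not_dvd hp).mpr fun hd => by
      have := Nat.le_of_dvd hN0 hd
      omega
  have hcop : Nat.Coprime (m * l) N0 :=
    Nat.Coprime.mul_left (hcopN m hmm.1 hmh) (hcopN l hll.1 hlh)
  have hq0 : 0 < m * l := Nat.mul_pos hmm.1.pos hll.1.pos
  have HT : ∀ j : ℕ, ∃ T : Finset ℤ[X], (∀ f ∈ T, Fam n N0 s b h f ∧
      ((m * l : ℕ) : ℤ) ^ 2 ∣ f.eval x - (m : ℤ) ^ 2 * l * j ∧
      ((m * l : ℕ) : ℤ) ∣ f.derivative.eval x - 0) ∧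
      c * (h : ℝ) ^ (b * (n * (n + 1) / 2 - 1)) ≤ ((m * l : ℕ) : ℝ) ^ 3 * T.card :=
    fun j => H h a1 (m * l) x ((m : ℤ) ^ 2 * l * j) 0 hq0 hcop y hy hy'
  choose T hT1 hT2 using HT
  refine ⟨(Finset.Ico 1 l).biUnion T, ?_, ?_⟩
  · intro f hf
    rw [Finset.mem_biUnion] at hf
    obtain ⟨j, hj, hf⟩ := hf
    rw [Finset.mem_Ico] at hj
    obtain ⟨hF, hA, hB⟩ := hT1 j f hf
    rw [sub_zero] at hB
    have hml : ((m * l : ℕ) : ℤ) = (m : ℤ) * l := by push_cast; ring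
    rw [hml] at hA hB
    have hm2 : (m : ℤ) ^ 2 ∣ ((m : ℤ) * l) ^ 2 := ⟨(l : ℤ) ^ 2, by ring⟩
    have hl2 : (l : ℤ) ^ 2 ∣ ((m : ℤ) * l) ^ 2 := ⟨(m : ℤ) ^ 2, by ring⟩
    refine ⟨hF, ⟨?_, (Dvd.intro _ rfl).trans hB, ?_, ?_, (Dvd.intro_left _ rfl).trans hB⟩⟩
    · have h1 := hm2.trans hA
      have h2 : (m : ℤ) ^ 2 ∣ (m : ℤ) ^ 2 * l * j := ⟨(l : ℤ) * j, by ring⟩
      have := dvd_add h1 h2
      rwa [sub_add_cancel] at this
    · have h1 := (dvd_pow_self (l : ℤ) (two_ne_zero)).trans (hl2.trans hA)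
      have h2 : (l : ℤ) ∣ (m : ℤ) ^ 2 * l * j := ⟨(m : ℤ) ^ 2 * j, by ring⟩
      have := dvd_add h1 h2
      rwa [sub_add_cancel] at this
    · intro hcon
      have h1 := hl2.trans hA
      have h2 := dvd_sub hcon h1
      have h3 : f.eval x - (f.eval x - (m : ℤ) ^ 2 * l * j) = (l : ℤ) * ((m : ℤ) ^ 2 * j) := by
        ring
      rw [h3, pow_two] at h2
      have h4 := (mul_dvd_mul_iff_left hl0).mp h2
      rcases hlP.dvd_or_dvd h4 with h5 | h5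
      · exact hlm (hlP.dvd_of_dvd_pow h5)
      · have h6 : l ∣ j := by exact_mod_cast h5
        have := Nat.le_of_dvd (by omega) h6
        omega
  · have hdis : ((Finset.Ico 1 l : Finset ℕ) : Set ℕ).PairwiseDisjoint T := by
      intro j hj k hk hjk
      rw [Function.onFun, Finset.disjoint_left]
      intro f hfj hfk
      rw [Finset.mem_coe, Finset.mem_Ico] at hj hk
      obtain ⟨-, hA, -⟩ := hT1 j f hfj
      obtain ⟨-, hA', -⟩ := hT1 k f hfk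
      have h1 := dvd_sub hA hA'
      have hml : ((m * l : ℕ) : ℤ) = (m : ℤ) * l := by push_cast; ring
      have hl2 : (l : ℤ) ^ 2 ∣ ((m * l : ℕ) : ℤ) ^ 2 := ⟨(m : ℤ) ^ 2, by rw [hml]; ring⟩
      have h2 := hl2.trans h1
      have h3 : f.eval x - (m : ℤ) ^ 2 * l * j - (f.eval x - (m : ℤ) ^ 2 * l * k) =
        (l : ℤ) * ((m : ℤ) ^ 2 * (k - j)) := by ring
      rw [h3, pow_two] at h2
      have h4 := (mul_dvd_mul_iff_left hl0).mp h2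
      rcases hlP.dvd_or_dvd h4 with h5 | h5
      · exact hlm (hlP.dvd_of_dvd_pow h5)
      · have h6 := Int.eq_zero_of_abs_lt_dvd h5 (by rw [abs_lt]; constructor <;> omega)
        exact hjk (by omega)
    rw [Finset.card_biUnion hdis]
    set E : ℝ := c * (h : ℝ) ^ (b * (n * (n + 1) / 2 - 1)) with hE
    have hE0 : 0 ≤ E := by positivity
    have h1 : ((l : ℝ) - 1) * E ≤
        ((m * l : ℕ) : ℝ) ^ 3 * ((∑ j ∈ Finset.Ico 1 l, (T j).card : ℕ) : ℝ) := by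
      have h2 : ∑ j ∈ Finset.Ico 1 l, E ≤
          ∑ j ∈ Finset.Ico 1 l, ((m * l : ℕ) : ℝ) ^ 3 * ((T j).card : ℝ) :=
        Finset.sum_le_sum fun j _ => hT2 j
      rw [Finset.sum_const, Nat.card_Ico, nsmul_eq_mul, ← Finset.mul_sum,
        Nat.cast_sub (by omega), Nat.cast_one] at h2
      push_cast at h2 ⊢
      exact h2
    set S : ℝ := ((∑ j ∈ Finset.Ico 1 l, (T j).card : ℕ) : ℝ) with hS
    have hS0 : 0 ≤ S := Nat.cast_nonneg _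
    have hl2' : (2 : ℝ) ≤ l := by exact_mod_cast hll.1.two_le
    have hmR : (m : ℝ) ≤ 8 * (h : ℝ) ^ u := by exact_mod_cast hmm.2.2
    have hlR : (l : ℝ) ≤ 8 * (h : ℝ) ^ v := by exact_mod_cast hll.2.2
    have hm0' : (0 : ℝ) ≤ m := Nat.cast_nonneg _
    have hl0' : (0 : ℝ) < l := by linarith
    have h3 : (l : ℝ) * E ≤ (l : ℝ) * (2 * (m : ℝ) ^ 3 * (l : ℝ) ^ 2 * S) := by
      have h4 : (l : ℝ) * E ≤ 2 * (((l : ℝ) - 1) * E) := by nlinarith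
      refine h4.trans ?_
      have h5 : (l : ℝ) * (2 * (m : ℝ) ^ 3 * (l : ℝ) ^ 2 * S) =
          2 * (((m * l : ℕ) : ℝ) ^ 3 * S) := by push_cast; ring
      rw [h5]
      linarith
    have h6 : E ≤ 2 * (m : ℝ) ^ 3 * (l : ℝ) ^ 2 * S := le_of_mul_le_mul_left h3 hl0'
    refine h6.trans ?_
    have h7 : (m : ℝ) ^ 3 ≤ (8 * (h : ℝ) ^ u) ^ 3 := pow_le_pow_left₀ hm0' hmR 3
    have h8 : (l : ℝ) ^ 2 ≤ (8 * (h : ℝ) ^ v) ^ 2 := pow_le_pow_left₀ hl0'.le hlR 2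
    calc 2 * (m : ℝ) ^ 3 * (l : ℝ) ^ 2 * S
        ≤ 2 * (8 * (h : ℝ) ^ u) ^ 3 * (8 * (h : ℝ) ^ v) ^ 2 * S := by gcongr
      _ = 2 * 8 ^ 5 * (h : ℝ) ^ (3 * u + 2 * v) * S := by
          rw [pow_add, pow_mul', pow_mul']; ring

/-- double counting -/
private theorem s2_11_double {α β : Type} [DecidableEq α] (G : Finset β) (T : β → Finset α)
    (k K : ℝ) (hk : ∀ i ∈ G, k ≤ ((T i).card : ℝ))
    (hK : ∀ f ∈ G.biUnion T, ((G.filter fun i => f ∈ T i).card : ℝ) ≤ K) :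
    k * G.card ≤ K * (G.biUnion T).card := by
  have h1 : ∑ i ∈ G, (T i).card = ∑ f ∈ G.biUnion T, (G.filter fun i => f ∈ T i).card := by
    calc ∑ i ∈ G, (T i).card
        = ∑ i ∈ G, ∑ f ∈ G.biUnion T, (if f ∈ T i then 1 else 0) := by
          refine Finset.sum_congr rfl fun i hi => ?_
          rw [Finset.sum_boole, Nat.cast_id]
          congr 1
          ext f
          rw [Finset.mem_filter]
          exact ⟨fun hf => ⟨Finset.mem_biUnion.mpr ⟨i, hi, hf⟩, hf⟩, fun hf => hf.2⟩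
      _ = ∑ f ∈ G.biUnion T, ∑ i ∈ G, (if f ∈ T i then 1 else 0) := Finset.sum_comm
      _ = _ := by
          refine Finset.sum_congr rfl fun f _ => ?_
          rw [Finset.sum_boole, Nat.cast_id]
  have h2 : k * G.card ≤ ∑ i ∈ G, ((T i).card : ℝ) := by
    rw [mul_comm, ← nsmul_eq_mul, ← Finset.sum_const]
    exact Finset.sum_le_sum hk
  have h3 : (∑ i ∈ G, ((T i).card : ℝ)) =
      ∑ f ∈ G.biUnion T, ((G.filter fun i => f ∈ T i).card : ℝ) := by exact_mod_cast h1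
  rw [h3] at h2
  refine h2.trans ((Finset.sum_le_sum hK).trans (le_of_eq ?_))
  rw [Finset.sum_const, nsmul_eq_mul, mul_comm]

/-- a monic polynomial of degree `n` has at most `n ^ 2` roots modulo `m l` -/
private theorem s2_11_roots {f : ℤ[X]} {n m l : ℕ} (hdeg : f.natDegree = n) (hf : f.Monic)
    (hm : m.Prime) (hl : l.Prime) (hne : m ≠ l) (S : Finset ℕ)
    (hS : ∀ x ∈ S, x < m * l ∧ (m : ℤ) ∣ f.eval (x : ℤ) ∧ (l : ℤ) ∣ f.eval (x : ℤ)) :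
    S.card ≤ n ^ 2 := by
  classical
  have hlc : ∀ p : ℕ, p.Prime → ¬ (p : ℤ) ∣ f.leadingCoeff := by
    intro p hp hd
    rw [hf.leadingCoeff] at hd
    have : p ∣ 1 := by exact_mod_cast hd
    exact hp.one_lt.ne' (Nat.dvd_one.mp this)
  have c1 := Pool.Agent.H92.SQ.few_residues hm hdeg (hlc m hm)
  have c2 := Pool.Agent.H92.SQ.few_residues hl hdeg (hlc l hl)
  have hmod : ∀ p x : ℕ, (p : ℤ) ∣ f.eval (x : ℤ) → (p : ℤ) ∣ f.eval ((x % p : ℕ) : ℤ) := by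
    intro p x hx
    have h1 : ((x : ℤ) - ((x % p : ℕ) : ℤ)) ∣ f.eval (x : ℤ) - f.eval ((x % p : ℕ) : ℤ) :=
      sub_dvd_eval_sub _ _ f
    have h2 : (p : ℤ) ∣ (x : ℤ) - ((x % p : ℕ) : ℤ) := by
      have := Nat.div_add_mod x p
      refine ⟨((x / p : ℕ) : ℤ), ?_⟩
      have h3 : (x : ℤ) = (p : ℤ) * ((x / p : ℕ) : ℤ) + ((x % p : ℕ) : ℤ) := by exact_mod_cast this.symm
      linarith
    have h4 := dvd_sub hx (h2.trans h1)
    rwa [sub_sub_cancel] at h4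
  have hinj : S.card ≤
      (((Finset.range m).filter fun r : ℕ => (m : ℤ) ∣ f.eval (r : ℤ)) ×ˢ
        ((Finset.range l).filter fun r : ℕ => (l : ℤ) ∣ f.eval (r : ℤ))).card := by
    refine Finset.card_le_card_of_injOn (fun x : ℕ => (x % m, x % l)) ?_ ?_
    · intro x hx
      rw [Finset.mem_coe] at hx
      obtain ⟨-, h1, h2⟩ := hS x hx
      rw [Finset.mem_coe, Finset.mem_product, Finset.mem_filter, Finset.mem_filter,
        Finset.mem_range, Finset.mem_range]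
      exact ⟨⟨Nat.mod_lt _ hm.pos, hmod m x h1⟩, ⟨Nat.mod_lt _ hl.pos, hmod l x h2⟩⟩
    · intro x hx y hy hxy
      rw [Finset.mem_coe] at hx hy
      rw [Prod.mk.injEq] at hxy
      have hc : Nat.Coprime m l := (Nat.coprime_primes hm hl).mpr hne
      have h1 : x ≡ y [MOD m * l] :=
        (Nat.modEq_and_modEq_iff_modEq_mul hc).mp ⟨hxy.1, hxy.2⟩
      have h2 := Nat.mod_eq_of_lt (hS x hx).1
      have h3 := Nat.mod_eq_of_lt (hS y hy).1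
      unfold Nat.ModEq at h1
      omega
  refine hinj.trans ?_
  rw [Finset.card_product, pow_two]
  exact Nat.mul_le_mul c1 c2

open scoped Classical in
/-- each polynomial has few planted triples -/
private theorem s2_11_mult {n h u v K1 K2 : ℕ} (hh : 8 ≤ h) (huv : u ≠ v) {f : ℤ[X]}
    (hdeg : f.natDegree = n) (hf : f.Monic)
    (h1 : ((PR h u).filter fun m : ℕ => ∃ x : ℤ, Dbl m x f).card ≤ K1)
    (h2 : ((PR h v).filter fun l : ℕ => ∃ x : ℤ, (l : ℤ) ∣ f.eval x ∧ ¬ (l : ℤ) ^ 2 ∣ f.eval x ∧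
        (l : ℤ) ∣ f.derivative.eval x).card ≤ K2)
    (G : Finset (Σ _ : ℕ × ℕ, ℕ)) (hG : ∀ i ∈ G, i.1.1 ∈ PR h u ∧ i.1.2 ∈ PR h v ∧
      i.2 < i.1.1 * i.1.2 ∧ Pl f i.1.1 i.1.2 (i.2 : ℤ)) :
    G.card ≤ K1 * K2 * n ^ 2 := by
  set M := (PR h u).filter fun m : ℕ => ∃ x : ℤ, Dbl m x f with hM
  set L := (PR h v).filter fun l : ℕ => ∃ x : ℤ, (l : ℤ) ∣ f.eval x ∧ ¬ (l : ℤ) ^ 2 ∣ f.eval x ∧
        (l : ℤ) ∣ f.derivative.eval x with hL
  set R : ℕ × ℕ → Finset ℕ := fun p => (Finset.range (p.1 * p.2)).filter fun x : ℕ =>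
    (p.1 : ℤ) ∣ f.eval (x : ℤ) ∧ (p.2 : ℤ) ∣ f.eval (x : ℤ) with hR
  have hsub : G ⊆ (M ×ˢ L).sigma R := by
    intro i hi
    obtain ⟨a, b, c, d⟩ := hG i hi
    rw [Finset.mem_sigma, Finset.mem_product, hM, hL, Finset.mem_filter, Finset.mem_filter, hR,
      Finset.mem_filter, Finset.mem_range]
    exact ⟨⟨⟨a, _, d.m2, d.m1⟩, ⟨b, _, d.l1, d.l2, d.l3⟩⟩,
      c, (dvd_pow_self (i.1.1 : ℤ) two_ne_zero).trans d.m2, d.l1⟩
  refine (Finset.card_le_card hsub).trans ?_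
  rw [Finset.card_sigma]
  have hb : ∀ p ∈ M ×ˢ L, (R p).card ≤ n ^ 2 := by
    intro p hp
    rw [Finset.mem_product, hM, hL, Finset.mem_filter, Finset.mem_filter] at hp
    obtain ⟨⟨p1, -⟩, ⟨p2, -⟩⟩ := hp
    refine s2_11_roots hdeg hf (s2_11_mem p1).1 (s2_11_mem p2).1 (s2_11_ne hh huv p1 p2) (R p) ?_
    intro x hx
    rw [hR, Finset.mem_filter, Finset.mem_range] at hx
    exact hx
  refine (Finset.sum_le_card_nsmul _ _ _ hb).trans ?_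
  rw [Finset.card_product, smul_eq_mul]
  exact Nat.mul_le_mul_right _ (Nat.mul_le_mul h1 h2)

open scoped Classical in
/-- at least half of the triples are good -/
private theorem s2_11_many (b u v d1 d2 r1 r2 : ℕ) (hu : 1 ≤ u) (hv : 1 ≤ v) (huv : u ≠ v)
    (hr1 : 2 * r1 * (d1 + 1) + b * d1 * (d1 + 1) + 8 ≤ 2 * (u + v))
    (hr2 : 2 * r2 * (d2 + 1) + b * d2 * (d2 + 1) + 8 ≤ 2 * (u + v)) :
    ∃ h0 : ℕ, ∀ h ≥ h0, h ^ (2 * (u + v) - 2) ≤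
      2 * (((PR h u) ×ˢ (PR h v)).sigma fun p => (Finset.range (p.1 * p.2)).filter fun x : ℕ =>
        (¬ ∃ g : ℤ[X], g ≠ 0 ∧ InBox h b d1 r1 g ∧ ((p.1 * p.2 : ℕ) : ℤ) ∣ g.eval (x : ℤ)) ∧
        (¬ ∃ g : ℤ[X], g ≠ 0 ∧ InBox h b d2 r2 g ∧
          ((p.1 * p.2 : ℕ) : ℤ) ∣ g.eval (x : ℤ))).card := by
  obtain ⟨h01, H1⟩ := bad_triples d1 r1 b u v hu hv huv hr1
  obtain ⟨h02, H2⟩ := bad_triples d2 r2 b u v hu hv huv hr2
  obtain ⟨h03, H3⟩ := Pool.Agent.H92.SQ.many_primes u hu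
  obtain ⟨h04, H4⟩ := Pool.Agent.H92.SQ.many_primes v hv
  refine ⟨max (max h01 h02) (max (max h03 h04) 4), fun h hh => ?_⟩
  have a1 : h01 ≤ h := le_trans (le_trans (le_max_left _ _) (le_max_left _ _)) hh
  have a2 : h02 ≤ h := le_trans (le_trans (le_max_right _ _) (le_max_left _ _)) hh
  have a3 : h03 ≤ h :=
    le_trans (le_trans (le_trans (le_max_left _ _) (le_max_left _ _)) (le_max_right _ _)) hh
  have a4 : h04 ≤ h :=
    le_trans (le_trans (le_trans (le_max_right _ _) (le_max_left _ _)) (le_max_right _ _)) hh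
  have a5 : 4 ≤ h := le_trans (le_trans (le_max_right _ _) (le_max_right _ _)) hh
  have b1 := H1 h a1
  have b2 := H2 h a2
  have b3 : h ^ (u - 1) ≤ (PR h u).card := H3 h a3
  have b4 : h ^ (v - 1) ≤ (PR h v).card := H4 h a4
  rw [Finset.card_sigma, Finset.sum_product]
  dsimp only
  set B1 : ℕ → ℕ → Finset ℕ := fun m l => (Finset.range (m * l)).filter fun x : ℕ =>
    ∃ g : ℤ[X], g ≠ 0 ∧ InBox h b d1 r1 g ∧ ((m * l : ℕ) : ℤ) ∣ g.eval (x : ℤ) with hB1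
  set B2 : ℕ → ℕ → Finset ℕ := fun m l => (Finset.range (m * l)).filter fun x : ℕ =>
    ∃ g : ℤ[X], g ≠ 0 ∧ InBox h b d2 r2 g ∧ ((m * l : ℕ) : ℤ) ∣ g.eval (x : ℤ) with hB2
  set G : ℕ → ℕ → Finset ℕ := fun m l => (Finset.range (m * l)).filter fun x : ℕ =>
    (¬ ∃ g : ℤ[X], g ≠ 0 ∧ InBox h b d1 r1 g ∧ ((m * l : ℕ) : ℤ) ∣ g.eval (x : ℤ)) ∧
    (¬ ∃ g : ℤ[X], g ≠ 0 ∧ InBox h b d2 r2 g ∧ ((m * l : ℕ) : ℤ) ∣ g.eval (x : ℤ)) with hG
  have hone : ∀ m ∈ PR h u, ∀ l ∈ PR h v,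
      h ^ (u + v) ≤ (G m l).card + ((B1 m l).card + (B2 m l).card) := by
    intro m hm l hl
    have hmm := s2_11_mem hm
    have hll := s2_11_mem hl
    have hsub : Finset.range (m * l) ⊆ G m l ∪ (B1 m l ∪ B2 m l) := by
      intro x hx
      rw [Finset.mem_union, Finset.mem_union, hG, hB1, hB2]
      dsimp only
      rw [Finset.mem_filter, Finset.mem_filter, Finset.mem_filter]
      by_cases p1 : ∃ g : ℤ[X], g ≠ 0 ∧ InBox h b d1 r1 g ∧ ((m * l : ℕ) : ℤ) ∣ g.eval (x : ℤ)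
      · exact Or.inr (Or.inl ⟨hx, p1⟩)
      · by_cases p2 : ∃ g : ℤ[X], g ≠ 0 ∧ InBox h b d2 r2 g ∧
          ((m * l : ℕ) : ℤ) ∣ g.eval (x : ℤ)
        · exact Or.inr (Or.inr ⟨hx, p2⟩)
        · exact Or.inl ⟨hx, p1, p2⟩
    have h1 := Finset.card_le_card hsub
    rw [Finset.card_range] at h1
    have h2 := Finset.card_union_le (G m l) (B1 m l ∪ B2 m l)
    have h3 := Finset.card_union_le (B1 m l) (B2 m l)
    have h4 : h ^ (u + v) ≤ m * l := by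
      rw [pow_add]; exact Nat.mul_le_mul hmm.2.1.le hll.2.1.le
    omega
  have hsum : (PR h u).card * ((PR h v).card * h ^ (u + v)) ≤
      ∑ m ∈ PR h u, ∑ l ∈ PR h v, ((G m l).card + ((B1 m l).card + (B2 m l).card)) := by
    calc (PR h u).card * ((PR h v).card * h ^ (u + v))
        = ∑ m ∈ PR h u, ∑ l ∈ PR h v, h ^ (u + v) := by
          rw [Finset.sum_const, Finset.sum_const, smul_eq_mul, smul_eq_mul]
      _ ≤ _ := Finset.sum_le_sum fun m hm => Finset.sum_le_sum fun l hl => hone m hm l hl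
  simp only [Finset.sum_add_distrib] at hsum
  have e1 : h ^ (2 * (u + v) - 2) ≤ (PR h u).card * ((PR h v).card * h ^ (u + v)) := by
    calc h ^ (2 * (u + v) - 2) = h ^ (u - 1) * (h ^ (v - 1) * h ^ (u + v)) := by
          rw [← pow_add, ← pow_add]; congr 1; omega
      _ ≤ _ := Nat.mul_le_mul b3 (Nat.mul_le_mul_right _ b4)
  have e2 : 4 * h ^ (2 * (u + v) - 3) ≤ h ^ (2 * (u + v) - 2) := by
    have : 2 * (u + v) - 2 = (2 * (u + v) - 3) + 1 := by omega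
    rw [this, pow_succ, mul_comm 4]
    exact Nat.mul_le_mul_left _ a5
  have f1 : ∑ m ∈ PR h u, ∑ l ∈ PR h v, (B1 m l).card ≤ h ^ (2 * (u + v) - 3) := b1
  have f2 : ∑ m ∈ PR h u, ∑ l ∈ PR h v, (B2 m l).card ≤ h ^ (2 * (u + v) - 3) := b2
  have f3 : h ^ (2 * (u + v) - 2) ≤ 2 * ∑ m ∈ PR h u, ∑ l ∈ PR h v, (G m l).card := by omega
  exact f3

open scoped Classical in
theorem fam_count (n N0 b u v K1 K2 : ℕ) (s : ℤ[X]) (hn : 4 ≤ n) (hN0 : 0 < N0) (hs : s.Monic)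
    (hsn : s.natDegree = n) (hb : 1 ≤ b) (hu : 1 ≤ u) (hv : 1 ≤ v) (huv : u ≠ v)
    (hc1 : b * (n - 2 - (n - 2) / 2) * (n - 2 - (n - 2) / 2 + 1) + 8 ≤ 2 * (u + v))
    (hc2 : 2 * n * (u + v) + 2 * (n + 14) * (((n - 2) / 2 + 1) * (n - 2 - (n - 2) / 2 + 1)) ≤
      b * (n + 2) * (((n - 2) / 2 + 1) * (n - 2 - (n - 2) / 2 + 1)))
    (hfew : ∃ h0 : ℕ, ∀ h ≥ h0, ∀ f, Fam n N0 s b h f →
      ((PR h u).filter fun m : ℕ => ∃ x : ℤ, Dbl m x f).card ≤ K1 ∧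
      ((PR h v).filter fun l : ℕ => ∃ x : ℤ, (l : ℤ) ∣ f.eval x ∧ ¬ (l : ℤ) ^ 2 ∣ f.eval x ∧
        (l : ℤ) ∣ f.derivative.eval x).card ≤ K2) :
    ∃ c : ℝ, 0 < c ∧ ∃ h0 : ℕ, ∀ h ≥ h0, ∃ T : Finset ℤ[X],
      (∀ f ∈ T, Fam n N0 s b h f ∧ ∃ m ∈ PR h u, ∃ l ∈ PR h v, ∃ x : ℤ, Pl f m l x) ∧
      c * (h : ℝ) ^ (b * (n * (n + 1) / 2 - 1) - u - 3) ≤ T.card := by
  obtain ⟨r1, r2, hr1, hr2, h01, H1⟩ := s2_11_good n b u v ((n - 2) / 2)
    (n - 2 - (n - 2) / 2) hn (by omega) (by omega) hc1 hc2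
  obtain ⟨c0, hc0, h02, H2⟩ := s2_11_sets n N0 b u v s hn hN0 hs hsn hb hu hv huv
  obtain ⟨h03, H3⟩ := s2_11_many b u v ((n - 2) / 2) (n - 2 - (n - 2) / 2) r1 r2 hu hv huv hr1 hr2
  obtain ⟨h04, H4⟩ := hfew
  set W : ℕ := b * (n * (n + 1) / 2 - 1) with hW
  set K : ℝ := 4 * 8 ^ 5 * ((K1 * K2 * n ^ 2 : ℕ) + 1) with hK
  have hKn : (0 : ℝ) ≤ ((K1 * K2 * n ^ 2 : ℕ) : ℝ) := Nat.cast_nonneg _
  have hK0 : 0 < K := by rw [hK]; positivity
  refine ⟨min 1 (c0 / K), lt_min one_pos (div_pos hc0 hK0),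
    max (max h01 h02) (max (max h03 h04) 8), fun h hh => ?_⟩
  have a1 : h01 ≤ h := le_trans (le_trans (le_max_left _ _) (le_max_left _ _)) hh
  have a2 : h02 ≤ h := le_trans (le_trans (le_max_right _ _) (le_max_left _ _)) hh
  have a3 : h03 ≤ h :=
    le_trans (le_trans (le_trans (le_max_left _ _) (le_max_left _ _)) (le_max_right _ _)) hh
  have a4 : h04 ≤ h :=
    le_trans (le_trans (le_trans (le_max_right _ _) (le_max_left _ _)) (le_max_right _ _)) hh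
  have a5 : 8 ≤ h := le_trans (le_trans (le_max_right _ _) (le_max_right _ _)) hh
  set G : Finset (Σ _ : ℕ × ℕ, ℕ) :=
    ((PR h u) ×ˢ (PR h v)).sigma fun p => (Finset.range (p.1 * p.2)).filter fun x : ℕ =>
      (¬ ∃ g : ℤ[X], g ≠ 0 ∧ InBox h b ((n - 2) / 2) r1 g ∧
        ((p.1 * p.2 : ℕ) : ℤ) ∣ g.eval (x : ℤ)) ∧
      (¬ ∃ g : ℤ[X], g ≠ 0 ∧ InBox h b (n - 2 - (n - 2) / 2) r2 g ∧
        ((p.1 * p.2 : ℕ) : ℤ) ∣ g.eval (x : ℤ)) with hG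
  have hGc : h ^ (2 * (u + v) - 2) ≤ 2 * G.card := H3 h a3
  have hGm : ∀ i ∈ G, i.1.1 ∈ PR h u ∧ i.1.2 ∈ PR h v ∧ i.2 < i.1.1 * i.1.2 ∧
      ∃ T : Finset ℤ[X], (∀ f ∈ T, Fam n N0 s b h f ∧ Pl f i.1.1 i.1.2 (i.2 : ℤ)) ∧
        c0 * (h : ℝ) ^ W ≤ 2 * 8 ^ 5 * (h : ℝ) ^ (3 * u + 2 * v) * T.card := by
    intro i hi
    rw [hG, Finset.mem_sigma, Finset.mem_product, Finset.mem_filter, Finset.mem_range] at hi
    obtain ⟨⟨p1, p2⟩, p3, p4, p5⟩ := hi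
    obtain ⟨y, hy, hy'⟩ := H1 h a1 i.1.1 p1 i.1.2 p2 (i.2 : ℤ) p4 p5
    exact ⟨p1, p2, p3, H2 h a2 i.1.1 p1 i.1.2 p2 (i.2 : ℤ) y hy hy'⟩
  have hex : ∀ i : (Σ _ : ℕ × ℕ, ℕ), ∃ T : Finset ℤ[X], i ∈ G →
      (∀ f ∈ T, Fam n N0 s b h f ∧ Pl f i.1.1 i.1.2 (i.2 : ℤ)) ∧
        c0 * (h : ℝ) ^ W ≤ 2 * 8 ^ 5 * (h : ℝ) ^ (3 * u + 2 * v) * T.card := by
    intro i
    by_cases hi : i ∈ G
    · obtain ⟨-, -, -, T, hT⟩ := hGm i hi
      exact ⟨T, fun _ => hT⟩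
    · exact ⟨∅, fun hi' => absurd hi' hi⟩
  choose T hT using hex
  have hh0 : (0 : ℝ) < h := by
    have : 0 < h := by omega
    exact_mod_cast this
  have hh1 : (1 : ℝ) ≤ h := by
    have : 1 ≤ h := by omega
    exact_mod_cast this
  have hD : (0 : ℝ) < 2 * 8 ^ 5 * (h : ℝ) ^ (3 * u + 2 * v) := by positivity
  have hdc := s2_11_double G T (c0 * (h : ℝ) ^ W / (2 * 8 ^ 5 * (h : ℝ) ^ (3 * u + 2 * v)))
    ((K1 * K2 * n ^ 2 : ℕ) : ℝ)
    (fun i hi => by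
      rw [div_le_iff₀ hD, mul_comm ((T i).card : ℝ)]
      exact (hT i hi).2)
    (fun f hf => by
      rw [Finset.mem_biUnion] at hf
      obtain ⟨i, hi, hfi⟩ := hf
      have hF := ((hT i hi).1 f hfi).1
      obtain ⟨q1, q2⟩ := H4 h a4 f hF
      have := s2_11_mult a5 huv hF.deg hF.monic q1 q2 (G.filter fun i => f ∈ T i) (by
        intro j hj
        rw [Finset.mem_filter] at hj
        obtain ⟨p1, p2, p3, -⟩ := hGm j hj.1
        exact ⟨p1, p2, p3, ((hT j hj.1).1 f hj.2).2⟩)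
      exact_mod_cast this)
  refine ⟨G.biUnion T, ?_, ?_⟩
  · intro f hf
    rw [Finset.mem_biUnion] at hf
    obtain ⟨i, hi, hfi⟩ := hf
    obtain ⟨p1, p2, -, -⟩ := hGm i hi
    exact ⟨((hT i hi).1 f hfi).1, i.1.1, p1, i.1.2, p2, _, ((hT i hi).1 f hfi).2⟩
  · set N : ℝ := ((G.biUnion T).card : ℝ) with hN
    have hN0' : 0 ≤ N := Nat.cast_nonneg _
    have hGr : (h : ℝ) ^ (2 * (u + v) - 2) ≤ 2 * (G.card : ℝ) := by exact_mod_cast hGc
    rw [div_mul_eq_mul_div, div_le_iff₀ hD] at hdc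
    have e1 : (h : ℝ) ^ (3 * u + 2 * v) = (h : ℝ) ^ (2 * (u + v) - 2) * (h : ℝ) ^ (u + 2) := by
      rw [← pow_add]; congr 1; omega
    have hX : (0 : ℝ) < (h : ℝ) ^ (2 * (u + v) - 2) := by positivity
    have e2 : (h : ℝ) ^ (2 * (u + v) - 2) * (c0 * (h : ℝ) ^ W) ≤
        (h : ℝ) ^ (2 * (u + v) - 2) * (K * (h : ℝ) ^ (u + 2) * N) := by
      have e3 : (h : ℝ) ^ (2 * (u + v) - 2) * (c0 * (h : ℝ) ^ W) ≤
          2 * (c0 * (h : ℝ) ^ W * G.card) := by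
        have : 0 ≤ c0 * (h : ℝ) ^ W := by positivity
        nlinarith
      refine e3.trans ?_
      rw [e1] at hdc
      have e4 : ((K1 * K2 * n ^ 2 : ℕ) : ℝ) * N *
          (2 * 8 ^ 5 * ((h : ℝ) ^ (2 * (u + v) - 2) * (h : ℝ) ^ (u + 2))) * 2 ≤
          (h : ℝ) ^ (2 * (u + v) - 2) * (K * (h : ℝ) ^ (u + 2) * N) := by
        rw [hK]
        have e5 : 0 ≤ (h : ℝ) ^ (2 * (u + v) - 2) * (4 * 8 ^ 5 * (h : ℝ) ^ (u + 2) * N) := by
          positivity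
        nlinarith [e5]
      linarith
    have e6 : c0 * (h : ℝ) ^ W ≤ K * (h : ℝ) ^ (u + 2) * N := le_of_mul_le_mul_left e2 hX
    by_cases hcase : u + 3 ≤ W
    · have e7 : (h : ℝ) ^ W = (h : ℝ) ^ (W - u - 3) * (h : ℝ) ^ (u + 3) := by
        rw [← pow_add]; congr 1; omega
      have e8 : (h : ℝ) ^ (u + 2) ≤ (h : ℝ) ^ (u + 3) := pow_le_pow_right₀ hh1 (by omega)
      have e9 : (h : ℝ) ^ (u + 3) * (c0 * (h : ℝ) ^ (W - u - 3)) ≤
          (h : ℝ) ^ (u + 3) * (K * N) := by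
        calc (h : ℝ) ^ (u + 3) * (c0 * (h : ℝ) ^ (W - u - 3)) = c0 * (h : ℝ) ^ W := by
              rw [e7]; ring
          _ ≤ K * (h : ℝ) ^ (u + 2) * N := e6
          _ ≤ K * (h : ℝ) ^ (u + 3) * N := by gcongr
          _ = (h : ℝ) ^ (u + 3) * (K * N) := by ring
      have e10 := le_of_mul_le_mul_left e9 (by positivity)
      calc min 1 (c0 / K) * (h : ℝ) ^ (W - u - 3) ≤ c0 / K * (h : ℝ) ^ (W - u - 3) := by
            gcongr; exact min_le_right _ _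
        _ = (c0 * (h : ℝ) ^ (W - u - 3)) / K := by ring
        _ ≤ N := by rw [div_le_iff₀ hK0]; linarith
    · have e11 : W - u - 3 = 0 := by omega
      rw [e11, pow_zero, mul_one]
      refine (min_le_left _ _).trans ?_
      have e12 : 0 < N := by
        by_contra hcon
        have : N = 0 := le_antisymm (not_lt.mp hcon) hN0'
        rw [this, mul_zero] at e6
        have : 0 < c0 * (h : ℝ) ^ W := by positivity
        linarith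
      rw [hN] at e12 ⊢
      exact_mod_cast Nat.cast_pos.mp e12

end Pool.Agent.H92.SQ2
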