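import Pool.Agent.H92.SQ2.Defs
import Pool.Agent.H92.SQ.FewP

/-!
# Project SQ2 (MP_a3214d): row S2-10

Boundedly many large primes can be planted in a polynomial, and boundedly many large primes divide
the discriminant.
-/

set_option autoImplicit false

open Polynomial Pool.Agent.H92.SQ

namespace Pool.Agent.H92.SQ2

/-- The product of at least `K` primes of `PR h u` is at least `h ^ K`. -/
private theorem s2_10_prod {h u : ℕ} (hu : 1 ≤ u) (hh : 1 ≤ h) (U : Finset ℕ) (hU : U ⊆ PR h u) :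
    (h : ℝ) ^ U.card ≤ ∏ p ∈ U, (p : ℝ) := by
  rw [← Finset.prod_const]
  apply Finset.prod_le_prod
  · intro p _
    positivity
  · intro p hp
    have h1 : h ^ u < p := (Finset.mem_filter.1 (hU hp)).2.2
    have h2 : h ≤ h ^ u := Nat.le_self_pow (by omega) h
    exact_mod_cast (h2.trans h1.le)

private theorem s2_10_prime {h u : ℕ} {U : Finset ℕ} (hU : U ⊆ PR h u) : ∀ p ∈ U, p.Prime :=
  fun _ hp => (Finset.mem_filter.1 (hU hp)).2.1

private theorem s2_10_lt (C : ℝ) (h : ℕ) (hh : h ≥ ⌈C⌉₊ + 1) : C < h := by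
  have h2 : C ≤ (⌈C⌉₊ : ℝ) := Nat.le_ceil C
  have h3 : ((⌈C⌉₊ + 1 : ℕ) : ℝ) ≤ h := by exact_mod_cast hh
  push_cast at h3
  linarith

open scoped Classical in
theorem few_m (n b u : ℕ) (hu : 1 ≤ u) (C : ℝ) : ∃ h0 : ℕ, ∀ h ≥ h0, ∀ f : ℤ[X],
    (∀ m r : ℤ, 0 < m → m ^ 2 ∣ f.eval r → m ∣ f.derivative.eval r →
      (m : ℝ) ^ 2 ≤ C * (h : ℝ) ^ (b * n * (n - 1))) →
    ((PR h u).filter fun m : ℕ => ∃ x : ℤ, Dbl m x f).card ≤ b * n * (n - 1) := by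
  refine ⟨⌈C⌉₊ + 1, ?_⟩
  intro h hh f hf
  by_contra hcon
  obtain ⟨U, hUS, hUc⟩ := Finset.exists_subset_card_eq
    (show b * n * (n - 1) + 1 ≤ ((PR h u).filter fun m : ℕ => ∃ x : ℤ, Dbl m x f).card by omega)
  have hUP : U ⊆ PR h u := hUS.trans (Finset.filter_subset _ _)
  have hprime := s2_10_prime hUP
  obtain ⟨r, hr1, hr2⟩ := sq9_glue f U hprime (fun p hp => (Finset.mem_filter.1 (hUS hp)).2)
  have hpos : 0 < ∏ p ∈ U, (p : ℤ) :=
    Finset.prod_pos fun p hp => by exact_mod_cast (hprime p hp).pos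
  have h1 := hf _ r hpos hr1 hr2
  have hh1 : 1 ≤ h := by omega
  have hhR : (1 : ℝ) ≤ h := by exact_mod_cast hh1
  have hhC : C < h := s2_10_lt C h hh
  have hbig := s2_10_prod hu hh1 U hUP
  have hcast : (((∏ p ∈ U, (p : ℤ) : ℤ)) : ℝ) = ∏ p ∈ U, (p : ℝ) := by
    push_cast
    rfl
  rw [hcast] at h1
  rw [hUc] at hbig
  have hP1 : (1 : ℝ) ≤ ∏ p ∈ U, (p : ℝ) := le_trans (one_le_pow₀ hhR) hbig
  have h2 : (h : ℝ) ^ (b * n * (n - 1) + 1) ≤ (∏ p ∈ U, (p : ℝ)) ^ 2 :=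
    hbig.trans (le_self_pow₀ hP1 two_ne_zero)
  rw [pow_succ] at h2
  have h4 : C * (h : ℝ) ^ (b * n * (n - 1)) < (h : ℝ) ^ (b * n * (n - 1)) * h := by
    rw [mul_comm]
    exact mul_lt_mul_of_pos_left hhC (by positivity)
  linarith

theorem few_l (n b v : ℕ) (hv : 1 ≤ v) (C : ℝ) : ∃ h0 : ℕ, ∀ h ≥ h0, ∀ D : ℤ, D ≠ 0 →
    |(D : ℝ)| ≤ C * (h : ℝ) ^ (b * n * (n - 1)) →
    ((PR h v).filter fun l : ℕ => (l : ℤ) ∣ D).card ≤ b * n * (n - 1) + 1 := by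
  refine ⟨⌈C⌉₊ + 1, ?_⟩
  intro h hh D hD hDC
  by_contra hcon
  obtain ⟨U, hUS, hUc⟩ := Finset.exists_subset_card_eq
    (show b * n * (n - 1) + 2 ≤ ((PR h v).filter fun l : ℕ => (l : ℤ) ∣ D).card by omega)
  have hUP : U ⊆ PR h v := hUS.trans (Finset.filter_subset _ _)
  have hprime := s2_10_prime hUP
  have hh1 : 1 ≤ h := by omega
  have hhR : (1 : ℝ) ≤ h := by exact_mod_cast hh1
  have hhC : C < h := s2_10_lt C h hh
  have hcop : (U : Set ℕ).Pairwise (Function.onFun IsCoprime fun p : ℕ => (p : ℤ)) := by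
    intro p hp q hq hpq
    exact Nat.isCoprime_iff_coprime.2 ((Nat.coprime_primes (hprime p hp) (hprime q hq)).2 hpq)
  have hdvd : (∏ p ∈ U, (p : ℤ)) ∣ D :=
    Finset.prod_dvd_of_coprime hcop (fun p hp => (Finset.mem_filter.1 (hUS hp)).2)
  have hle : |∏ p ∈ U, (p : ℤ)| ≤ |D| :=
    Int.le_of_dvd (abs_pos.mpr hD) ((abs_dvd_abs _ _).mpr hdvd)
  have hcast : (((∏ p ∈ U, (p : ℤ) : ℤ)) : ℝ) = ∏ p ∈ U, (p : ℝ) := by
    push_cast
    rfl
  have hleR : |∏ p ∈ U, (p : ℝ)| ≤ |(D : ℝ)| := by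
    rw [← hcast, ← Int.cast_abs, ← Int.cast_abs]
    exact_mod_cast hle
  have hbig := s2_10_prod hv hh1 U hUP
  rw [hUc] at hbig
  have h2 : (h : ℝ) ^ (b * n * (n - 1) + 2) ≤ C * (h : ℝ) ^ (b * n * (n - 1)) :=
    hbig.trans ((le_abs_self _).trans (hleR.trans hDC))
  have h3 : (h : ℝ) ^ (b * n * (n - 1) + 1) ≤ (h : ℝ) ^ (b * n * (n - 1) + 2) :=
    pow_le_pow_right₀ hhR (by omega)
  rw [pow_succ (h : ℝ) (b * n * (n - 1))] at h3
  have h4 : C * (h : ℝ) ^ (b * n * (n - 1)) < (h : ℝ) ^ (b * n * (n - 1)) * h := by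
    rw [mul_comm]
    exact mul_lt_mul_of_pos_left hhC (by positivity)
  linarith

end Pool.Agent.H92.SQ2
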