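import Pool.Agent.H92.SQ2.ShCard

/-!
# Project SQ2, row S2-20: the number of polynomials in the box with a root in a given field
-/

set_option autoImplicit false

open Polynomial IsDedekindDomain NumberField Pool.Agent.H35.AN Pool.Agent.H92.SQ

namespace Pool.Agent.H92.SQ2

private theorem s2_20_minpoly {n : ℕ} {R : ℝ} {a : ℤ} {g : ℤ[X]} (hg : Mb n R a g) {K : Type}
    [Field K] [NumberField K] {y : K} (hy : aeval y g = 0) : minpoly ℚ y = FQ g := by
  refine (minpoly.eq_of_irreducible_of_monic hg.irr ?_ (hg.monic.map _)).symm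
  rw [FQ, ← algebraMap_int_eq, aeval_map_algebraMap]
  exact hy

private theorem s2_20_trace {n : ℕ} (hn : 2 ≤ n) {R : ℝ} {a : ℤ} {g : ℤ[X]} (hg : Mb n R a g)
    {K : Type} [Field K] [NumberField K] (hK : Module.finrank ℚ K = n) {y : K}
    (hy : aeval y g = 0) : Algebra.trace ℚ K y = -(a : ℚ) := by
  have hm := s2_20_minpoly hg hy
  have hdeg : (FQ g).natDegree = n := by
    rw [FQ, hg.monic.natDegree_map]
    exact hg.deg
  have hint : IsIntegral ℚ y := Algebra.IsIntegral.isIntegral y
  have h1 : Module.finrank ℚ (IntermediateField.adjoin ℚ {y}) = n := by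
    rw [IntermediateField.adjoin.finrank hint, hm, hdeg]
  have h2 : Module.finrank (IntermediateField.adjoin ℚ {y}) K = 1 := by
    have h3 := Module.finrank_mul_finrank ℚ (IntermediateField.adjoin ℚ {y}) K
    rw [h1, hK] at h3
    have h4 : 0 < n := by omega
    exact Nat.eq_of_mul_eq_mul_left h4 (by rw [h3, mul_one])
  rw [trace_eq_finrank_mul_minpoly_nextCoeff, h2, hm, nextCoeff_of_natDegree_pos (by omega), hdeg,
    FQ, coeff_map, hg.snd]
  simp

theorem mult_bound (n r : ℕ) (hn : 2 ≤ n) : ∃ C : ℝ, 1 ≤ C ∧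
    ∀ (K : Type) [Field K] [NumberField K], Module.finrank ℚ K = n →
      ∀ (R ρ : ℝ) (a : ℤ), 0 < ρ → ρ ≤ R → Thin r (2 * n * R) K → (∀ z : K, Sh ρ z → z = 0) →
        ∀ G : Finset ℤ[X], (∀ g ∈ G, Mb n R a g ∧ ∃ y : K, aeval y g = 0) →
          (G.card : ℝ) ≤ (C * R / ρ) ^ r := by
  classical
  obtain ⟨C, hC, hcard⟩ := sh_card n r
  have hn2 : (2 : ℝ) ≤ n := by exact_mod_cast hn
  refine ⟨C * (2 * n), by nlinarith, ?_⟩
  intro K _ _ hK R ρ a hρ hρR hthin hsmall G hG
  have hR : 0 < R := lt_of_lt_of_le hρ hρR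
  have hex : ∀ g : ℤ[X], ∃ y : K, g ∈ G → aeval y g = 0 := by
    intro g
    by_cases hg : g ∈ G
    · obtain ⟨y, hy⟩ := (hG g hg).2
      exact ⟨y, fun _ => hy⟩
    · exact ⟨0, fun h => absurd h hg⟩
  choose y hy using hex
  set z : ℤ[X] → K := fun g => (n : K) * y g + (a : K) with hz
  have hinj : Set.InjOn z G := by
    intro g hg h hh hgh
    have h1 : (n : K) * y g = (n : K) * y h := by
      have h2 : (n : K) * y g + (a : K) = (n : K) * y h + (a : K) := hgh
      exact add_right_cancel h2
    have h3 : (n : K) ≠ 0 := by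
      have : n ≠ 0 := by omega
      exact_mod_cast this
    have h4 : y g = y h := mul_left_cancel₀ h3 h1
    have h5 : FQ g = FQ h := by
      rw [← s2_20_minpoly (hG g hg).1 (hy g hg), ← s2_20_minpoly (hG h hh).1 (hy h hh), h4]
    exact Polynomial.map_injective (Int.castRingHom ℚ) (RingHom.injective_int _) h5
  have hsh : ∀ g ∈ G, Sh (2 * n * R) (z g) := by
    intro g hg
    have hM := (hG g hg).1
    have hyg := hy g hg
    have hyi : IsIntegral ℤ (y g) := ⟨g, hM.monic, hyg⟩
    have htr := s2_20_trace hn hM hK hyg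
    have hroot : ∀ φ : K →+* ℂ, ‖φ (y g)‖ ≤ R := by
      intro φ
      refine hM.rt _ ?_
      have h1 : aeval (φ.toIntAlgHom (y g)) g = φ.toIntAlgHom (aeval (y g) g) :=
        aeval_algHom_apply _ _ _
      have h2 : φ.toIntAlgHom (y g) = φ (y g) := rfl
      rw [h2] at h1
      rw [h1, hyg, map_zero]
    have ha : |(a : ℝ)| ≤ n * R := by
      have h1 := trace_eq_sum_embeddings (K := ℚ) (L := K) (E := ℂ) (x := y g)
      rw [htr] at h1
      have h2 : ‖(algebraMap ℚ ℂ) (-(a : ℚ))‖ = |(a : ℝ)| := by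
        rw [map_neg, norm_neg, map_intCast, Complex.norm_intCast]
      rw [← h2, h1]
      refine (norm_sum_le _ _).trans ?_
      refine (Finset.sum_le_card_nsmul _ _ R fun σ _ => hroot σ.toRingHom).trans ?_
      rw [Finset.card_univ, nsmul_eq_mul, AlgHom.card ℚ K ℂ, hK]
    refine ⟨?_, ?_, ?_⟩
    · have h1 : IsIntegral ℤ ((n : K)) := by
        have := isIntegral_algebraMap (R := ℤ) (A := K) (x := (n : ℤ))
        simpa using this
      have h2 : IsIntegral ℤ ((a : K)) := by
        have := isIntegral_algebraMap (R := ℤ) (A := K) (x := a)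
        simpa using this
      exact (h1.mul hyi).add h2
    · have h1 : z g = (n : ℚ) • y g + algebraMap ℚ K (a : ℚ) := by
        rw [hz, Algebra.smul_def]
        simp
      rw [h1, map_add, map_smul, htr, Algebra.trace_algebraMap, hK]
      simp
    · intro φ
      have h1 : φ (z g) = n * φ (y g) + a := by
        rw [hz]
        simp
      rw [h1]
      refine (norm_add_le _ _).trans ?_
      rw [norm_mul, Complex.norm_natCast, Complex.norm_intCast]
      have h2 := hroot φ
      have h3 : (n : ℝ) * ‖φ (y g)‖ ≤ n * R := mul_le_mul_of_nonneg_left h2 (by positivity)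
      linarith
  have key := hcard K hK (2 * n * R) ρ hρ (by nlinarith) hthin hsmall (G.image z) (by
    intro w hw
    obtain ⟨g, hg, rfl⟩ := Finset.mem_image.1 hw
    exact hsh g hg)
  rw [Finset.card_image_of_injOn hinj] at key
  refine key.trans (le_of_eq ?_)
  congr 1
  ring

end Pool.Agent.H92.SQ2
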