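import Pool.Agent.H92.SQ2.DefsF

/-!
# Project SQ2 (MP_a3214d), row S2-17: elements of bounded size

`sh_small`: an integral element all of whose conjugates have absolute value at most `ρ < 1` is
zero.  `sh_card`: a packing bound for the integral elements of trace zero and size at most `R`
when these elements span a space of dimension at most `r` and there is none of size at most `ρ`.
-/

set_option autoImplicit false

open Polynomial IsDedekindDomain NumberField Pool.Agent.H92.SQ

namespace Pool.Agent.H92.SQ2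

open MeasureTheory Metric Set Module Function in
/-- packing in a normed space -/
private theorem s2_17_pack {E : Type*} [NormedAddCommGroup E] [NormedSpace ℝ E]
    [FiniteDimensional ℝ E] (s : Finset E) {R ρ : ℝ} (hρ : 0 < ρ) (hR : 0 ≤ R)
    (hs : ∀ c ∈ s, ‖c‖ ≤ R) (h : ∀ c ∈ s, ∀ d ∈ s, c ≠ d → ρ ≤ ‖c - d‖) :
    (s.card : ℝ) ≤ (2 * R / ρ + 1) ^ finrank ℝ E := by
  borelize E
  let μ : Measure E := Measure.addHaar
  let δ : ℝ := ρ / 2
  let ρ' : ℝ := R + δ
  have δpos : 0 < δ := by positivity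
  have ρpos : 0 < ρ' := by positivity
  set A := ⋃ c ∈ s, ball (c : E) δ with hA
  have D : Set.Pairwise (s : Set E) (Disjoint on fun c => ball (c : E) δ) := by
    rintro c hc d hd hcd
    apply ball_disjoint_ball
    rw [dist_eq_norm]
    have := h c hc d hd hcd
    show ρ / 2 + ρ / 2 ≤ _
    linarith
  have A_subset : A ⊆ ball (0 : E) ρ' := by
    refine iUnion₂_subset fun x hx => ?_
    apply ball_subset_ball'
    calc
      δ + dist x 0 ≤ δ + R := by rw [dist_zero_right]; exact add_le_add le_rfl (hs x hx)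
      _ = ρ' := by show δ + R = R + δ; ring
  have I : (s.card : ENNReal) * ENNReal.ofReal (δ ^ finrank ℝ E) * μ (ball 0 1) ≤
      ENNReal.ofReal (ρ' ^ finrank ℝ E) * μ (ball 0 1) :=
    calc
      (s.card : ENNReal) * ENNReal.ofReal (δ ^ finrank ℝ E) * μ (ball 0 1) = μ A := by
        rw [hA, measure_biUnion_finset D fun c _ => measurableSet_ball]
        simp only [μ.addHaar_ball_of_pos _ δpos, Finset.sum_const, nsmul_eq_mul, mul_assoc]
      _ ≤ μ (ball (0 : E) ρ') := measure_mono A_subset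
      _ = ENNReal.ofReal (ρ' ^ finrank ℝ E) * μ (ball 0 1) := by
        simp only [μ.addHaar_ball_of_pos _ ρpos]
  have J : (s.card : ENNReal) * ENNReal.ofReal (δ ^ finrank ℝ E) ≤
      ENNReal.ofReal (ρ' ^ finrank ℝ E) := by
    refine (ENNReal.mul_le_mul_iff_left (c := μ (ball 0 1)) ?_ ?_).1 I
    · exact (measure_ball_pos _ _ zero_lt_one).ne'
    · exact measure_ball_lt_top.ne
  have K : (s.card : ℝ) * δ ^ finrank ℝ E ≤ ρ' ^ finrank ℝ E := by
    have h1 : ENNReal.ofReal ((s.card : ℝ) * δ ^ finrank ℝ E) ≤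
        ENNReal.ofReal (ρ' ^ finrank ℝ E) := by
      rw [ENNReal.ofReal_mul (Nat.cast_nonneg _), ENNReal.ofReal_natCast]
      exact J
    exact (ENNReal.ofReal_le_ofReal_iff (by positivity)).1 h1
  have e : 2 * R / ρ + 1 = ρ' / δ := by
    show 2 * R / ρ + 1 = (R + ρ / 2) / (ρ / 2)
    field_simp
  rw [e, div_pow, le_div_iff₀ (pow_pos δpos _)]
  exact K

/-- the vector of all conjugates -/
private noncomputable def s2_17_emb (K : Type) [Field K] [NumberField K] :
    K →ₗ[ℚ] ((K →+* ℂ) → ℂ) :=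
  LinearMap.pi fun φ => φ.toRatAlgHom.toLinearMap

private theorem s2_17_emb_apply (K : Type) [Field K] [NumberField K] (z : K) (φ : K →+* ℂ) :
    s2_17_emb K z φ = φ z := rfl

theorem sh_small {K : Type} [Field K] [NumberField K] {ρ : ℝ} (hρ : ρ < 1) {z : K}
    (hz : Sh ρ z) : z = 0 := by
  by_contra hz0
  obtain ⟨m, hm, h1⟩ := NumberField.Embeddings.pow_eq_one_of_norm_le_one K ℂ hz0 hz.int
    (fun φ => (hz.sz φ).trans hρ.le)
  obtain ⟨φ⟩ : Nonempty (K →+* ℂ) := inferInstance
  have h2 : ‖φ z‖ ^ m = 1 := by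
    rw [← norm_pow, ← map_pow, h1, map_one, norm_one]
  have h3 : ‖φ z‖ < 1 := (hz.sz φ).trans_lt hρ
  have h4 : ‖φ z‖ ^ m < 1 := pow_lt_one₀ (norm_nonneg _) h3 hm.ne'
  rw [h2] at h4
  exact lt_irrefl _ h4

theorem sh_card (n r : ℕ) : ∃ C : ℝ, 1 ≤ C ∧ ∀ (K : Type) [Field K] [NumberField K],
    Module.finrank ℚ K = n → ∀ R ρ : ℝ, 0 < ρ → ρ ≤ R → Thin r R K →
    (∀ z : K, Sh ρ z → z = 0) → ∀ S : Finset K, (∀ z ∈ S, Sh R z) →
    (S.card : ℝ) ≤ (C * R / ρ) ^ r := by
  refine ⟨3, by norm_num, ?_⟩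
  intro K _ _ _ R ρ hρ hρR hthin hno S hS
  classical
  have hR : 0 < R := hρ.trans_le hρR
  -- a maximal independent subset
  obtain ⟨b, hbS, hbspan, hbli⟩ := exists_linearIndependent ℚ (S : Set K)
  have hbfin : b.Finite := S.finite_toSet.subset hbS
  have hbcard : hbfin.toFinset.card ≤ r := by
    by_contra hlt
    rw [not_le] at hlt
    have : Fintype b := hbfin.fintype
    have hc : Fintype.card (Fin (r + 1)) ≤ Fintype.card b := by
      rw [Fintype.card_fin]
      have : Fintype.card b = hbfin.toFinset.card := by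
        rw [← Set.toFinset_card]; congr 1; ext x; simp
      omega
    obtain ⟨g⟩ := Function.Embedding.nonempty_of_card_le hc
    exact hthin (fun i => ((g i : b) : K)) (fun i => hS _ (hbS (g i).2))
      (hbli.comp g g.injective)
  let ι := s2_17_emb K
  let W : Submodule ℝ ((K →+* ℂ) → ℂ) := Submodule.span ℝ (hbfin.toFinset.image ι : Finset _)
  have hWr : Module.finrank ℝ W ≤ r := by
    refine (finrank_span_finset_le_card _).trans ?_
    exact Finset.card_image_le.trans hbcard
  have hmem : ∀ z ∈ S, ι z ∈ W := by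
    intro z hz
    have h1 : z ∈ Submodule.span ℚ b := by
      rw [hbspan]; exact Submodule.subset_span hz
    have h2 : ι z ∈ Submodule.span ℚ (ι '' b) := by
      rw [← Submodule.map_span]
      exact Submodule.mem_map_of_mem h1
    have h3 := Submodule.span_le_restrictScalars ℚ ℝ (ι '' b) h2
    have h4 : ((hbfin.toFinset.image ι : Finset _) : Set ((K →+* ℂ) → ℂ)) = ι '' b := by
      rw [Finset.coe_image, hbfin.coe_toFinset]
    show ι z ∈ Submodule.span ℝ _
    rw [h4]
    exact h3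
  have hinj : Function.Injective ι := by
    intro x y hxy
    obtain ⟨φ⟩ : Nonempty (K →+* ℂ) := inferInstance
    have h := congrFun hxy φ
    exact φ.injective h
  -- the finset in `W`
  let T : Finset W := S.attach.image fun z => ⟨ι z.1, hmem z.1 z.2⟩
  have hTcard : T.card = S.card := by
    rw [Finset.card_image_of_injective _ ?_, Finset.card_attach]
    intro x y hxy
    have := congrArg Subtype.val hxy
    exact Subtype.ext (hinj this)
  have hnorm : ∀ c ∈ T, ‖c‖ ≤ R := by
    intro c hc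
    obtain ⟨z, -, rfl⟩ := Finset.mem_image.1 hc
    show ‖ι z.1‖ ≤ R
    rw [pi_norm_le_iff_of_nonneg hR.le]
    exact fun φ => (hS z.1 z.2).sz φ
  have hsep : ∀ c ∈ T, ∀ d ∈ T, c ≠ d → ρ ≤ ‖c - d‖ := by
    intro c hc d hd hcd
    obtain ⟨z, -, rfl⟩ := Finset.mem_image.1 hc
    obtain ⟨w, -, rfl⟩ := Finset.mem_image.1 hd
    by_contra hlt
    rw [not_le] at hlt
    apply hcd
    have h1 : ‖ι (z.1 - w.1)‖ < ρ := by
      rw [map_sub]; exact hlt
    have h2 : Sh ρ (z.1 - w.1) := by
      refine ⟨(hS z.1 z.2).int.sub (hS w.1 w.2).int, ?_, ?_⟩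
      · rw [map_sub, (hS z.1 z.2).tr, (hS w.1 w.2).tr, sub_zero]
      · intro φ
        exact (norm_le_pi_norm (ι (z.1 - w.1)) φ).trans h1.le
    have h3 := hno _ h2
    have h4 : z.1 = w.1 := sub_eq_zero.1 h3
    exact Subtype.ext (by show ι z.1 = ι w.1; rw [h4])
  have key := s2_17_pack T hρ hR.le hnorm hsep
  rw [hTcard] at key
  refine key.trans ?_
  have h1 : 1 ≤ R / ρ := (one_le_div hρ).2 hρR
  have h2 : (1 : ℝ) ≤ 2 * R / ρ + 1 := by
    have : 0 ≤ 2 * R / ρ := by positivity
    linarith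
  refine (pow_le_pow_right₀ h2 hWr).trans ?_
  refine pow_le_pow_left₀ (by linarith) ?_ r
  have e1 : 2 * R / ρ = 2 * (R / ρ) := by ring
  have e2 : 3 * R / ρ = 3 * (R / ρ) := by ring
  rw [e1, e2]
  linarith

end Pool.Agent.H92.SQ2
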