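import Pool.Agent.H92.SQ2.DefsF

/-!
Project SQ2, row S2-18: the minimal polynomial of a short trace-zero element.
-/

set_option autoImplicit false

open Polynomial IsDedekindDomain NumberField Pool.Agent.H35.AN Pool.Agent.H92.SQ

namespace Pool.Agent.H92.SQ2

/-- the conjugates of a nonzero element of trace zero are pairwise distinct -/
theorem s2_18_inj {n : ℕ} (hn : 2 ≤ n) {K : Type} [Field K] [NumberField K] (hK : SymK n K)
    {z : K} (htr : Algebra.trace ℚ K z = 0) (hz0 : z ≠ 0) :
    Function.Injective (fun φ : K →ₐ[ℚ] AlgebraicClosure ℚ => φ z) := by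
  obtain ⟨hfin, e, he⟩ := hK
  intro φ ψ hφψ
  by_contra hne
  dsimp only at hφψ
  have hev : e φ ≠ e ψ := fun h => hne (e.injective h)
  -- all conjugates are equal
  have hall : ∀ χ : K →ₐ[ℚ] AlgebraicClosure ℚ, χ z = φ z := by
    intro χ
    by_cases hχ : χ = φ
    · rw [hχ]
    have hev2 : e χ ≠ e φ := fun h => hχ (e.injective h)
    -- a permutation sending `φ ↦ φ`, `ψ ↦ χ`
    obtain ⟨σ, hσ⟩ := he (Equiv.swap (e ψ) (e χ))
    have h1 : σ.toAlgHom.comp φ = φ := by
      apply e.injective
      rw [hσ φ, Equiv.swap_apply_of_ne_of_ne hev (Ne.symm hev2)]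
    have h2 : σ.toAlgHom.comp ψ = χ := by
      apply e.injective
      rw [hσ ψ, Equiv.swap_apply_left]
    calc χ z = (σ.toAlgHom.comp ψ) z := by rw [h2]
      _ = σ (ψ z) := rfl
      _ = σ (φ z) := by rw [hφψ]
      _ = (σ.toAlgHom.comp φ) z := rfl
      _ = φ z := by rw [h1]
  have hsum := trace_eq_sum_embeddings (K := ℚ) (L := K) (AlgebraicClosure ℚ) (x := z)
  rw [htr, map_zero, Finset.sum_congr rfl fun χ _ => hall χ, Finset.sum_const, Finset.card_univ,
    nsmul_eq_mul, eq_comm, mul_eq_zero] at hsum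
  rcases hsum with h | h
  · rw [Nat.cast_eq_zero, AlgHom.card, hfin] at h
    omega
  · exact hz0 (by simpa using h)

theorem shp_of_sh {n : ℕ} (hn : 2 ≤ n) {K : Type} [Field K] [NumberField K] (hK : SymK n K)
    {L : ℝ} {z : K} (hz : Sh L z) (hz0 : z ≠ 0) :
    ∃ P : ℤ[X], ShP n L P ∧ Irreducible (FQ P) ∧ aeval z P = 0 := by
  have hint := hz.int
  have hQ : minpoly ℚ z = FQ (minpoly ℤ z) :=
    minpoly.isIntegrallyClosed_eq_field_fractions' ℚ hint
  have hintQ : IsIntegral ℚ z := hint.tower_top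
  have hinj := s2_18_inj hn hK hz.tr hz0
  have hdegQ : (minpoly ℚ z).natDegree = n := by
    apply le_antisymm
    · rw [← hK.1]
      exact minpoly.natDegree_le z
    · -- distinct roots
      have h1 : Fintype.card (K →ₐ[ℚ] AlgebraicClosure ℚ) = n := by
        rw [AlgHom.card, hK.1]
      classical
      have h2 : (Finset.univ.image (fun φ : K →ₐ[ℚ] AlgebraicClosure ℚ => φ z)).card = n := by
        rw [Finset.card_image_of_injective _ hinj, Finset.card_univ, h1]
      have h3 : Finset.univ.image (fun φ : K →ₐ[ℚ] AlgebraicClosure ℚ => φ z) ⊆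
          ((minpoly ℚ z).map (algebraMap ℚ (AlgebraicClosure ℚ))).roots.toFinset := by
        intro w hw
        rw [Finset.mem_image] at hw
        obtain ⟨φ, -, rfl⟩ := hw
        rw [Multiset.mem_toFinset, mem_roots', IsRoot.def, eval_map_algebraMap]
        refine ⟨Polynomial.map_ne_zero (minpoly.ne_zero hintQ), ?_⟩
        rw [aeval_algHom_apply, minpoly.aeval, map_zero]
      calc n = _ := h2.symm
        _ ≤ _ := Finset.card_le_card h3
        _ ≤ Multiset.card ((minpoly ℚ z).map (algebraMap ℚ (AlgebraicClosure ℚ))).roots :=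
          Multiset.toFinset_card_le _
        _ ≤ ((minpoly ℚ z).map (algebraMap ℚ (AlgebraicClosure ℚ))).natDegree := card_roots' _
        _ = (minpoly ℚ z).natDegree := natDegree_map _
  have hdeg : (minpoly ℤ z).natDegree = n := by
    rw [← hdegQ, hQ]
    unfold FQ
    exact (natDegree_map_eq_of_injective (RingHom.injective_int (Int.castRingHom ℚ)) _).symm
  refine ⟨minpoly ℤ z, ⟨hdeg, minpoly.monic hint, ?_, ?_⟩, ?_, minpoly.aeval ℤ z⟩
  · -- trace
    have h1 := trace_eq_finrank_mul_minpoly_nextCoeff ℚ z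
    rw [hz.tr, eq_comm, mul_eq_zero] at h1
    have h2 : (minpoly ℚ z).nextCoeff = 0 := by
      rcases h1 with h | h
      · exfalso
        have : 0 < Module.finrank (IntermediateField.adjoin ℚ {z}) K := Module.finrank_pos
        rw [Nat.cast_eq_zero] at h
        omega
      · linarith
    rw [nextCoeff_of_natDegree_pos (by omega), hdegQ, hQ] at h2
    unfold FQ at h2
    rw [coeff_map] at h2
    simpa using h2
  · intro w hw
    have h1 : w ∈ (minpoly ℚ z).rootSet ℂ := by
      rw [mem_rootSet]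
      refine ⟨minpoly.ne_zero hintQ, ?_⟩
      rw [hQ]
      unfold FQ
      rw [aeval_def, eval₂_map]
      rw [aeval_def] at hw
      have h0 : (algebraMap ℚ ℂ).comp (Int.castRingHom ℚ) = algebraMap ℤ ℂ := RingHom.ext_int _ _
      rw [h0]
      exact hw
    rw [← NumberField.Embeddings.range_eval_eq_rootSet_minpoly K ℂ z] at h1
    obtain ⟨φ, hφ⟩ := h1
    rw [← hφ]
    exact hz.sz φ
  · rw [← hQ]
    exact minpoly.irreducible hintQ

end Pool.Agent.H92.SQ2
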