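import Pool.Agent.H92.SQ2.DefsF
import Pool.Agent.H92.SQ2.ShCard
import Pool.Agent.H92.SQ2.ShP
import Pool.Agent.H92.SQ2.ShPC
import Pool.Agent.H92.SQ2.Mult

/-! Row S2-21: fields with a short element. -/

set_option autoImplicit false

open Polynomial IsDedekindDomain NumberField Pool.Agent.H35.AN Pool.Agent.H92.SQ

namespace Pool.Agent.H92.SQ2

/-! ## S2-21 Low.lean (uses S2-17 sh_small, S2-18, S2-19, S2-20) -/

theorem s2_21_FQ {K : Type} [Field K] [NumberField K] (f : ℤ[X]) (x : K) :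
    aeval x (FQ f) = aeval x f := by
  unfold FQ
  exact aeval_map_algebraMap ℚ x f

theorem root_in {n : ℕ} {f g : ℤ[X]} {K K' : Type} [Field K] [NumberField K] [Field K']
    [NumberField K'] (hf : f.natDegree = n) (hfi : Irreducible (FQ f))
    (hK : Module.finrank ℚ K = n) (hK' : Module.finrank ℚ K' = n) {x : K} (hx : aeval x f = 0)
    {x' y' : K'} (hx' : aeval x' f = 0) (hy' : aeval y' g = 0) : ∃ y : K, aeval y g = 0 := by
  have hfact : Fact (Irreducible (FQ f)) := ⟨hfi⟩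
  have h1 : aeval x (FQ f) = 0 := by rw [s2_21_FQ, hx]
  have h2 : aeval x' (FQ f) = 0 := by rw [s2_21_FQ, hx']
  let φ : AdjoinRoot (FQ f) →ₐ[ℚ] K := AdjoinRoot.liftAlgHom (FQ f) (Algebra.ofId ℚ K) x h1
  let ψ : AdjoinRoot (FQ f) →ₐ[ℚ] K' := AdjoinRoot.liftAlgHom (FQ f) (Algebra.ofId ℚ K') x' h2
  have hdeg : (FQ f).natDegree = n := by
    unfold FQ
    rw [natDegree_map_eq_of_injective (RingHom.injective_int (Int.castRingHom ℚ)), hf]
  have hfin : Module.Finite ℚ (AdjoinRoot (FQ f)) := (AdjoinRoot.powerBasis hfi.ne_zero).finite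
  have hrank : Module.finrank ℚ (AdjoinRoot (FQ f)) = Module.finrank ℚ K' := by
    rw [(AdjoinRoot.powerBasis hfi.ne_zero).finrank, AdjoinRoot.powerBasis_dim, hdeg, hK']
  have hinj : Function.Injective ψ := ψ.toRingHom.injective
  have hsurj : Function.Surjective ψ :=
    (LinearMap.injective_iff_surjective_of_finrank_eq_finrank hrank (f := ψ.toLinearMap)).1 hinj
  obtain ⟨t, ht⟩ := hsurj y'
  refine ⟨φ t, ?_⟩
  have h3 : aeval t g = 0 := by
    apply hinj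
    rw [map_zero]
    have h4 : ψ (aeval t g) = aeval (ψ t) g := by
      have := (aeval_algHom_apply (ψ.restrictScalars ℤ) t g)
      exact this.symm
    rw [h4, ht, hy']
  have h5 : φ (aeval t g) = aeval (φ t) g := by
    have := (aeval_algHom_apply (φ.restrictScalars ℤ) t g)
    exact this.symm
  rw [← h5, h3, map_zero]

theorem low_count (n r : ℕ) (hn : 2 ≤ n) (hr : r ≤ n * (n + 1) / 2 - 1) (C0 : ℝ) (hC0 : 1 ≤ C0) :
    ∃ C : ℝ, 0 < C ∧ ∀ (h b w : ℕ) (a : ℤ), 2 ≤ h → w ≤ b → ∀ T : Finset ℤ[X],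
      (∀ f ∈ T, Mb n (C0 * (h : ℝ) ^ b) a f ∧ ∃ (K : Type) (_ : Field K) (_ : NumberField K)
        (y : K), aeval y f = 0 ∧ SymK n K ∧ Thin r (2 * n * (C0 * (h : ℝ) ^ b)) K ∧
        ∃ z : K, z ≠ 0 ∧ Sh ((h : ℝ) ^ w) z) →
      (T.card : ℝ) ≤ C * (w + 1) *
        (h : ℝ) ^ (w * (n * (n + 1) / 2 - 1) + (b - w + 1) * r) := by
  classical
  obtain ⟨C1, hC1, hmult⟩ := mult_bound n r hn
  obtain ⟨C2, hC2, hshp⟩ := shp_card n hn
  set W : ℕ := n * (n + 1) / 2 - 1 with hW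
  have hC10 : 0 < C1 * C0 := by nlinarith
  refine ⟨C2 * (C1 * C0) ^ r, by positivity, ?_⟩
  intro h b w a hh hwb T hT
  have hh1 : (2 : ℝ) ≤ h := by exact_mod_cast hh
  have hh0 : (0 : ℝ) < h := by linarith
  have hh1' : (1 : ℝ) ≤ h := by linarith
  let Good : ℤ[X] → ℕ → ℤ[X] → Prop := fun f j P =>
    Irreducible (FQ P) ∧ P.natDegree = n ∧ ∃ (K : Type) (_ : Field K) (_ : NumberField K) (x y : K),
      aeval x P = 0 ∧ aeval y f = 0 ∧ Module.finrank ℚ K = n ∧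
      Thin r (2 * n * (C0 * (h : ℝ) ^ b)) K ∧ ∀ z : K, Sh ((h : ℝ) ^ j / h) z → z = 0
  have hgood : ∀ f ∈ T, ∃ j ≤ w, ∃ P : ℤ[X], ShP n ((h : ℝ) ^ j) P ∧ Good f j P := by
    intro f hf
    obtain ⟨-, K, hK1, hK2, y, hy, hsym, hthin, hz⟩ := hT f hf
    have hex : ∃ j : ℕ, ∃ z : K, z ≠ 0 ∧ Sh ((h : ℝ) ^ j) z := ⟨w, hz⟩
    obtain ⟨z, hz0, hzs⟩ := Nat.find_spec hex
    obtain ⟨P, hP1, hP2, hP3⟩ := shp_of_sh hn hsym hzs hz0
    refine ⟨Nat.find hex, Nat.find_min' hex hz, P, hP1, hP2, hP1.deg, K, hK1, hK2, z, y, hP3, hy,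
      hsym.1, hthin, ?_⟩
    intro z' hz'
    by_contra hne
    rcases Nat.eq_zero_or_pos (Nat.find hex) with h0 | hpos
    · rw [h0, pow_zero] at hz'
      refine hne (sh_small ?_ hz')
      rw [div_lt_one hh0]
      linarith
    · have h1 : (h : ℝ) ^ (Nat.find hex) / h = (h : ℝ) ^ (Nat.find hex - 1) := by
        rw [div_eq_iff hh0.ne', ← pow_succ]
        congr 1
        omega
      rw [h1] at hz'
      have := Nat.find_min' hex ⟨z', hne, hz'⟩
      omega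
  have hfib : ∀ j ≤ w, ∀ P : ℤ[X],
      ((T.filter fun f => Good f j P).card : ℝ) ≤
        (C1 * C0) ^ r * (h : ℝ) ^ ((b - j + 1) * r) := by
    intro j hj P
    rcases (T.filter fun f => Good f j P).eq_empty_or_nonempty with he | ⟨f0, hf0⟩
    · rw [he, Finset.card_empty, Nat.cast_zero]
      positivity
    · obtain ⟨hP1, hP2, K, hK1, hK2, x, y, hx, hy, hfr, hthin, hsm⟩ := (Finset.mem_filter.1 hf0).2
      have hle : (h : ℝ) ^ j / h ≤ C0 * (h : ℝ) ^ b := by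
        rw [div_le_iff₀ hh0]
        have h1 : (h : ℝ) ^ j ≤ (h : ℝ) ^ b := pow_le_pow_right₀ hh1' (hj.trans hwb)
        have h2 : (0 : ℝ) < (h : ℝ) ^ b := by positivity
        calc (h : ℝ) ^ j ≤ (h : ℝ) ^ b := h1
          _ ≤ C0 * (h : ℝ) ^ b := le_mul_of_one_le_left h2.le hC0
          _ ≤ C0 * (h : ℝ) ^ b * h := le_mul_of_one_le_right (by positivity) hh1'
      have h3 := hmult K hfr (C0 * (h : ℝ) ^ b) ((h : ℝ) ^ j / h) a (by positivity) hle hthin hsm
        (T.filter fun f => Good f j P) (by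
          intro g hg
          obtain ⟨hgT, -, -, K', hK1', hK2', x', y', hx', hy', hfr', -, -⟩ := Finset.mem_filter.1 hg
          exact ⟨(hT g hgT).1, root_in hP2 hP1 hfr hfr' hx hx' hy'⟩)
      refine h3.trans (le_of_eq ?_)
      have h4 : C1 * (C0 * (h : ℝ) ^ b) / ((h : ℝ) ^ j / h) = C1 * C0 * (h : ℝ) ^ (b - j + 1) := by
        have h5 : (h : ℝ) ^ b * h = (h : ℝ) ^ (b - j + 1) * (h : ℝ) ^ j := by
          rw [← pow_succ, ← pow_add]
          congr 1
          omega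
        rw [div_div_eq_mul_div, div_eq_iff (by positivity)]
        calc C1 * (C0 * (h : ℝ) ^ b) * h = C1 * C0 * ((h : ℝ) ^ b * h) := by ring
          _ = _ := by rw [h5]; ring
      rw [h4, mul_pow, ← pow_mul]
  have hLj : ∀ j : ℕ, (1 : ℝ) ≤ (h : ℝ) ^ j := fun j => one_le_pow₀ hh1'
  have hsub : T ⊆ (Finset.range (w + 1)).biUnion fun j =>
      ((hshp _ (hLj j)).1.toFinset).biUnion fun P => T.filter fun f => Good f j P := by
    intro f hf
    obtain ⟨j, hj, P, hP, hg⟩ := hgood f hf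
    rw [Finset.mem_biUnion]
    refine ⟨j, Finset.mem_range.2 (Nat.lt_succ_of_le hj), ?_⟩
    rw [Finset.mem_biUnion]
    exact ⟨P, (Set.Finite.mem_toFinset _).2 hP, Finset.mem_filter.2 ⟨hf, hg⟩⟩
  have hcard : (T.card : ℝ) ≤ ∑ j ∈ Finset.range (w + 1),
      ∑ P ∈ (hshp _ (hLj j)).1.toFinset, ((T.filter fun f => Good f j P).card : ℝ) := by
    have h1 := (Finset.card_le_card hsub).trans (Finset.card_biUnion_le.trans
      (Finset.sum_le_sum fun j _ => Finset.card_biUnion_le))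
    exact_mod_cast h1
  have hj : ∀ j ∈ Finset.range (w + 1),
      ∑ P ∈ (hshp _ (hLj j)).1.toFinset, ((T.filter fun f => Good f j P).card : ℝ) ≤
        C2 * (C1 * C0) ^ r * (h : ℝ) ^ (w * W + (b - w + 1) * r) := by
    intro j hjr
    have hjw : j ≤ w := Nat.lt_succ_iff.1 (Finset.mem_range.1 hjr)
    have h1 : ∑ P ∈ (hshp _ (hLj j)).1.toFinset, ((T.filter fun f => Good f j P).card : ℝ) ≤
        ∑ _P ∈ (hshp _ (hLj j)).1.toFinset, (C1 * C0) ^ r * (h : ℝ) ^ ((b - j + 1) * r) :=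
      Finset.sum_le_sum fun P _ => hfib j hjw P
    rw [Finset.sum_const, nsmul_eq_mul, ← Set.ncard_eq_toFinset_card _ (hshp _ (hLj j)).1] at h1
    have h2 := (hshp _ (hLj j)).2
    have h3 : (0 : ℝ) ≤ (C1 * C0) ^ r * (h : ℝ) ^ ((b - j + 1) * r) := by positivity
    refine h1.trans ((mul_le_mul_of_nonneg_right h2 h3).trans ?_)
    rw [← pow_mul]
    have h4 : C2 * (h : ℝ) ^ (j * W) * ((C1 * C0) ^ r * (h : ℝ) ^ ((b - j + 1) * r)) =
        C2 * (C1 * C0) ^ r * (h : ℝ) ^ (j * W + (b - j + 1) * r) := by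
      rw [pow_add]
      ring
    rw [h4]
    refine mul_le_mul_of_nonneg_left (pow_le_pow_right₀ hh1' ?_) (by positivity)
    obtain ⟨d, rfl⟩ := Nat.exists_eq_add_of_le hjw
    have h5 : b - j + 1 = (b - (j + d) + 1) + d := by omega
    rw [h5]
    have h6 : d * r ≤ d * W := Nat.mul_le_mul_left d hr
    nlinarith
  refine hcard.trans ((Finset.sum_le_sum hj).trans (le_of_eq ?_))
  rw [Finset.sum_const, Finset.card_range, nsmul_eq_mul]
  push_cast
  ring

end Pool.Agent.H92.SQ2
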