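import Pool.Agent.H92.SQ2.Mult
import Pool.Agent.H92.SQ2.Low

/-!
# Project SQ2 (MP_a3214d): row S2-22

Few members of the family belong to a field without small elements.
-/

set_option autoImplicit false

open Polynomial Pool.Agent.H92.SQ

namespace Pool.Agent.H92.SQ2

theorem high_mult (n r : ℕ) (hn : 2 ≤ n) (C0 : ℝ) (hC0 : 1 ≤ C0) :
    ∃ C : ℝ, 1 ≤ C ∧ ∀ (h b w : ℕ) (a : ℤ), 1 ≤ h → w ≤ b → ∀ f : ℤ[X], f.natDegree = n →
      Irreducible (FQ f) →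
      (∃ (K : Type) (_ : Field K) (_ : NumberField K) (y : K), aeval y f = 0 ∧ SymK n K ∧
        Thin r (2 * n * (C0 * (h : ℝ) ^ b)) K ∧ ∀ z : K, Sh ((h : ℝ) ^ w) z → z = 0) →
      ∀ G : Finset ℤ[X], (∀ g ∈ G, Mb n (C0 * (h : ℝ) ^ b) a g ∧ Iso n f g) →
        (G.card : ℝ) ≤ C * (h : ℝ) ^ ((b - w) * r) := by
  obtain ⟨C, hC1, hC⟩ := mult_bound n r hn
  refine ⟨(C * C0) ^ r, one_le_pow₀ (one_le_mul_of_one_le_of_one_le hC1 hC0), ?_⟩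
  intro h b w a hh hwb f hfn hfi hK G hG
  obtain ⟨K, iF, iN, y, hy, hS, hT, hz⟩ := hK
  have hhR : (1 : ℝ) ≤ h := by exact_mod_cast hh
  have h0 : (0 : ℝ) < h := by linarith
  have hρ : (0 : ℝ) < (h : ℝ) ^ w := by positivity
  have hρR : (h : ℝ) ^ w ≤ C0 * (h : ℝ) ^ b := by
    have h1 : (h : ℝ) ^ w ≤ (h : ℝ) ^ b := pow_le_pow_right₀ hhR hwb
    have h2 : (0 : ℝ) ≤ (h : ℝ) ^ b := by positivity
    nlinarith
  have h1 := hC K hS.1 (C0 * (h : ℝ) ^ b) ((h : ℝ) ^ w) a hρ hρR hT hz G (by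
    intro g hg
    obtain ⟨hMb, K', iF', iN', x', y', hK'n, hx', hy'⟩ := hG g hg
    exact ⟨hMb, root_in hfn hfi hS.1 hK'n hy hx' hy'⟩)
  have h2 : C * (C0 * (h : ℝ) ^ b) / (h : ℝ) ^ w = C * C0 * (h : ℝ) ^ (b - w) := by
    rw [div_eq_iff hρ.ne', mul_assoc (C * C0), ← pow_add, Nat.sub_add_cancel hwb]
    ring
  rw [h2, mul_pow, ← pow_mul] at h1
  exact h1

end Pool.Agent.H92.SQ2
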