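import Pool.Agent.H92.SQ2.Defs

/-! Row S2-9: size of the roots. -/

set_option autoImplicit false

open Polynomial IsDedekindDomain NumberField Pool.Agent.H35.AN Pool.Agent.H92.SQ

namespace Pool.Agent.H92.SQ2

theorem root_bound (n N0 : ℕ) (s : ℤ[X]) (hn : 2 ≤ n) : ∃ C : ℝ, 1 ≤ C ∧ ∀ b h : ℕ, 1 ≤ h →
    ∀ f, Fam n N0 s b h f → ∀ z : ℂ, aeval z f = 0 → ‖z‖ ≤ C * (h : ℝ) ^ b := by
  refine ⟨|(s.coeff (n - 1) : ℝ)| + n, ?_, ?_⟩
  · have h1 : (2 : ℝ) ≤ n := by exact_mod_cast hn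
    have h2 := abs_nonneg (s.coeff (n - 1) : ℝ)
    linarith
  intro b h hh f hf z hz
  set H : ℝ := (h : ℝ) ^ b with hH
  have hH1 : 1 ≤ H := one_le_pow₀ (by exact_mod_cast hh)
  have hH0 : 0 < H := by linarith
  set S : ℝ := |(s.coeff (n - 1) : ℝ)| with hS
  have hS0 : 0 ≤ S := abs_nonneg _
  by_contra hlt
  rw [not_le] at hlt
  have hn1 : (2 : ℝ) ≤ n := by exact_mod_cast hn
  have hzH : H ≤ ‖z‖ := by nlinarith
  have hz0 : 0 < ‖z‖ := by linarith
  -- the equation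
  have heq : z ^ n = -∑ i ∈ Finset.range n, (f.coeff i : ℂ) * z ^ i := by
    have h1 := hz
    rw [aeval_eq_sum_range, hf.deg, Finset.sum_range_succ] at h1
    have h2 : f.coeff n = 1 := by
      rw [← hf.deg]
      exact hf.monic
    rw [h2] at h1
    simp only [zsmul_eq_mul, one_smul] at h1
    exact (neg_eq_of_add_eq_zero_right h1).symm
  have hle : ‖z‖ ^ n ≤ ∑ i ∈ Finset.range n, |(f.coeff i : ℝ)| * ‖z‖ ^ i := by
    rw [← norm_pow, heq, norm_neg]
    refine (norm_sum_le _ _).trans (le_of_eq (Finset.sum_congr rfl fun i _ => ?_))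
    rw [norm_mul, norm_pow, Complex.norm_intCast]
  obtain ⟨m, rfl⟩ : ∃ m, n = m + 1 := ⟨n - 1, by omega⟩
  simp only [Nat.add_sub_cancel] at hS
  rw [Finset.sum_range_succ] at hle
  have hlast : |(f.coeff m : ℝ)| * ‖z‖ ^ m ≤ S * H * ‖z‖ ^ m := by
    have h1 : f.coeff m = s.coeff m := by
      have := hf.snd
      simpa using this
    rw [h1, ← hS]
    refine mul_le_mul_of_nonneg_right ?_ (by positivity)
    nlinarith
  have hrest : ∑ i ∈ Finset.range m, |(f.coeff i : ℝ)| * ‖z‖ ^ i ≤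
      ∑ i ∈ Finset.range m, H * ‖z‖ ^ m := by
    refine Finset.sum_le_sum fun i hi => ?_
    have him : i < m := Finset.mem_range.1 hi
    have h1 : |(f.coeff i : ℝ)| ≤ H ^ (m + 1 - i) := by
      have h2 := hf.ht i (by omega)
      have h3 : ((|f.coeff i| : ℤ) : ℝ) ≤ (((h : ℤ) ^ (b * (m + 1 - i)) : ℤ) : ℝ) := by
        exact_mod_cast h2
      push_cast at h3
      rw [hH, ← pow_mul]
      exact h3
    have h4 : H ^ (m + 1 - i) = H * H ^ (m - i) := by
      rw [← pow_succ']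
      congr 1
      omega
    have h5 : H ^ (m - i) ≤ ‖z‖ ^ (m - i) := pow_le_pow_left₀ hH0.le hzH _
    have h6 : ‖z‖ ^ m = ‖z‖ ^ (m - i) * ‖z‖ ^ i := by
      rw [← pow_add]
      congr 1
      omega
    rw [h6, ← mul_assoc]
    refine mul_le_mul_of_nonneg_right ?_ (by positivity)
    rw [h4] at h1
    exact h1.trans (mul_le_mul_of_nonneg_left h5 hH0.le)
  rw [Finset.sum_const, Finset.card_range, nsmul_eq_mul] at hrest
  have hfin : ‖z‖ ^ m * ‖z‖ ≤ ‖z‖ ^ m * ((S + m) * H) := by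
    rw [← pow_succ]
    calc ‖z‖ ^ (m + 1) ≤ (m : ℝ) * (H * ‖z‖ ^ m) + S * H * ‖z‖ ^ m :=
          hle.trans (add_le_add hrest hlast)
      _ = _ := by ring
  have h7 : ‖z‖ ≤ (S + m) * H := le_of_mul_le_mul_left hfin (by positivity)
  push_cast at hlt
  nlinarith

end Pool.Agent.H92.SQ2
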