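import Pool.Agent.H92.SQ2.Ram
import Pool.Agent.H92.SQ2.Disc2
import Pool.Agent.H92.SQ2.Root
import Pool.Agent.H92.SQ.Group
import Pool.Agent.H92.SQ.Trans
import Pool.Agent.H35.AN.Basic

/-!
# Project SQ2 (MP_a3214d), S2-12: everything about one member of the family
-/

set_option autoImplicit false

open Polynomial IsDedekindDomain NumberField Pool.Agent.H35.AN Pool.Agent.H92.SQ

namespace Pool.Agent.H92.SQ2

private theorem s2_12_roots {n : ℕ} {f : ℤ[X]} (hf : f.natDegree = n) (hirr : Irreducible (FQ f)) :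
    Nonempty (Roots ℚ (AlgebraicClosure ℚ) n (FQ f)) := by
  have hd : (FQ f).natDegree = n := by
    unfold FQ
    rw [natDegree_map_eq_of_injective (Int.cast_injective : Function.Injective (Int.castRingHom ℚ)),
      hf]
  have hsep : (FQ f).Separable := hirr.separable
  refine an8_roots hd (leadingCoeff_ne_zero.2 hirr.ne_zero) ?_
  intro x hx hx'
  rw [eval_map_algebraMap] at hx hx'
  obtain ⟨u, v, huv⟩ := hsep
  have h1 := congrArg (aeval x) huv
  rw [map_add, map_mul, map_mul, hx, hx', mul_zero, mul_zero, add_zero, map_one] at h1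
  exact zero_ne_one h1

private theorem s2_12_aeval {A : Type} [Field A] [Algebra ℚ A] [Algebra ℤ A] (f : ℤ[X]) (x : A) :
    aeval x (FQ f) = aeval x f := by
  unfold FQ
  rw [aeval_def, aeval_def, eval₂_map]
  congr 1
  exact RingHom.ext_int _ _

private theorem s2_12_hom {A B : Type} [CommRing A] [CommRing B] [Algebra ℤ A] [Algebra ℤ B]
    (φ : A →+* B) (z : A) (f : ℤ[X]) : aeval (φ z) f = φ (aeval z f) := by
  rw [aeval_def, aeval_def, hom_eval₂]
  congr 1
  exact RingHom.ext_int _ _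

theorem mem_key (n : ℕ) (hn : 3 ≤ n) : ∃ (N0 : ℕ) (s : ℤ[X]) (C : ℝ), 0 < N0 ∧ s.Monic ∧
    s.natDegree = n ∧ 1 ≤ C ∧ ∀ b h : ℕ, 1 ≤ h → ∀ f, Fam n N0 s b h f →
      Irreducible (FQ f) ∧ (∀ z : ℂ, aeval z f = 0 → ‖z‖ ≤ C * (h : ℝ) ^ b) ∧
      (∀ m r : ℤ, 0 < m → m ^ 2 ∣ f.eval r → m ∣ f.derivative.eval r →
        (m : ℝ) ^ 2 ≤ C * (h : ℝ) ^ (b * n * (n - 1))) ∧
      ∃ x : AlgebraicClosure ℚ, aeval x f = 0 ∧
        IsSymField n (IntermediateField.adjoin ℚ {x}) ∧
        ∃ _ : NumberField (IntermediateField.adjoin ℚ {x}),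
          SymK n (IntermediateField.adjoin ℚ {x}) ∧
          |(NumberField.discr (IntermediateField.adjoin ℚ {x}) : ℝ)| ≤
            C * (h : ℝ) ^ (b * n * (n - 1)) ∧
          (∀ (m : ℕ) (r : ℤ), 0 < m → Dbl m r f →
            |(NumberField.discr (IntermediateField.adjoin ℚ {x}) : ℝ)| * (m : ℝ) ^ 2 ≤
              C * (h : ℝ) ^ (b * n * (n - 1))) ∧
          (∀ (l : ℕ) (r : ℤ), l.Prime → (l : ℤ) ∣ f.eval r → ¬ (l : ℤ) ^ 2 ∣ f.eval r →
            (l : ℤ) ∣ f.derivative.eval r →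
            (l : ℤ) ∣ NumberField.discr (IntermediateField.adjoin ℚ {x})) := by
  obtain ⟨M, s, hM, hsd, hsn, hkey⟩ := group_key n hn
  have hsm : s.Monic := by
    unfold Monic leadingCoeff
    rw [hsd, hsn]
  obtain ⟨C1, hC1, hroot⟩ := root_bound n M s (by omega)
  obtain ⟨C2, hC2, hdisc⟩ := disc_bound2 n (by omega)
  set C : ℝ := C1 + C2 * C1 ^ (n * (n - 1)) with hC
  have hC1p : 0 < C1 := by linarith
  have hpos : 0 < C2 * C1 ^ (n * (n - 1)) := by positivity
  refine ⟨M, s, C, hM, hsm, hsd, by linarith, ?_⟩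
  intro b h hh f hf
  obtain ⟨hirr, hgrp⟩ := hkey f 1 hf.deg isCoprime_one_left (fun i => by
    rw [one_mul]
    exact hf.cong i)
  have hhR : (1 : ℝ) ≤ (h : ℝ) ^ b := one_le_pow₀ (by exact_mod_cast hh)
  have hR1 : 1 ≤ C1 * (h : ℝ) ^ b := by nlinarith
  obtain ⟨R⟩ := s2_12_roots hf.deg hirr
  have hn0 : 0 < n := by omega
  set x : AlgebraicClosure ℚ := R.θ ⟨0, hn0⟩ with hx
  have hxf : aeval x f = 0 := by
    have h1 := R.eval_root ⟨0, hn0⟩
    rw [eval_map_algebraMap, s2_12_aeval] at h1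
    exact h1
  have hsym : IsSymField n (IntermediateField.adjoin ℚ {x}) :=
    transport_sym (by omega) R hgrp ⟨0, hn0⟩
  have hfr : Module.finrank ℚ (IntermediateField.adjoin ℚ {x}) = n := hsym.1
  have hNF : NumberField (IntermediateField.adjoin ℚ {x}) :=
    { to_charZero := inferInstance
      to_finiteDimensional := Module.finite_of_finrank_pos (by
        rw [hfr]
        exact hn0) }
  set K := IntermediateField.adjoin ℚ {x} with hK
  set θ : K := ⟨x, IntermediateField.mem_adjoin_simple_self ℚ x⟩ with hθ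
  have hθf : aeval θ f = 0 := by
    have h1 := s2_12_hom (algebraMap K (AlgebraicClosure ℚ)) θ f
    have h2 : algebraMap K (AlgebraicClosure ℚ) θ = x := rfl
    rw [h2, hxf] at h1
    exact (map_eq_zero _).1 h1.symm
  have hθR : ∀ φ : K →+* ℂ, ‖φ θ‖ ≤ C1 * (h : ℝ) ^ b := by
    intro φ
    refine hroot b h hh f hf (φ θ) ?_
    rw [s2_12_hom, hθf, map_zero]
  have hfin : NumberField K := hNF
  have hmain : ∀ m r : ℤ, 0 < m → m ^ 2 ∣ f.eval r → m ∣ f.derivative.eval r →
      |(NumberField.discr K : ℝ)| * (m : ℝ) ^ 2 ≤ C * (h : ℝ) ^ (b * n * (n - 1)) := by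
    intro m r hm h1 h2
    have h3 := hdisc K f θ (C1 * (h : ℝ) ^ b) m r hf.deg hf.monic hfr hirr hθf hR1 hθR hm h1 h2
    refine le_trans h3 ?_
    rw [mul_pow, ← pow_mul, ← mul_assoc, ← mul_assoc]
    apply mul_le_mul_of_nonneg_right _ (by positivity)
    rw [hC]
    linarith
  have hdisc1 : (1 : ℝ) ≤ |(NumberField.discr K : ℝ)| := by
    have h1 : (1 : ℤ) ≤ |NumberField.discr K| := Int.one_le_abs (NumberField.discr_ne_zero K)
    exact_mod_cast h1
  refine ⟨hirr, ?_, ?_, x, hxf, hsym, hNF, hsym, ?_, ?_, ?_⟩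
  · intro z hz
    refine le_trans (hroot b h hh f hf z hz) ?_
    apply mul_le_mul_of_nonneg_right _ (by positivity)
    linarith
  · intro m r hm h1 h2
    refine le_trans ?_ (hmain m r hm h1 h2)
    have : 0 ≤ (m : ℝ) ^ 2 := by positivity
    nlinarith
  · have h1 := hmain 1 0 one_pos (by simp) (by simp)
    simpa using h1
  · intro m r hm h1
    have h2 := hmain (m : ℤ) r (by exact_mod_cast hm) h1.1 h1.2
    simpa using h2
  · intro l r hl h1 h2 h3
    exact ramified (by omega) K hfr hf.deg hf.monic hirr hθf hl h1 h2 h3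

end Pool.Agent.H92.SQ2
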