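import Pool.Agent.H92.SQ2.Few
import Pool.Agent.H92.SQ2.FamC
import Pool.Agent.H92.SQ2.MemK
import Pool.Agent.H92.SQ2.DiscS
import Pool.Agent.H92.SQ2.Low
import Pool.Agent.H92.SQ2.High
import Pool.Agent.H92.SQ2.Class2

/-!
# Project SQ2, row S2-24: the number of fields from the family
-/

set_option autoImplicit false

open Polynomial IsDedekindDomain NumberField Pool.Agent.H35.AN Pool.Agent.H92.SQ

namespace Pool.Agent.H92.SQ2

/-- a field with a large discriminant is thin -/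
theorem s2_24_thin (n r b v : ℕ) (hv2 : 2 * b * gg n (r + 1) < v) (C0 : ℝ)
    (hC0 : 1 ≤ C0) (hn : 1 ≤ n) : ∃ h0 : ℕ, ∀ h : ℕ, h0 ≤ h → ∀ (K : Type) [Field K]
      [NumberField K], SymK n K → (h : ℝ) ^ v ≤ |(NumberField.discr K : ℝ)| →
      Thin r (2 * n * (C0 * (h : ℝ) ^ b)) K := by
  obtain ⟨C1, hC1, hd⟩ := disc_small n (r + 1) (by omega)
  set G := gg n (r + 1) with hG
  obtain ⟨h0, hh0⟩ := exists_nat_gt (C1 * (2 * n * C0) ^ (2 * G))
  refine ⟨max h0 1, fun h hh K _ _ hK hD z hz hli => ?_⟩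
  have hh1 : (1 : ℝ) ≤ h := by exact_mod_cast (le_max_right h0 1).trans hh
  have hh2 : C1 * (2 * n * C0) ^ (2 * G) < h := by
    refine hh0.trans_le ?_
    exact_mod_cast (le_max_left h0 1).trans hh
  have hn1 : (1 : ℝ) ≤ n := by exact_mod_cast hn
  have hhb : (1 : ℝ) ≤ (h : ℝ) ^ b := one_le_pow₀ hh1
  have hR : (1 : ℝ) ≤ 2 * n * (C0 * (h : ℝ) ^ b) := by
    have h1 : (1 : ℝ) ≤ C0 * (h : ℝ) ^ b := one_le_mul_of_one_le_of_one_le hC0 hhb
    nlinarith
  have h1 := hd K hK _ hR z hz hli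
  have h2 : C1 * (2 * n * (C0 * (h : ℝ) ^ b)) ^ (2 * G) =
      C1 * (2 * n * C0) ^ (2 * G) * (h : ℝ) ^ (2 * b * G) := by
    have e : 2 * (n : ℝ) * (C0 * (h : ℝ) ^ b) = (2 * n * C0) * (h : ℝ) ^ b := by ring
    rw [e, mul_pow, ← pow_mul]
    have e2 : b * (2 * G) = 2 * b * G := by ring
    rw [e2]
    ring
  have hpos : (0 : ℝ) < (h : ℝ) ^ (2 * b * G) := by positivity
  have h3 : (h : ℝ) ^ (2 * b * G + 1) ≤ (h : ℝ) ^ v := pow_le_pow_right₀ hh1 (by omega)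
  have h4 : (h : ℝ) ^ (2 * b * G + 1) ≤ C1 * (2 * n * C0) ^ (2 * G) * (h : ℝ) ^ (2 * b * G) := by
    rw [← h2]
    exact h3.trans (hD.trans h1)
  rw [pow_succ, mul_comm] at h4
  have h5 := le_of_mul_le_mul_right h4 hpos
  linarith

theorem field_count2 (n r b u v w : ℕ) (hn : 4 ≤ n) (hr : 1 ≤ r) (hrn : r + 2 ≤ n) (hb : 1 ≤ b)
    (hu : 1 ≤ u) (hv : 1 ≤ v) (huv : u ≠ v)
    (hc1 : b * (n - 2 - (n - 2) / 2) * (n - 2 - (n - 2) / 2 + 1) + 8 ≤ 2 * (u + v))
    (hc2 : 2 * n * (u + v) + 2 * (n + 14) * (((n - 2) / 2 + 1) * (n - 2 - (n - 2) / 2 + 1)) ≤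
      b * (n + 2) * (((n - 2) / 2 + 1) * (n - 2 - (n - 2) / 2 + 1)))
    (hv2 : 2 * b * gg n (r + 1) < v) (hw : w ≤ b)
    (hw2 : w * (n * (n + 1) / 2 - 1) + (b - w + 1) * r + u + 4 ≤ b * (n * (n + 1) / 2 - 1)) :
    ∃ c C : ℝ, 0 < c ∧ 0 < C ∧ ∃ h0 : ℕ, ∀ h : ℕ, h0 ≤ h →
      c * (h : ℝ) ^ (b * (n * (n + 1) / 2 - 1) - u - 3 - (b - w) * r) ≤
        (malleCount ℚ n ⊤ (C * (h : ℝ) ^ (b * n * (n - 1) - 2 * u)) : ℝ) := by
  classical
  obtain ⟨N0, s, C0, hN0, hs, hsn, hC0, hmem⟩ := mem_key n (by omega)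
  obtain ⟨hm1, hfm⟩ := few_m n b u hu C0
  obtain ⟨hl1, hfl⟩ := few_l n b v hv C0
  have hfew : ∃ h0 : ℕ, ∀ h ≥ h0, ∀ f, Fam n N0 s b h f →
      ((PR h u).filter fun m : ℕ => ∃ x : ℤ, Dbl m x f).card ≤ b * n * (n - 1) ∧
      ((PR h v).filter fun l : ℕ => ∃ x : ℤ, (l : ℤ) ∣ f.eval x ∧ ¬ (l : ℤ) ^ 2 ∣ f.eval x ∧
        (l : ℤ) ∣ f.derivative.eval x).card ≤ b * n * (n - 1) + 1 := by
    refine ⟨max (max hm1 hl1) 1, fun h hh f hf => ?_⟩
    have hhm : hm1 ≤ h := (le_max_left _ _).trans ((le_max_left _ _).trans hh)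
    have hhl : hl1 ≤ h := (le_max_right _ _).trans ((le_max_left _ _).trans hh)
    have hh1 : 1 ≤ h := (le_max_right _ _).trans hh
    obtain ⟨-, -, hdm, x, -, -, hnf, -, hD, -, hdl⟩ := hmem b h hh1 f hf
    refine ⟨hfm h hhm f hdm, ?_⟩
    refine le_trans (Finset.card_le_card ?_) (hfl h hhl
      (NumberField.discr (IntermediateField.adjoin ℚ {x}))
      (NumberField.discr_ne_zero _) hD)
    intro l hl
    rw [Finset.mem_filter] at hl ⊢
    refine ⟨hl.1, ?_⟩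
    obtain ⟨y, h1, h2, h3⟩ := hl.2
    have hlp : l.Prime := (Finset.mem_filter.1 hl.1).2.1
    exact hdl l y hlp h1 h2 h3
  obtain ⟨c1, hc10, hf1, hfam⟩ := fam_count n N0 b u v _ _ s hn hN0 hs hsn hb hu hv huv hc1 hc2
    hfew
  obtain ⟨ht1, hthin⟩ := s2_24_thin n r b v hv2 C0 hC0 (by omega)
  obtain ⟨C2, hC2, hlow⟩ := low_count n r (by omega) (by
    have : n ≤ n * (n + 1) / 2 := by
      rw [Nat.le_div_iff_mul_le (by norm_num)]
      nlinarith
    omega) C0 hC0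
  obtain ⟨C3, hC3, hhigh⟩ := high_mult n r (by omega) C0 hC0
  set W := n * (n + 1) / 2 - 1 with hW
  obtain ⟨hk1, hhk⟩ := exists_nat_gt (2 * (C2 * (w + 1)) / c1)
  refine ⟨c1 / (2 * C3), C0, by positivity, by linarith,
    max (max hf1 ht1) (max hk1 2), fun h hh => ?_⟩
  have hhf : hf1 ≤ h := (le_max_left _ _).trans ((le_max_left _ _).trans hh)
  have hht : ht1 ≤ h := (le_max_right _ _).trans ((le_max_left _ _).trans hh)
  have hhk' : hk1 ≤ h := (le_max_left _ _).trans ((le_max_right _ _).trans hh)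
  have hh2 : 2 ≤ h := (le_max_right _ _).trans ((le_max_right _ _).trans hh)
  have hh1 : (1 : ℝ) ≤ h := by
    have : (2 : ℝ) ≤ h := by exact_mod_cast hh2
    linarith
  have hh0 : (0 : ℝ) < h := by linarith
  obtain ⟨T, hT, hTc⟩ := hfam h hhf
  set B : ℝ := C0 * (h : ℝ) ^ (b * n * (n - 1) - 2 * u) with hB
  -- everything about one member
  have hone : ∀ f ∈ T, Mb n (C0 * (h : ℝ) ^ b) (s.coeff (n - 1)) f ∧
      ∃ x : AlgebraicClosure ℚ, aeval x f = 0 ∧
        IsSymField n (IntermediateField.adjoin ℚ {x}) ∧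
        ∃ _ : NumberField (IntermediateField.adjoin ℚ {x}),
          SymK n (IntermediateField.adjoin ℚ {x}) ∧
          |(NumberField.discr (IntermediateField.adjoin ℚ {x}) : ℝ)| ≤ B ∧
          Thin r (2 * n * (C0 * (h : ℝ) ^ b)) (IntermediateField.adjoin ℚ {x}) := by
    intro f hf
    obtain ⟨hF, m, hm, l, hl, y, hpl⟩ := hT f hf
    obtain ⟨hirr, hrt, -, x, hx, hsym, hnf, hsk, -, hDm, hDl⟩ := hmem b h (by omega) f hF
    refine ⟨⟨hF.deg, hF.monic, hF.snd, hirr, hrt⟩, x, hx, hsym, hnf, hsk, ?_, ?_⟩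
    · have hm' := (Finset.mem_filter.1 hm).2
      have hmpos : 0 < m := hm'.1.pos
      have h1 := hDm m y hmpos ⟨hpl.m2, hpl.m1⟩
      have h2 : (h : ℝ) ^ u ≤ m := by exact_mod_cast hm'.2.le
      have h3 : (h : ℝ) ^ (2 * u) ≤ (m : ℝ) ^ 2 := by
        rw [mul_comm, pow_mul]
        exact pow_le_pow_left₀ (by positivity) h2 2
      have h4 : (h : ℝ) ^ (b * n * (n - 1)) ≤
          (h : ℝ) ^ (b * n * (n - 1) - 2 * u) * (h : ℝ) ^ (2 * u) := by
        rw [← pow_add]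
        exact pow_le_pow_right₀ hh1 (by omega)
      have h5 : (0 : ℝ) < (h : ℝ) ^ (2 * u) := by positivity
      refine le_of_mul_le_mul_right ?_ h5
      calc |(NumberField.discr (IntermediateField.adjoin ℚ {x}) : ℝ)| * (h : ℝ) ^ (2 * u) ≤
          |(NumberField.discr (IntermediateField.adjoin ℚ {x}) : ℝ)| * (m : ℝ) ^ 2 :=
            mul_le_mul_of_nonneg_left h3 (abs_nonneg _)
        _ ≤ C0 * (h : ℝ) ^ (b * n * (n - 1)) := h1
        _ ≤ C0 * ((h : ℝ) ^ (b * n * (n - 1) - 2 * u) * (h : ℝ) ^ (2 * u)) :=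
            mul_le_mul_of_nonneg_left h4 (by linarith)
        _ = B * (h : ℝ) ^ (2 * u) := by rw [hB]; ring
    · have hl' := (Finset.mem_filter.1 hl).2
      refine hthin h hht _ hsk ?_
      have h1 := hDl l y hl'.1 hpl.l1 hpl.l2 hpl.l3
      have h2 : (l : ℤ) ≤ |NumberField.discr (IntermediateField.adjoin ℚ {x})| :=
        Int.le_of_dvd (abs_pos.2 (NumberField.discr_ne_zero _)) ((dvd_abs _ _).2 h1)
      have h3 : (l : ℝ) ≤ |(NumberField.discr (IntermediateField.adjoin ℚ {x}) : ℝ)| := by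
        exact_mod_cast h2
      have h4 : (h : ℝ) ^ v ≤ l := by exact_mod_cast hl'.2.le
      exact h4.trans h3
  -- the low part
  set P : ℤ[X] → Prop := fun f => ∃ (K : Type) (_ : Field K) (_ : NumberField K) (y : K),
    aeval y f = 0 ∧ SymK n K ∧ Thin r (2 * n * (C0 * (h : ℝ) ^ b)) K ∧
      ∃ z : K, z ≠ 0 ∧ Sh ((h : ℝ) ^ w) z with hP
  have hTl : ((T.filter P).card : ℝ) ≤ c1 / 2 * (h : ℝ) ^ (b * W - u - 3) := by
    have h1 := hlow h b w (s.coeff (n - 1)) hh2 hw (T.filter P) (fun f hf => by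
      rw [Finset.mem_filter] at hf
      exact ⟨(hone f hf.1).1, hf.2⟩)
    have h2 : (h : ℝ) ^ (w * W + (b - w + 1) * r) ≤ (h : ℝ) ^ (b * W - u - 4) :=
      pow_le_pow_right₀ hh1 (by omega)
    have h3 : (h : ℝ) ^ (b * W - u - 3) = (h : ℝ) ^ (b * W - u - 4) * h := by
      rw [← pow_succ]
      congr 1
      omega
    have h4 : C2 * (w + 1) ≤ c1 / 2 * h := by
      have h5 : 2 * (C2 * (w + 1)) / c1 < h := hhk.trans_le (by exact_mod_cast hhk')
      rw [div_lt_iff₀ hc10] at h5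
      linarith
    have h6 : (0 : ℝ) < (h : ℝ) ^ (b * W - u - 4) := by positivity
    calc ((T.filter P).card : ℝ) ≤ C2 * (w + 1) * (h : ℝ) ^ (w * W + (b - w + 1) * r) := h1
      _ ≤ C2 * (w + 1) * (h : ℝ) ^ (b * W - u - 4) :=
          mul_le_mul_of_nonneg_left h2 (by positivity)
      _ ≤ c1 / 2 * h * (h : ℝ) ^ (b * W - u - 4) := mul_le_mul_of_nonneg_right h4 h6.le
      _ = c1 / 2 * (h : ℝ) ^ (b * W - u - 3) := by rw [h3]; ring
  have hTh : c1 / 2 * (h : ℝ) ^ (b * W - u - 3) ≤ ((T.filter fun f => ¬ P f).card : ℝ) := by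
    have h1 : (T.filter P).card + (T.filter fun f => ¬ P f).card = T.card :=
      Finset.card_filter_add_card_filter_not P
    have h2 : ((T.filter P).card : ℝ) + ((T.filter fun f => ¬ P f).card : ℝ) = T.card := by
      exact_mod_cast h1
    linarith
  -- the high part
  set N : ℕ := ⌊C3 * (h : ℝ) ^ ((b - w) * r)⌋₊ with hN
  have hcls := class_sym n B (T.filter fun f => ¬ P f) N (fun f hf => by
      rw [Finset.mem_filter] at hf
      obtain ⟨hMb, x, hx, hsym, hnf, -, hD, -⟩ := hone f hf.1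
      exact ⟨hMb.deg, hMb.irr, x, hx, hsym, hnf, hD⟩) (fun f hf G hG hiso => by
      rw [Finset.mem_filter] at hf
      obtain ⟨hMb, x, hx, -, hnf, hsk, -, hth⟩ := hone f hf.1
      rw [hN]
      refine Nat.le_floor ?_
      refine hhigh h b w (s.coeff (n - 1)) (by omega) hw f hMb.deg hMb.irr ?_ G ?_
      · refine ⟨IntermediateField.adjoin ℚ {x}, inferInstance, hnf,
          IntermediateField.AdjoinSimple.gen ℚ x, ?_, hsk, hth, ?_⟩
        · apply (algebraMap (IntermediateField.adjoin ℚ {x}) (AlgebraicClosure ℚ)).injective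
          rw [map_zero, ← hx]
          conv_rhs => rw [← IntermediateField.AdjoinSimple.algebraMap_gen ℚ x]
          rw [aeval_def, aeval_def, hom_eval₂]
          congr 1
        · intro z hz
          by_contra hz0
          refine hf.2 ⟨IntermediateField.adjoin ℚ {x}, inferInstance, hnf,
            IntermediateField.AdjoinSimple.gen ℚ x, ?_, hsk, hth, z, hz0, hz⟩
          apply (algebraMap (IntermediateField.adjoin ℚ {x}) (AlgebraicClosure ℚ)).injective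
          rw [map_zero, ← hx]
          conv_rhs => rw [← IntermediateField.AdjoinSimple.algebraMap_gen ℚ x]
          rw [aeval_def, aeval_def, hom_eval₂]
          congr 1
      · intro g hg
        have hgT := (Finset.mem_filter.1 (hG hg)).1
        exact ⟨(hone g hgT).1, hiso g hg⟩)
  have h1 : ((T.filter fun f => ¬ P f).card : ℝ) ≤
      C3 * (h : ℝ) ^ ((b - w) * r) * (malleCount ℚ n ⊤ B : ℝ) := by
    have h2 : ((T.filter fun f => ¬ P f).card : ℝ) ≤ (N : ℝ) * (malleCount ℚ n ⊤ B : ℝ) := by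
      exact_mod_cast hcls
    refine h2.trans (mul_le_mul_of_nonneg_right ?_ (Nat.cast_nonneg _))
    exact Nat.floor_le (by positivity)
  have h2 : (h : ℝ) ^ (b * W - u - 3) =
      (h : ℝ) ^ (b * W - u - 3 - (b - w) * r) * (h : ℝ) ^ ((b - w) * r) := by
    rw [← pow_add]
    congr 1
    have h3 : (b - w + 1) * r = (b - w) * r + r := by ring
    omega
  have h3 : (0 : ℝ) < (h : ℝ) ^ ((b - w) * r) := by positivity
  have h4 := hTh.trans h1
  rw [h2] at h4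
  have h5 : c1 / 2 * (h : ℝ) ^ (b * W - u - 3 - (b - w) * r) ≤
      C3 * (malleCount ℚ n ⊤ B : ℝ) := by
    refine le_of_mul_le_mul_right ?_ h3
    calc c1 / 2 * (h : ℝ) ^ (b * W - u - 3 - (b - w) * r) * (h : ℝ) ^ ((b - w) * r) =
        c1 / 2 * ((h : ℝ) ^ (b * W - u - 3 - (b - w) * r) * (h : ℝ) ^ ((b - w) * r)) := by ring
      _ ≤ C3 * (h : ℝ) ^ ((b - w) * r) * (malleCount ℚ n ⊤ B : ℝ) := h4
      _ = C3 * (malleCount ℚ n ⊤ B : ℝ) * (h : ℝ) ^ ((b - w) * r) := by ring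
  have h6 : c1 / (2 * C3) * (h : ℝ) ^ (b * W - u - 3 - (b - w) * r) =
      (c1 / 2 * (h : ℝ) ^ (b * W - u - 3 - (b - w) * r)) / C3 := by
    have : C3 ≠ 0 := by linarith
    field_simp
  rw [h6, div_le_iff₀ (by linarith)]
  linarith

end Pool.Agent.H92.SQ2
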