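import Pool.Agent.H92.SQ2.Defs

/-!
# Project SQ2 (MP_a3214d), row S2-1

A fixed nonzero polynomial in the box vanishes at few residues modulo products of two primes.
-/

set_option autoImplicit false

open Polynomial

namespace Pool.Agent.H92.SQ2

/-- few large primes divide a fixed nonzero integer -/
private theorem s2_1_few_dvd {h K : ℕ} (hh : 2 ≤ h) {a : ℤ} (ha : a ≠ 0)
    (hK : |a| ≤ (h : ℤ) ^ K) (S : Finset ℕ) (hS : ∀ p ∈ S, p.Prime ∧ h ≤ p ∧ (p : ℤ) ∣ a) :
    S.card ≤ K := by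
  have h1 : (∏ p ∈ S, p) ∣ a.natAbs := by
    refine Finset.prod_primes_dvd _ (fun p hp => (hS p hp).1.prime) fun p hp => ?_
    exact Int.natCast_dvd.mp (hS p hp).2.2
  have h2 : (∏ p ∈ S, p) ≤ a.natAbs := Nat.le_of_dvd (Int.natAbs_pos.mpr ha) h1
  have h3 : h ^ S.card ≤ ∏ p ∈ S, p := Finset.pow_card_le_prod _ _ _ fun p hp => (hS p hp).2.1
  have h4 : a.natAbs ≤ h ^ K := by
    have h5 : (a.natAbs : ℤ) ≤ (h : ℤ) ^ K := by rw [Int.natCast_natAbs]; exact hK
    exact_mod_cast h5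
  exact (Nat.pow_le_pow_iff_right (by omega)).mp (h3.trans (h2.trans h4))

/-- a polynomial which is not zero modulo `p` has few roots modulo `p` -/
private theorem s2_1_few_roots {p d : ℕ} (hp : p.Prime) {g : ℤ[X]} (hd : g.natDegree ≤ d) {i : ℕ}
    (hi : ¬ (p : ℤ) ∣ g.coeff i) :
    ((Finset.range p).filter fun x : ℕ => (p : ℤ) ∣ g.eval (x : ℤ)).card ≤ d := by
  classical
  have : Fact p.Prime := ⟨hp⟩
  set G : (ZMod p)[X] := g.map (Int.castRingHom (ZMod p)) with hG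
  have hG0 : G ≠ 0 := by
    intro h0
    apply hi
    have h1 : G.coeff i = 0 := by rw [h0, coeff_zero]
    rw [hG, coeff_map] at h1
    exact (ZMod.intCast_zmod_eq_zero_iff_dvd _ _).mp h1
  have h1 : ((Finset.range p).filter fun x : ℕ => (p : ℤ) ∣ g.eval (x : ℤ)).card ≤
      G.roots.toFinset.card := by
    refine Finset.card_le_card_of_injOn (fun x : ℕ => (x : ZMod p)) ?_ ?_
    · intro x hx
      rw [Finset.mem_coe, Finset.mem_filter] at hx
      rw [Finset.mem_coe, Multiset.mem_toFinset, mem_roots hG0, IsRoot.def]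
      have h2 : G.eval (((x : ℤ) : ZMod p)) = ((g.eval (x : ℤ) : ℤ) : ZMod p) := by
        rw [hG, eval_intCast_map]
        rfl
      have h3 : ((g.eval (x : ℤ) : ℤ) : ZMod p) = 0 :=
        (ZMod.intCast_zmod_eq_zero_iff_dvd _ _).mpr hx.2
      rw [h3] at h2
      rwa [Int.cast_natCast] at h2
    · intro x hx y hy hxy
      rw [Finset.mem_coe, Finset.mem_filter, Finset.mem_range] at hx hy
      have h2 := (ZMod.natCast_eq_natCast_iff' x y p).mp hxy
      rwa [Nat.mod_eq_of_lt hx.1, Nat.mod_eq_of_lt hy.1] at h2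
  have h2 : G.roots.toFinset.card ≤ G.natDegree :=
    (Multiset.toFinset_card_le _).trans (card_roots' G)
  have h3 : G.natDegree ≤ g.natDegree := natDegree_map_le
  omega

/-- the sum over one family of primes -/
private theorem s2_1_sum {h b d ρ u : ℕ} (hu : 1 ≤ u) (hh : 2 ≤ h) {g : ℤ[X]} (hg : g ≠ 0)
    (hbox : InBox h b d ρ g) :
    ∑ m ∈ PR h u, ((Finset.range m).filter fun x : ℕ => (m : ℤ) ∣ g.eval (x : ℤ)).card ≤
      (9 * d + 8 * (ρ + b * d)) * h ^ u := by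
  classical
  have hhu : h ≤ h ^ u := Nat.le_self_pow (by omega) h
  have hpos : 1 ≤ h ^ u := by omega
  rw [← Finset.sum_filter_add_sum_filter_not (PR h u) (fun m : ℕ => ∀ i, (m : ℤ) ∣ g.coeff i)]
  have hlc : g.leadingCoeff ≠ 0 := leadingCoeff_ne_zero.mpr hg
  -- the primes which divide `g`
  have h1 : ((PR h u).filter fun m : ℕ => ∀ i, (m : ℤ) ∣ g.coeff i).card ≤ ρ + b * d := by
    refine s2_1_few_dvd hh (a := g.leadingCoeff) hlc ?_ _ ?_
    · refine (hbox.2 _ hbox.1).trans ?_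
      refine pow_le_pow_right₀ (by exact_mod_cast (by omega : 1 ≤ h)) ?_
      have : b * (d - g.natDegree) ≤ b * d := Nat.mul_le_mul_left _ (Nat.sub_le _ _)
      omega
    · intro p hp
      rw [Finset.mem_filter, PR, Finset.mem_filter, Finset.mem_range] at hp
      exact ⟨hp.1.2.1, by omega, hp.2 _⟩
  have h2 : ∑ m ∈ (PR h u).filter (fun m : ℕ => ∀ i, (m : ℤ) ∣ g.coeff i),
      ((Finset.range m).filter fun x : ℕ => (m : ℤ) ∣ g.eval (x : ℤ)).card ≤
      (ρ + b * d) * (8 * h ^ u) := by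
    refine (Finset.sum_le_card_nsmul _ _ (8 * h ^ u) ?_).trans ?_
    · intro m hm
      rw [Finset.mem_filter, PR, Finset.mem_filter, Finset.mem_range] at hm
      refine (Finset.card_filter_le _ _).trans ?_
      rw [Finset.card_range]
      omega
    · rw [smul_eq_mul]
      exact Nat.mul_le_mul_right _ h1
  -- the others
  have h3 : ∑ m ∈ (PR h u).filter (fun m : ℕ => ¬ ∀ i, (m : ℤ) ∣ g.coeff i),
      ((Finset.range m).filter fun x : ℕ => (m : ℤ) ∣ g.eval (x : ℤ)).card ≤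
      (9 * h ^ u) * d := by
    refine (Finset.sum_le_card_nsmul _ _ d ?_).trans ?_
    · intro m hm
      rw [Finset.mem_filter, PR, Finset.mem_filter, Finset.mem_range] at hm
      obtain ⟨i, hi⟩ := not_forall.mp hm.2
      exact s2_1_few_roots hm.1.2.1 hbox.1 hi
    · rw [smul_eq_mul]
      refine Nat.mul_le_mul_right _ ?_
      refine (Finset.card_filter_le _ _).trans ?_
      refine (Finset.card_filter_le _ _).trans ?_
      rw [Finset.card_range]
      omega
  have h4 : (ρ + b * d) * (8 * h ^ u) + (9 * h ^ u) * d =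
      (9 * d + 8 * (ρ + b * d)) * h ^ u := by ring
  omega

/-- the Chinese remainder theorem -/
private theorem s2_1_crt {m l : ℕ} (hml : Nat.Coprime m l) (hm : 0 < m) (hl : 0 < l) (g : ℤ[X]) :
    ((Finset.range (m * l)).filter fun x : ℕ => ((m * l : ℕ) : ℤ) ∣ g.eval (x : ℤ)).card ≤
      ((Finset.range m).filter fun x : ℕ => (m : ℤ) ∣ g.eval (x : ℤ)).card *
        ((Finset.range l).filter fun x : ℕ => (l : ℤ) ∣ g.eval (x : ℤ)).card := by
  classical
  have hkey : ∀ (p x : ℕ), (p : ℤ) ∣ g.eval (x : ℤ) → (p : ℤ) ∣ g.eval ((x % p : ℕ) : ℤ) := by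
    intro p x hx
    have h1 : (x : ℤ) - ((x % p : ℕ) : ℤ) ∣ g.eval (x : ℤ) - g.eval ((x % p : ℕ) : ℤ) :=
      sub_dvd_eval_sub _ _ _
    have h2 : (p : ℤ) ∣ (x : ℤ) - ((x % p : ℕ) : ℤ) := by
      refine ⟨((x / p : ℕ) : ℤ), ?_⟩
      have h3 := Nat.div_add_mod x p
      have h4 : (p : ℤ) * ((x / p : ℕ) : ℤ) + ((x % p : ℕ) : ℤ) = (x : ℤ) := by exact_mod_cast h3
      linarith
    exact (dvd_sub_right hx).mp (h2.trans h1)
  rw [← Finset.card_product]
  refine Finset.card_le_card_of_injOn (fun x : ℕ => (x % m, x % l)) ?_ ?_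
  · intro x hx
    rw [Finset.mem_coe, Finset.mem_filter] at hx
    rw [Finset.mem_coe, Finset.mem_product, Finset.mem_filter, Finset.mem_filter,
      Finset.mem_range, Finset.mem_range]
    have h1 : (m : ℤ) ∣ g.eval (x : ℤ) := by
      refine Dvd.dvd.trans ?_ hx.2
      exact ⟨(l : ℤ), by push_cast; ring⟩
    have h2 : (l : ℤ) ∣ g.eval (x : ℤ) := by
      refine Dvd.dvd.trans ?_ hx.2
      exact ⟨(m : ℤ), by push_cast; ring⟩
    exact ⟨⟨Nat.mod_lt _ hm, hkey m x h1⟩, ⟨Nat.mod_lt _ hl, hkey l x h2⟩⟩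
  · intro x hx y hy hxy
    rw [Finset.mem_coe, Finset.mem_filter, Finset.mem_range] at hx hy
    simp only [Prod.mk.injEq] at hxy
    have h1 : x ≡ y [MOD m * l] := (Nat.modEq_and_modEq_iff_modEq_mul hml).mp ⟨hxy.1, hxy.2⟩
    have h2 : x % (m * l) = y % (m * l) := h1
    rwa [Nat.mod_eq_of_lt hx.1, Nat.mod_eq_of_lt hy.1] at h2

theorem pairs_fixed (d ρ b u v : ℕ) (hu : 1 ≤ u) (hv : 1 ≤ v) (huv : u ≠ v) :
    ∃ C h0 : ℕ, ∀ h ≥ h0, ∀ g : ℤ[X], g ≠ 0 → InBox h b d ρ g →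
      (∑ m ∈ PR h u, ∑ l ∈ PR h v,
        ((Finset.range (m * l)).filter fun x : ℕ => ((m * l : ℕ) : ℤ) ∣ g.eval (x : ℤ)).card) ≤
        C * h ^ (u + v) := by
  classical
  refine ⟨(9 * d + 8 * (ρ + b * d)) * (9 * d + 8 * (ρ + b * d)), 9, fun h hh g hg hbox => ?_⟩
  have hne : ∀ m ∈ PR h u, ∀ l ∈ PR h v, m ≠ l := by
    have key : ∀ a c : ℕ, a < c → ∀ m ∈ PR h a, ∀ l ∈ PR h c, m < l := by
      intro a c hac m hm l hl
      rw [PR, Finset.mem_filter, Finset.mem_range] at hm hl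
      have h1 : h ^ (a + 1) ≤ h ^ c := Nat.pow_le_pow_right (by omega) hac
      have h2 : 8 * h ^ a ≤ h ^ (a + 1) := by
        rw [pow_succ, mul_comm (h ^ a) h]
        exact Nat.mul_le_mul_right _ (by omega)
      omega
    intro m hm l hl
    rcases Nat.lt_or_gt_of_ne huv with h1 | h1
    · exact (key u v h1 m hm l hl).ne
    · exact (key v u h1 l hl m hm).ne'
  have h1 : (∑ m ∈ PR h u, ∑ l ∈ PR h v,
      ((Finset.range (m * l)).filter fun x : ℕ => ((m * l : ℕ) : ℤ) ∣ g.eval (x : ℤ)).card) ≤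
      ∑ m ∈ PR h u, ∑ l ∈ PR h v,
        ((Finset.range m).filter fun x : ℕ => (m : ℤ) ∣ g.eval (x : ℤ)).card *
        ((Finset.range l).filter fun x : ℕ => (l : ℤ) ∣ g.eval (x : ℤ)).card := by
    refine Finset.sum_le_sum fun m hm => Finset.sum_le_sum fun l hl => ?_
    have hm' := hm
    have hl' := hl
    rw [PR, Finset.mem_filter] at hm' hl'
    exact s2_1_crt ((Nat.coprime_primes hm'.2.1 hl'.2.1).mpr (hne m hm l hl)) hm'.2.1.pos
      hl'.2.1.pos g
  refine h1.trans ?_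
  rw [← Finset.sum_mul_sum]
  refine (Nat.mul_le_mul (s2_1_sum hu (by omega) hg hbox)
    (s2_1_sum hv (by omega) hg hbox)).trans ?_
  rw [pow_add]
  apply le_of_eq
  ring

end Pool.Agent.H92.SQ2
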