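import Pool.Agent.H92.SQ2.DefsF

/-!
# Project SQ2, row S2-27: the exponent for `r + 1 = ⌈n / 2⌉`
-/

set_option autoImplicit false

namespace Pool.Agent.H92.SQ2

theorem s2_27_a (u : ℕ) (hu : 1 ≤ u) : ∀ m ≤ u,
    ∑ i ∈ Finset.range (m + 1), (i + u - 1) / u = m := by
  intro m
  induction m with
  | zero =>
    intro _
    rw [Finset.sum_range_one]
    exact Nat.div_eq_of_lt (by omega)
  | succ m ih =>
    intro hm
    rw [Finset.sum_range_succ, ih (by omega)]
    congr 1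
    rw [show m + 1 + u - 1 = m + u by omega, Nat.add_div_right _ (by omega),
      Nat.div_eq_of_lt (by omega)]

theorem s2_27_b (u : ℕ) (hu : 1 ≤ u) : ∀ j ≤ u,
    ∑ i ∈ Finset.range (u + 1 + j), (i + u - 1) / u = u + 2 * j := by
  intro j
  induction j with
  | zero =>
    intro _
    simpa using s2_27_a u hu u le_rfl
  | succ j ih =>
    intro hj
    rw [show u + 1 + (j + 1) = (u + 1 + j) + 1 by ring, Finset.sum_range_succ, ih (by omega),
      show u + 1 + j + u - 1 = j + u + u by omega, Nat.add_div_right _ (by omega),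
      Nat.add_div_right _ (by omega), Nat.div_eq_of_lt (by omega : j < u)]
    ring

theorem gg_half (n : ℕ) (hn : 4 ≤ n) : gg n ((n + 1) / 2) = (3 * n - 4) / 2 := by
  obtain ⟨k, rfl | rfl⟩ : ∃ k, n = 2 * k ∨ n = 2 * k + 1 := ⟨n / 2, by omega⟩
  · have h1 : (2 * k + 1) / 2 = k := by omega
    have h2 := s2_27_b k (by omega) (k - 1) (by omega)
    rw [show k + 1 + (k - 1) = 2 * k by omega] at h2
    rw [h1, gg, h2]
    omega
  · have h1 : (2 * k + 1 + 1) / 2 = k + 1 := by omega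
    have h2 := s2_27_b (k + 1) (by omega) (k - 1) (by omega)
    rw [show k + 1 + 1 + (k - 1) = 2 * k + 1 by omega] at h2
    rw [h1, gg, h2]
    omega

/-- reduction of the inequality for the exponent to a product inequality -/
theorem s2_27_red (n r : ℕ) (hn : 2 ≤ n) (hW : 0 < WW n - r)
    (hX : 0 < (n : ℝ) * (n - 1) - 2 * mu n r)
    (h : mu n r * r * ((n : ℝ) - 1) < (2 * mu n r - ((n : ℝ) - 1)) * (WW n - r)) :
    1 / 2 + 1 / ((n : ℝ) - 1) < ee n r := by
  have hn' : (2 : ℝ) ≤ n := by exact_mod_cast hn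
  have hn1 : (0 : ℝ) < (n : ℝ) - 1 := by linarith
  rw [ee, lt_div_iff₀ hX]
  have h1 : mu n r * WW n / (WW n - r) = mu n r + mu n r * r / (WW n - r) := by
    field_simp
    ring
  rw [h1]
  have h2 : mu n r * r / (WW n - r) < (2 * mu n r - ((n : ℝ) - 1)) / ((n : ℝ) - 1) := by
    rw [div_lt_div_iff₀ hW hn1]
    exact h
  have h3 : (1 / 2 + 1 / ((n : ℝ) - 1)) * ((n : ℝ) * (n - 1) - 2 * mu n r) =
      WW n - mu n r - (2 * mu n r - ((n : ℝ) - 1)) / ((n : ℝ) - 1) := by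
    rw [WW]
    field_simp
    ring
  rw [h3]
  linarith

theorem ineq28 (n : ℕ) (hn : 28 ≤ n) : 0 < mu n ((n + 1) / 2 - 1) ∧
    1 / 2 + 1 / ((n : ℝ) - 1) < ee n ((n + 1) / 2 - 1) := by
  have hg := gg_half n (by omega)
  obtain ⟨k, hk | hk⟩ : ∃ k, n = 2 * k ∨ n = 2 * k + 1 := ⟨n / 2, by omega⟩
  · have hk14 : 14 ≤ k := by omega
    have hkr : (14 : ℝ) ≤ k := by exact_mod_cast hk14
    have hr : (n + 1) / 2 - 1 = k - 1 := by omega
    have hr1 : k - 1 + 1 = (n + 1) / 2 := by omega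
    rw [hr]
    have hrc : (((k - 1 : ℕ)) : ℝ) = (k : ℝ) - 1 := by
      rw [Nat.cast_sub (by omega)]; norm_num
    have hnc : (n : ℝ) = 2 * k := by rw [hk]; push_cast; ring
    have hgc : (gg n (k - 1 + 1) : ℝ) = 3 * k - 2 := by
      rw [hr1, hg, hk, show (3 * (2 * k) - 4) / 2 = 3 * k - 2 by omega,
        Nat.cast_sub (by omega)]
      push_cast; ring
    have hq : ((n ^ 2 / 4 : ℕ) : ℝ) = (k : ℝ) ^ 2 := by
      rw [hk, show (2 * k) ^ 2 / 4 = k ^ 2 by
        rw [show (2 * k) ^ 2 = 4 * k ^ 2 by ring]; exact Nat.mul_div_cancel_left _ (by norm_num)]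
      push_cast; ring
    have hmu : mu n (k - 1) = ((k : ℝ) ^ 2 - 11 * k + 8) / 2 := by
      rw [mu, DD, hgc, hq, hnc]
      field_simp
      ring
    have hW : WW n = 2 * (k : ℝ) ^ 2 + k - 1 := by
      rw [WW, hnc]; ring
    have hmu0 : 0 < mu n (k - 1) := by
      rw [hmu]; nlinarith
    refine ⟨hmu0, s2_27_red n (k - 1) (by omega) ?_ ?_ ?_⟩
    · rw [hW, hrc]; nlinarith
    · rw [hmu, hnc]; nlinarith
    · rw [hmu, hW, hrc, hnc]
      have h1 : 0 ≤ (k : ℝ) ^ 2 * ((k : ℝ) * (k - 27 / 2) - 7) := by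
        apply mul_nonneg (by positivity)
        nlinarith
      nlinarith
  · have hk14 : 14 ≤ k := by omega
    have hkr : (14 : ℝ) ≤ k := by exact_mod_cast hk14
    have hr : (n + 1) / 2 - 1 = k := by omega
    have hr1 : k + 1 = (n + 1) / 2 := by omega
    rw [hr]
    have hnc : (n : ℝ) = 2 * k + 1 := by rw [hk]; push_cast; ring
    have hgc : (gg n (k + 1) : ℝ) = 3 * k - 1 := by
      rw [hr1, hg, hk, show (3 * (2 * k + 1) - 4) / 2 = 3 * k - 1 by omega,
        Nat.cast_sub (by omega)]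
      push_cast; ring
    have hq : ((n ^ 2 / 4 : ℕ) : ℝ) = (k : ℝ) ^ 2 + k := by
      rw [hk, show (2 * k + 1) ^ 2 / 4 = k ^ 2 + k by
        rw [show (2 * k + 1) ^ 2 = 4 * (k ^ 2 + k) + 1 by ring]; omega]
      push_cast; ring
    have hmu : mu n k = (2 * (k : ℝ) ^ 3 - 19 * k ^ 2 - k + 4) / (2 * (2 * k + 1)) := by
      rw [mu, DD, hgc, hq, hnc]
      field_simp
      ring
    have hW : WW n = 2 * (k : ℝ) ^ 2 + 3 * k := by
      rw [WW, hnc]; ring
    have hnum : 0 < 2 * (k : ℝ) ^ 3 - 19 * k ^ 2 - k + 4 := by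
      have : 0 ≤ (k : ℝ) ^ 2 * (k - 14) := mul_nonneg (by positivity) (by linarith)
      nlinarith
    have hmu0 : 0 < mu n k := by
      rw [hmu]; positivity
    refine ⟨hmu0, s2_27_red n k (by omega) ?_ ?_ ?_⟩
    · rw [hW]; nlinarith
    · have h1 : mu n k ≤ (k : ℝ) ^ 2 / 2 := by
        rw [hmu, div_le_div_iff₀ (by positivity) (by norm_num)]
        nlinarith [mul_nonneg (sq_nonneg (k : ℝ)) (by linarith : (0 : ℝ) ≤ k)]
      rw [hnc]; nlinarith
    · have h2 : 2 * ((k : ℝ) * (k + 1)) < mu n k * (k + 2) := by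
        rw [hmu, div_mul_eq_mul_div, lt_div_iff₀ (by positivity)]
        have h3 : 0 ≤ (k : ℝ) ^ 2 * (k ^ 2 * 2 - 23 * k - 51) := by
          apply mul_nonneg (by positivity)
          nlinarith
        nlinarith
      rw [hW, hnc]
      have h4 : 0 < 2 * (k : ℝ) := by linarith
      have h5 := mul_lt_mul_of_pos_left h2 h4
      nlinarith

end Pool.Agent.H92.SQ2
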