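import Pool.Agent.H92.SQ2.DefsF

/-!
# Project SQ2 (MP_a3214d), row S2-28: the asymptotic inequality
-/

set_option autoImplicit false

open Polynomial Pool.Agent.H92.SQ

namespace Pool.Agent.H92.SQ2

private theorem s2_28_gg (n u : ℕ) (hu : 1 ≤ u) :
    (gg n u : ℝ) ≤ (n : ℝ) ^ 2 / (2 * u) + n := by
  have hu0 : (0 : ℝ) < u := by exact_mod_cast hu
  unfold gg
  push_cast
  have h1 : ∀ i ∈ Finset.range n, (((i + u - 1) / u : ℕ) : ℝ) ≤ (i : ℝ) / u + 1 := by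
    intro i _
    have h2 : (((i + u - 1) / u : ℕ) : ℝ) ≤ ((i + u - 1 : ℕ) : ℝ) / u := Nat.cast_div_le
    refine h2.trans ?_
    rw [div_add_one hu0.ne']
    apply div_le_div_of_nonneg_right _ hu0.le
    have h3 : i + u - 1 ≤ i + u := Nat.sub_le _ _
    calc ((i + u - 1 : ℕ) : ℝ) ≤ ((i + u : ℕ) : ℝ) := by exact_mod_cast h3
      _ = (i : ℝ) + u := by push_cast; ring
  refine (Finset.sum_le_sum h1).trans ?_
  rw [Finset.sum_add_distrib, ← Finset.sum_div, Finset.sum_const, Finset.card_range, nsmul_eq_mul,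
    mul_one]
  have h4 : ∑ i ∈ Finset.range n, (i : ℝ) ≤ (n : ℝ) ^ 2 / 2 := by
    have h5 : (∑ i ∈ Finset.range n, i) * 2 = n * (n - 1) := Finset.sum_range_id_mul_two n
    have h6 : (∑ i ∈ Finset.range n, (i : ℝ)) * 2 ≤ (n : ℝ) ^ 2 := by
      have h7 : (∑ i ∈ Finset.range n, i) * 2 ≤ n ^ 2 := by
        rw [h5, pow_two]
        exact Nat.mul_le_mul_left n (Nat.sub_le n 1)
      have h7' : (((∑ i ∈ Finset.range n, i) * 2 : ℕ) : ℝ) ≤ ((n ^ 2 : ℕ) : ℝ) := Nat.cast_le.2 h7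
      push_cast at h7'
      exact h7'
    linarith
  have h8 : (∑ i ∈ Finset.range n, (i : ℝ)) / u ≤ (n : ℝ) ^ 2 / (2 * u) := by
    rw [← div_div]
    exact div_le_div_of_nonneg_right h4 hu0.le
  linarith

private theorem s2_28_DD (n : ℕ) (hn : 4 ≤ n) :
    (n : ℝ) ^ 2 / 8 ≤ DD n ∧ DD n ≤ (n : ℝ) * (n + 2) / 8 := by
  have hn4 : (4 : ℝ) ≤ n := by exact_mod_cast hn
  have hn0 : (0 : ℝ) < n := by linarith
  have h1 : ((n ^ 2 / 4 : ℕ) : ℝ) ≤ (n : ℝ) ^ 2 / 4 := by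
    have := @Nat.cast_div_le ℝ _ _ _ (n ^ 2) 4
    push_cast at this
    exact this
  have h2 : ((n : ℝ) ^ 2 - 3) / 4 ≤ ((n ^ 2 / 4 : ℕ) : ℝ) := by
    have h3 : n ^ 2 ≤ 4 * (n ^ 2 / 4) + 3 := by omega
    have h4 : (n : ℝ) ^ 2 ≤ 4 * ((n ^ 2 / 4 : ℕ) : ℝ) + 3 := by exact_mod_cast h3
    linarith
  unfold DD
  constructor
  · rw [div_le_div_iff₀ (by norm_num) (by positivity)]
    nlinarith
  · rw [div_le_div_iff₀ (by positivity) (by norm_num)]
    nlinarith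

theorem ineq_as (κ : ℝ) (hκ : κ < 4 / 3) : ∃ n0 : ℕ, ∀ n ≥ n0, ∃ r : ℕ, 1 ≤ r ∧ r + 2 ≤ n ∧
    0 < mu n r ∧ 1 / 2 + κ / (n : ℝ) < ee n r := by
  set c : ℝ := 1 - 3 * κ / 4 with hc
  have hc0 : 0 < c := by rw [hc]; linarith
  set M : ℝ := max (11 / c) 11 with hM
  have hM11 : 11 ≤ M := le_max_right _ _
  refine ⟨⌈M ^ 2⌉₊, fun n hn => ?_⟩
  have hnM : M ^ 2 ≤ (n : ℝ) := (Nat.le_ceil _).trans (by exact_mod_cast hn)
  set s : ℝ := Real.sqrt n with hs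
  have hs2 : s ^ 2 = n := Real.sq_sqrt (Nat.cast_nonneg n)
  have hsM : M ≤ s := by
    rw [hs]
    exact Real.le_sqrt_of_sq_le hnM
  have hs11 : 11 ≤ s := hM11.trans hsM
  have hsc : 11 ≤ c * s := by
    have h1 : 11 / c ≤ s := (le_max_left _ _).trans hsM
    rw [div_le_iff₀ hc0] at h1
    linarith
  have hn121 : (121 : ℝ) ≤ n := by rw [← hs2]; nlinarith
  have hn121' : 121 ≤ n := by exact_mod_cast hn121
  set r : ℕ := Nat.sqrt n with hr
  have hr1 : r * r ≤ n := Nat.sqrt_le n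
  have hr2 : n < (r + 1) * (r + 1) := Nat.lt_succ_sqrt n
  have hs0 : 0 < s := by linarith
  have hr1' : (r : ℝ) ^ 2 ≤ s ^ 2 := by
    rw [hs2, pow_two]
    exact_mod_cast hr1
  have hrs : (r : ℝ) ≤ s := le_of_sq_le_sq hr1' hs0.le
  have hr2' : s ^ 2 < ((r : ℝ) + 1) ^ 2 := by
    rw [hs2, pow_two]
    exact_mod_cast hr2
  have hsr : s < (r : ℝ) + 1 := lt_of_pow_lt_pow_left₀ 2 (by positivity) hr2'
  have hr10 : (10 : ℝ) < r := by linarith
  have p2 : 11 * s ≤ s ^ 2 := by rw [pow_two]; exact mul_le_mul_of_nonneg_right hs11 hs0.le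
  have p3 : 11 * s ^ 2 ≤ s ^ 3 := by
    have h1 := mul_le_mul_of_nonneg_right hs11 (show (0 : ℝ) ≤ s ^ 2 by positivity)
    have h2 : s * s ^ 2 = s ^ 3 := by ring
    linarith
  have p4 : 11 * s ^ 3 ≤ s ^ 4 := by
    have h1 := mul_le_mul_of_nonneg_right hs11 (show (0 : ℝ) ≤ s ^ 3 by positivity)
    have h2 : s * s ^ 3 = s ^ 4 := by ring
    linarith
  have p5 : 11 * s ^ 4 ≤ s ^ 5 := by
    have h1 := mul_le_mul_of_nonneg_right hs11 (show (0 : ℝ) ≤ s ^ 4 by positivity)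
    have h2 : s * s ^ 4 = s ^ 5 := by ring
    linarith
  have hr10' : 10 < r := by exact_mod_cast hr10
  have hrn : r + 2 ≤ n := by nlinarith
  -- bounds
  have hgg : (gg n (r + 1) : ℝ) ≤ s ^ 3 / 2 + s ^ 2 := by
    have h1 := s2_28_gg n (r + 1) (by omega)
    refine h1.trans ?_
    rw [← hs2]
    push_cast
    have h2 : (s ^ 2) ^ 2 / (2 * ((r : ℝ) + 1)) ≤ s ^ 3 / 2 := by
      rw [div_le_div_iff₀ (by positivity) (by norm_num)]
      have h3 : s ^ 3 * s ≤ s ^ 3 * ((r : ℝ) + 1) := by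
        apply mul_le_mul_of_nonneg_left hsr.le
        positivity
      nlinarith
    linarith
  have hgg0 : (0 : ℝ) ≤ gg n (r + 1) := Nat.cast_nonneg _
  obtain ⟨hD1, hD2⟩ := s2_28_DD n (by omega)
  rw [← hs2] at hD1 hD2
  have e4 : (s ^ 2) ^ 2 = s ^ 4 := by ring
  rw [e4] at hD1
  have hmu_lo : s ^ 4 / 8 - s ^ 3 - 2 * s ^ 2 ≤ mu n r := by
    unfold mu
    linarith
  have hmu_hi : mu n r ≤ s ^ 2 * (s ^ 2 + 2) / 8 := by
    unfold mu
    linarith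
  have hmu0 : 0 < mu n r := by
    have h1 : 0 < s ^ 2 := by positivity
    linarith
  refine ⟨r, by omega, hrn, hmu0, ?_⟩
  have hW : WW n = (s ^ 4 + s ^ 2 - 2) / 2 := by
    unfold WW
    rw [← hs2]
    ring
  have hWr : s ^ 4 / 2 ≤ WW n - r := by
    rw [hW]
    linarith
  have hWr0 : 0 < WW n - r := lt_of_lt_of_le (by positivity) hWr
  set m : ℝ := mu n r with hm
  -- the loss
  have hloss : m * r / (WW n - r) ≤ s / 2 := by
    rw [div_le_div_iff₀ hWr0 (by norm_num)]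
    have h1 : m * r ≤ s ^ 2 * (s ^ 2 + 2) / 8 * s := by
      apply mul_le_mul hmu_hi hrs (by positivity) (by positivity)
    have h2 : s * (s ^ 4 / 2) ≤ s * (WW n - r) := mul_le_mul_of_nonneg_left hWr hs0.le
    have h3 : s ^ 2 * (s ^ 2 + 2) / 8 * s * 2 = s ^ 5 / 4 + s ^ 3 / 2 := by ring
    have h4 : s * (s ^ 4 / 2) = s ^ 5 / 2 := by ring
    have h5 : m * r * 2 ≤ s ^ 5 / 4 + s ^ 3 / 2 := by rw [← h3]; linarith
    have h6 : 0 < s ^ 3 := by positivity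
    linarith
  set Dn : ℝ := (n : ℝ) * (n - 1) - 2 * m with hDn
  have hDn_eq : Dn = s ^ 4 - s ^ 2 - 2 * m := by
    rw [hDn, ← hs2]
    ring
  have hmu_hi' : m ≤ s ^ 4 / 8 + s ^ 2 / 4 := by
    refine hmu_hi.trans (le_of_eq ?_)
    ring
  have hs2p : 0 < s ^ 2 := by positivity
  have hDn_hi : Dn ≤ 3 * s ^ 4 / 4 + 2 * s ^ 3 + 3 * s ^ 2 := by
    rw [hDn_eq]
    linarith
  have hDn0 : 0 < Dn := by
    rw [hDn_eq]
    linarith
  have hee : ee n r = 1 / 2 + (s ^ 2 - 1 - m * r / (WW n - r)) / Dn := by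
    have h1 : ee n r = (WW n - m * WW n / (WW n - r)) / Dn := rfl
    have h2 : WW n - m * WW n / (WW n - r) = Dn / 2 + (s ^ 2 - 1 - m * r / (WW n - r)) := by
      have h3 : m * WW n / (WW n - r) = m + m * r / (WW n - r) := by
        field_simp
        ring
      rw [h3, hDn, hW, ← hs2]
      ring
    rw [h1, h2, add_div]
    congr 1
    field_simp
  rw [hee]
  have hkey : κ / (n : ℝ) < (s ^ 2 - 1 - m * r / (WW n - r)) / Dn := by
    have h1 : (s ^ 2 - s) / (3 * s ^ 4 / 4 + 2 * s ^ 3 + 3 * s ^ 2) ≤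
        (s ^ 2 - 1 - m * r / (WW n - r)) / Dn := by
      apply div_le_div₀ _ _ hDn0 hDn_hi
      · linarith
      · linarith
    refine lt_of_lt_of_le ?_ h1
    rw [← hs2, div_lt_div_iff₀ (by positivity) (by positivity)]
    have h2 : κ * (3 * s ^ 2 / 4 + 2 * s + 3) < s ^ 2 - s := by
      have h3 : κ = (1 - c) * 4 / 3 := by rw [hc]; ring
      have h4 : κ * (2 * s + 3) ≤ 2 * (2 * s + 3) := by
        apply mul_le_mul_of_nonneg_right (by linarith) (by positivity)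
      have h5 : κ * (3 * s ^ 2 / 4) = s ^ 2 - c * s ^ 2 := by rw [h3]; ring
      have h7 : 11 * s ≤ c * s ^ 2 := by
        have h8 := mul_le_mul_of_nonneg_right hsc hs0.le
        have h9 : c * s * s = c * s ^ 2 := by ring
        linarith
      have h8 : κ * (3 * s ^ 2 / 4 + 2 * s + 3) = κ * (3 * s ^ 2 / 4) + κ * (2 * s + 3) := by ring
      rw [h8, h5]
      linarith
    have h6 : κ * (3 * s ^ 4 / 4 + 2 * s ^ 3 + 3 * s ^ 2) =
        κ * (3 * s ^ 2 / 4 + 2 * s + 3) * s ^ 2 := by ring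
    rw [h6]
    exact mul_lt_mul_of_pos_right h2 (by positivity)
  linarith

end Pool.Agent.H92.SQ2
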