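import Pool.Agent.H92.SQ2.DefsF

/-!
# Project SQ2, row S2-26: the passage to all large `B`, general exponents
-/

set_option autoImplicit false
set_option maxHeartbeats 400000

open Polynomial IsDedekindDomain NumberField Pool.Agent.H35.AN Pool.Agent.H92.SQ

namespace Pool.Agent.H92.SQ2

theorem final_rpow2 (N : ℝ → ℕ) (hmono : Monotone N) (e1 e2 : ℕ) (he2 : 0 < e2) (θ c C : ℝ)
    (hθ : θ * e2 < e1) (hc : 0 < c) (hC : 0 < C) (h0 : ℕ)
    (hN : ∀ h : ℕ, h0 ≤ h → c * (h : ℝ) ^ e1 ≤ (N (C * (h : ℝ) ^ e2) : ℝ)) :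
    ∀ᶠ B : ℝ in Filter.atTop, B ^ θ ≤ (N B : ℝ) := by
  have he2' : (0 : ℝ) < e2 := by exact_mod_cast he2
  have hgap : 0 < (e1 : ℝ) / e2 - θ := by
    rw [sub_pos, lt_div_iff₀ he2']
    exact hθ
  -- the constant
  obtain ⟨c1, hc1⟩ : ∃ c1 : ℝ, c1 = c * (1 / 2) ^ e1 * ((1 / C) ^ ((1 : ℝ) / e2)) ^ e1 :=
    ⟨_, rfl⟩
  have hc1pos : 0 < c1 := by rw [hc1]; positivity
  have hx : Filter.Tendsto (fun B : ℝ => (B / C) ^ ((1 : ℝ) / e2)) Filter.atTop Filter.atTop :=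
    (tendsto_rpow_atTop (by positivity)).comp (Filter.tendsto_id.atTop_div_const hC)
  filter_upwards [hx.eventually_ge_atTop ((h0 : ℝ) + 1), Filter.eventually_gt_atTop (0 : ℝ),
    (tendsto_rpow_atTop hgap).eventually_ge_atTop (1 / c1)] with B hB1 hB0 hB2
  obtain ⟨x, hxdef⟩ : ∃ x : ℝ, x = (B / C) ^ ((1 : ℝ) / e2) := ⟨_, rfl⟩
  rw [← hxdef] at hB1
  have hx0 : 0 ≤ x := by rw [hxdef]; positivity
  have hx1 : 1 ≤ x := by
    have := Nat.cast_nonneg (α := ℝ) h0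
    linarith
  obtain ⟨h, hh⟩ : ∃ h : ℕ, h = ⌊x⌋₊ := ⟨_, rfl⟩
  have hhx : (h : ℝ) ≤ x := by rw [hh]; exact Nat.floor_le hx0
  have hxh : x < h + 1 := by rw [hh]; exact Nat.lt_floor_add_one x
  have hh1 : 1 ≤ h := by
    rw [hh, Nat.one_le_floor_iff]
    exact hx1
  have hh0 : h0 ≤ h := by
    rw [hh]
    apply Nat.le_floor
    linarith
  have hh1' : (1 : ℝ) ≤ h := by exact_mod_cast hh1
  have hhalf : x * (1 / 2) ≤ h := by linarith
  have hxpow : x ^ e2 = B / C := by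
    rw [hxdef, ← Real.rpow_natCast, ← Real.rpow_mul (by positivity), one_div_mul_cancel he2'.ne',
      Real.rpow_one]
  have hCB : C * (h : ℝ) ^ e2 ≤ B := by
    calc C * (h : ℝ) ^ e2 ≤ C * x ^ e2 := by gcongr
      _ = B := by rw [hxpow]; field_simp
  have hNB : c * (h : ℝ) ^ e1 ≤ (N B : ℝ) :=
    (hN h hh0).trans (by exact_mod_cast hmono hCB)
  refine le_trans ?_ hNB
  have hxB : x = B ^ ((1 : ℝ) / e2) * (1 / C) ^ ((1 : ℝ) / e2) := by
    rw [hxdef, div_eq_mul_one_div, Real.mul_rpow hB0.le (by positivity)]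
  have hBp : (B ^ ((1 : ℝ) / e2)) ^ e1 = B ^ ((e1 : ℝ) / e2) := by
    rw [← Real.rpow_natCast, ← Real.rpow_mul hB0.le]
    congr 1
    ring
  calc B ^ θ = 1 * B ^ θ := (one_mul _).symm
    _ ≤ (c1 * B ^ ((e1 : ℝ) / e2 - θ)) * B ^ θ := by
        gcongr
        rw [div_le_iff₀ hc1pos] at hB2
        linarith
    _ = c1 * B ^ ((e1 : ℝ) / e2) := by
        rw [mul_assoc, ← Real.rpow_add hB0, sub_add_cancel]
    _ = c * (x * (1 / 2)) ^ e1 := by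
        rw [hxB, mul_pow, mul_pow, hBp, hc1]
        ring
    _ ≤ c * (h : ℝ) ^ e1 := by gcongr

end Pool.Agent.H92.SQ2
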