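import Pool.Agent.H92.SQ2.FieldC
import Pool.Agent.H92.SQ2.Params
import Pool.Agent.H92.SQ2.Rpow
import Pool.Agent.H92.SQ2.Ineq31
import Pool.Agent.H92.SQ2.IneqAs
import Pool.Agent.H92.SQ.Main

/-!
# Project SQ2: main theorem
-/

set_option autoImplicit false

open Polynomial IsDedekindDomain NumberField Pool.Agent.H35.AN Pool.Agent.H92.SQ

namespace Pool.Agent.H92.SQ2

/-- lower bound for `malleCount` with every exponent less than `ee n r` -/
theorem main2 (n r : ℕ) (hn : 4 ≤ n) (hr : 1 ≤ r) (hrn : r + 2 ≤ n) (hμ : 0 < mu n r) (θ : ℝ)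
    (hθ : θ < ee n r) :
    ∀ᶠ B : ℝ in Filter.atTop, B ^ θ ≤ (malleCount ℚ n ⊤ B : ℝ) := by
  obtain ⟨b, u, v, w, hb, hu, hv, huv, hc1, hc2, hv2, hw, hw2, hpos, hlt⟩ :=
    params n r hn hr hrn hμ θ hθ
  obtain ⟨c, C, hc, hC, h0, h⟩ :=
    field_count2 n r b u v w hn hr hrn hb hu hv huv hc1 hc2 hv2 hw hw2
  exact final_rpow2 (malleCount ℚ n ⊤) (malle_mono n) _ _ hpos θ c C hlt hc hC h0 h

/-- `M` has degree `n` over `k` and every permutation of its `n` embeddings over `k` is induced by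
an automorphism, that is, the Galois closure of `M` over `k` has the group `S_n` -/
def IsSn (k : Type) [Field k] (n : ℕ) (M : IntermediateField k (AlgebraicClosure k)) : Prop :=
  Module.finrank k M = n ∧
    ∃ e : (M →ₐ[k] AlgebraicClosure k) ≃ Fin n, ∀ π : Equiv.Perm (Fin n),
      ∃ σ : AlgebraicClosure k ≃ₐ[k] AlgebraicClosure k,
        ∀ φ : M →ₐ[k] AlgebraicClosure k, e (σ.toAlgHom.comp φ) = π (e φ)

/-- `M` is a number field with `|disc M| ≤ B` -/
def DiscLe (M : IntermediateField ℚ (AlgebraicClosure ℚ)) (B : ℝ) : Prop :=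
  ∃ h : NumberField M, ((|@NumberField.discr M _ h| : ℤ) : ℝ) ≤ B

/-- `M` and `M'` are isomorphic over `k` -/
def IsoOver (k : Type) [Field k] (M M' : IntermediateField k (AlgebraicClosure k)) : Prop :=
  Nonempty (M ≃ₐ[k] M')

/-- the number of number fields of degree `n`, up to isomorphism, with `|disc| ≤ B` whose Galois
closure has the group `S_n` acting on the `n` embeddings -/
noncomputable def NSym (n : ℕ) (B : ℝ) : ℕ :=
  Nat.card (Quot (fun L L' : {M : IntermediateField ℚ (AlgebraicClosure ℚ) //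
    IsSn ℚ n M ∧ DiscLe M B} => IsoOver ℚ L.1 L'.1))

theorem nsym_eq (n : ℕ) (B : ℝ) : NSym n B = malleCount ℚ n ⊤ B := by
  have gen : ∀ P Q : IntermediateField ℚ (AlgebraicClosure ℚ) → Prop, P = Q →
      Nat.card (Quot (fun L L' : {M // P M} => IsoOver ℚ L.1 L'.1)) =
        Nat.card (Quot (fun L L' : {M // Q M} => IsoOver ℚ L.1 L'.1)) := by
    rintro P Q rfl
    rfl
  refine gen _ _ (funext fun M => ?_)
  have e1 : B * ((|NumberField.discr ℚ| : ℤ) : ℝ) ^ n = B := by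
    rw [Rat.numberField_discr]
    simp
  rw [e1]
  simp only [Subgroup.mem_top, true_iff, IsSn, DiscLe, and_assoc]
  rfl

theorem result_aux :
    (∀ n r : ℕ, 1 ≤ r → r + 2 ≤ n → 0 < mu n r → ∀ θ < ee n r,
      ∀ᶠ B : ℝ in Filter.atTop, B ^ θ ≤ (NSym n B : ℝ)) ∧
    (∀ n ≥ 31, 0 < mu n ((n + 1) / 2 - 1) ∧
      1 / 2 + 1 / ((n : ℝ) - 4 / 3) < ee n ((n + 1) / 2 - 1)) ∧
    (∀ κ : ℝ, κ < 4 / 3 → ∃ n0 : ℕ, ∀ n ≥ n0, ∃ r : ℕ, 1 ≤ r ∧ r + 2 ≤ n ∧ 0 < mu n r ∧
      1 / 2 + κ / (n : ℝ) < ee n r) := by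
  refine ⟨fun n r hr hrn hμ θ hθ => ?_, fun n hn => ineq31 n hn, fun κ hκ => ineq_as κ hκ⟩
  have hn : 4 ≤ n := by
    by_contra h3
    have hn3 : n = 3 := by omega
    have hr1 : r = 1 := by omega
    subst hn3
    subst hr1
    have e1 : gg 3 2 = 2 := by decide
    have : mu 3 1 < 0 := by
      simp only [mu, DD]
      norm_num [e1]
    linarith
  have h := main2 n r hn hr hrn hμ θ hθ
  filter_upwards [h] with B hB
  rw [nsym_eq]
  exact hB

end Pool.Agent.H92.SQ2
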