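import Pool.Agent.H92.SQ2.Minor

/-! Project SQ2, row S2-14: dimension of the space of monomials of small degree. -/

set_option autoImplicit false

open Polynomial IsDedekindDomain NumberField Pool.Agent.H35.AN Pool.Agent.H92.SQ

namespace Pool.Agent.H92.SQ2

/-- the span, over the algebraic closure, of the vectors of conjugates of the monomials -/
private noncomputable def s2_14_S {K : Type} [Field K] [NumberField K] {u : ℕ} (z : Fin u → K) (k : ℕ) :
    Submodule (AlgebraicClosure ℚ) ((K →ₐ[ℚ] AlgebraicClosure ℚ) → AlgebraicClosure ℚ) :=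
  Submodule.span _ {g | ∃ w : Fin u → ℕ, ∑ j, w j ≤ k ∧ g = fun φ => φ (∏ j, z j ^ w j)}

private theorem s2_14_mul {K : Type} [Field K] [NumberField K] {u : ℕ} (z : Fin u → K)
    {k l : ℕ} {g h : (K →ₐ[ℚ] AlgebraicClosure ℚ) → AlgebraicClosure ℚ}
    (hg : g ∈ s2_14_S z k) (hh : h ∈ s2_14_S z l) : g * h ∈ s2_14_S z (k + l) := by
  have h1 : g * h ∈ s2_14_S z k * s2_14_S z l := Submodule.mul_mem_mul hg hh
  have h2 : s2_14_S z k * s2_14_S z l ≤ s2_14_S z (k + l) := by
    unfold s2_14_S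
    rw [Submodule.span_mul_span]
    refine Submodule.span_le.2 ?_
    rintro _ ⟨g, ⟨w, hw, rfl⟩, h, ⟨w', hw', rfl⟩, rfl⟩
    refine Submodule.subset_span ⟨w + w', ?_, ?_⟩
    · simp only [Pi.add_apply, Finset.sum_add_distrib]
      omega
    · funext φ
      simp only [Pi.mul_apply, Pi.add_apply, pow_add, Finset.prod_mul_distrib, map_mul]
  exact h2 h1

private theorem s2_14_lin {n u : ℕ} {K : Type} [Field K] [NumberField K] (hK : SymK n K)
    (z : Fin u → K) (hz : LinearIndependent ℚ (Fin.cons 1 z : Fin (u + 1) → K))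
    (φ0 : K →ₐ[ℚ] AlgebraicClosure ℚ) (B : Finset (K →ₐ[ℚ] AlgebraicClosure ℚ))
    (hB : B.card ≤ u) (hφ : φ0 ∉ B) :
    ∃ g ∈ s2_14_S z 1, g φ0 = 1 ∧ ∀ φ ∈ B, g φ = 0 := by
  classical
  have hcard : Fintype.card (K →ₐ[ℚ] AlgebraicClosure ℚ) = Module.finrank ℚ K :=
    AlgHom.card ℚ K (AlgebraicClosure ℚ)
  have hle : u + 1 ≤ Fintype.card (K →ₐ[ℚ] AlgebraicClosure ℚ) := by
    rw [hcard]
    have := hz.fintype_card_le_finrank
    rwa [Fintype.card_fin] at this
  obtain ⟨T, hT, hTc⟩ := Finset.exists_superset_card_eq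
    (s := insert φ0 B) (n := u + 1) ((Finset.card_insert_le _ _).trans (by omega)) hle
  have e : Fin (u + 1) ≃ T := (Fintype.equivFinOfCardEq (by rw [Fintype.card_coe, hTc])).symm
  set S : Fin (u + 1) → (K →ₐ[ℚ] AlgebraicClosure ℚ) := fun i => (e i : _) with hS
  have hSinj : Function.Injective S := Subtype.val_injective.comp e.injective
  have hdet := minor_ne hK _ hz S hSinj
  set M : Matrix (Fin (u + 1)) (Fin (u + 1)) (AlgebraicClosure ℚ) :=
    Matrix.of fun i j => S i ((Fin.cons 1 z : Fin (u + 1) → K) j) with hM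
  have hφT : φ0 ∈ T := hT (Finset.mem_insert_self _ _)
  set i0 : Fin (u + 1) := e.symm ⟨φ0, hφT⟩ with hi0
  set c : Fin (u + 1) → AlgebraicClosure ℚ := M⁻¹.mulVec (Pi.single i0 1) with hc
  have hMc : M.mulVec c = Pi.single i0 1 := by
    rw [hc, Matrix.mulVec_mulVec, Matrix.mul_nonsing_inv _ (isUnit_iff_ne_zero.2 hdet),
      Matrix.one_mulVec]
  have hSi : ∀ φ (h : φ ∈ T), S (e.symm ⟨φ, h⟩) = φ := by
    intro φ h
    simp [hS]
  refine ⟨fun φ => ∑ j, c j * φ ((Fin.cons 1 z : Fin (u + 1) → K) j), ?_, ?_, ?_⟩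
  · have h1 : (fun φ : K →ₐ[ℚ] AlgebraicClosure ℚ =>
        ∑ j, c j * φ ((Fin.cons 1 z : Fin (u + 1) → K) j)) =
        ∑ j, c j • (fun φ : K →ₐ[ℚ] AlgebraicClosure ℚ =>
          φ ((Fin.cons 1 z : Fin (u + 1) → K) j)) := by
      funext φ
      simp [Finset.sum_apply]
    rw [h1]
    refine Submodule.sum_mem _ fun j _ => Submodule.smul_mem _ _ (Submodule.subset_span ?_)
    refine Fin.cases ?_ (fun j => ?_) j
    · refine ⟨0, by simp, ?_⟩
      funext φ
      simp
    · refine ⟨Pi.single j 1, by simp, ?_⟩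
      funext φ
      rw [Fin.cons_succ, Finset.prod_eq_single j]
      · simp
      · intro l _ hl
        rw [Pi.single_eq_of_ne hl, pow_zero]
      · intro h
        exact absurd (Finset.mem_univ _) h
  · have h1 := congrFun hMc i0
    rw [Pi.single_eq_same] at h1
    rw [← h1, Matrix.mulVec, dotProduct]
    refine Finset.sum_congr rfl fun j _ => ?_
    rw [hM, Matrix.of_apply, hi0, hSi φ0 hφT, mul_comm]
  · intro φ hφB
    have hφT' : φ ∈ T := hT (Finset.mem_insert_of_mem hφB)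
    have hne : e.symm ⟨φ, hφT'⟩ ≠ i0 := by
      rw [hi0]
      intro h
      have := e.symm.injective h
      rw [Subtype.mk.injEq] at this
      exact hφ (this ▸ hφB)
    have h1 := congrFun hMc (e.symm ⟨φ, hφT'⟩)
    rw [Pi.single_eq_of_ne hne] at h1
    rw [← h1, Matrix.mulVec, dotProduct]
    refine Finset.sum_congr rfl fun j _ => ?_
    rw [hM, Matrix.of_apply, hSi φ hφT', mul_comm]

private theorem s2_14_unit {n u : ℕ} {K : Type} [Field K] [NumberField K] (hK : SymK n K)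
    (z : Fin u → K) (hz : LinearIndependent ℚ (Fin.cons 1 z : Fin (u + 1) → K))
    (φ0 : K →ₐ[ℚ] AlgebraicClosure ℚ) (k : ℕ) : ∀ B : Finset (K →ₐ[ℚ] AlgebraicClosure ℚ),
    B.card ≤ k * u → φ0 ∉ B → ∃ g ∈ s2_14_S z k, g φ0 = 1 ∧ ∀ φ ∈ B, g φ = 0 := by
  classical
  induction k with
  | zero =>
    intro B hB _
    have hB0 : B = ∅ := by
      rw [← Finset.card_eq_zero]
      omega
    subst hB0
    refine ⟨fun φ => φ (∏ j, z j ^ (0 : Fin u → ℕ) j),
      Submodule.subset_span ⟨0, by simp, rfl⟩, by simp, by simp⟩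
  | succ k ih =>
    intro B hB hφ
    obtain ⟨B1, hB1, hB1c⟩ := Finset.exists_subset_card_eq (s := B) (n := min u B.card)
      (min_le_right _ _)
    have hB2 : (B \ B1).card ≤ k * u := by
      rw [Finset.card_sdiff_of_subset hB1, hB1c]
      have : (k + 1) * u = k * u + u := by ring
      omega
    obtain ⟨g, hg, hg1, hg0⟩ := ih (B \ B1) hB2 (fun h => hφ (Finset.mem_sdiff.1 h).1)
    obtain ⟨l, hl, hl1, hl0⟩ := s2_14_lin hK z hz φ0 B1 (by omega) (fun h => hφ (hB1 h))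
    refine ⟨g * l, s2_14_mul z hg hl, ?_, ?_⟩
    · rw [Pi.mul_apply, hg1, hl1, one_mul]
    · intro φ hφB
      rw [Pi.mul_apply]
      by_cases h : φ ∈ B1
      · rw [hl0 φ h, mul_zero]
      · rw [hg0 φ (Finset.mem_sdiff.2 ⟨hφB, h⟩), zero_mul]

theorem mono_dim {n u : ℕ} (hu : 1 ≤ u) {K : Type} [Field K] [NumberField K] (hK : SymK n K)
    (z : Fin u → K) (hz : LinearIndependent ℚ (Fin.cons 1 z : Fin (u + 1) → K)) (k i : ℕ)
    (hik : i ≤ k * u) (hin : i < n) :
    i < Module.finrank ℚ (Submodule.span ℚ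
      {x : K | ∃ w : Fin u → ℕ, ∑ j, w j ≤ k ∧ x = ∏ j, z j ^ w j}) := by
  classical
  set V := Submodule.span ℚ {x : K | ∃ w : Fin u → ℕ, ∑ j, w j ≤ k ∧ x = ∏ j, z j ^ w j} with hV
  have hcard : Fintype.card (K →ₐ[ℚ] AlgebraicClosure ℚ) = n := by
    rw [AlgHom.card ℚ K (AlgebraicClosure ℚ)]
    exact hK.1
  obtain ⟨A, -, hA⟩ := Finset.exists_subset_card_eq
    (s := (Finset.univ : Finset (K →ₐ[ℚ] AlgebraicClosure ℚ))) (n := i + 1)
    (by rw [Finset.card_univ, hcard]; omega)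
  let b := Module.finBasis ℚ V
  let v : Fin (Module.finrank ℚ V) → (A → AlgebraicClosure ℚ) :=
    fun j φ => (φ : K →ₐ[ℚ] AlgebraicClosure ℚ) (b j : K)
  -- the restriction to `A`
  let res : ((K →ₐ[ℚ] AlgebraicClosure ℚ) → AlgebraicClosure ℚ) →ₗ[AlgebraicClosure ℚ]
      (A → AlgebraicClosure ℚ) := LinearMap.funLeft _ _ (fun φ : A => (φ : _))
  have hmap : (s2_14_S z k).map res ≤ Submodule.span (AlgebraicClosure ℚ) (Set.range v) := by
    unfold s2_14_S
    rw [Submodule.map_span, Submodule.span_le]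
    rintro _ ⟨_, ⟨w, hw, rfl⟩, rfl⟩
    have hmem : (∏ j, z j ^ w j) ∈ V := Submodule.subset_span ⟨w, hw, rfl⟩
    have hrep := b.sum_repr ⟨_, hmem⟩
    obtain ⟨r, hrep2⟩ : ∃ r : Fin (Module.finrank ℚ V) → ℚ,
        (∏ j, z j ^ w j) = ∑ j, r j • (b j : K) := by
      refine ⟨fun j => b.repr ⟨_, hmem⟩ j, ?_⟩
      have := congrArg (fun x : V => (x : K)) hrep
      simp only [Submodule.coe_sum, Submodule.coe_smul] at this
      exact this.symm
    have h1 : res (fun φ => φ (∏ j, z j ^ w j)) =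
        ∑ j, (algebraMap ℚ (AlgebraicClosure ℚ) (r j)) • v j := by
      funext φ
      show (φ : K →ₐ[ℚ] AlgebraicClosure ℚ) (∏ j, z j ^ w j) = _
      rw [hrep2, map_sum, Finset.sum_apply]
      refine Finset.sum_congr rfl fun j _ => ?_
      rw [Pi.smul_apply, Algebra.smul_def, map_mul, smul_eq_mul, eq_ratCast, eq_ratCast,
        map_ratCast]
    rw [SetLike.mem_coe, h1]
    exact Submodule.sum_mem _ fun j _ => Submodule.smul_mem _ _
      (Submodule.subset_span ⟨j, rfl⟩)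
  have htop : Submodule.span (AlgebraicClosure ℚ) (Set.range v) = ⊤ := by
    rw [eq_top_iff, ← (Pi.basisFun (AlgebraicClosure ℚ) A).span_eq, Submodule.span_le]
    rintro _ ⟨a, rfl⟩
    obtain ⟨g, hg, hg1, hg0⟩ := s2_14_unit hK z hz (a : K →ₐ[ℚ] AlgebraicClosure ℚ) k
      (A.erase a) (by rw [Finset.card_erase_of_mem a.2, hA]; omega)
      (Finset.notMem_erase _ _)
    have h1 : (Pi.basisFun (AlgebraicClosure ℚ) A) a = res g := by
      funext φ
      rw [Pi.basisFun_apply]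
      show _ = g (φ : K →ₐ[ℚ] AlgebraicClosure ℚ)
      by_cases h : φ = a
      · rw [h, Pi.single_eq_same, hg1]
      · rw [Pi.single_eq_of_ne h, hg0 _ (Finset.mem_erase.2 ⟨fun h2 => h (Subtype.ext h2), φ.2⟩)]
    rw [SetLike.mem_coe, h1]
    exact hmap (Submodule.mem_map_of_mem hg)
  have h1 : Module.finrank (AlgebraicClosure ℚ)
      (Submodule.span (AlgebraicClosure ℚ) (Set.range v)) ≤
      Fintype.card (Fin (Module.finrank ℚ V)) := finrank_range_le_card v
  rw [htop, finrank_top, Module.finrank_pi, Fintype.card_coe, hA, Fintype.card_fin] at h1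
  omega

end Pool.Agent.H92.SQ2
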