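import Pool.Agent.H92.SQ2.Defs
import Mathlib.MeasureTheory.Covering.BesicovitchVectorSpace

/-!
# Project SQ2 (MP_a3214d), row S2-3: packing

Separated points in a subspace of `ℝ^N`: balls of radius `1/2` inside the subspace are disjoint and
contained in the ball of radius `R + 1/2`; compare the Haar measures of the subspace.
-/

set_option autoImplicit false

open Metric Set MeasureTheory Module Function
open scoped ENNReal

namespace Pool.Agent.H92.SQ2

private theorem s2_3_card {E : Type*} [NormedAddCommGroup E] [NormedSpace ℝ E]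
    [FiniteDimensional ℝ E] (s : Finset E) (R : ℝ) (hR : 0 ≤ R) (hs : ∀ c ∈ s, ‖c‖ ≤ R)
    (h : ∀ c ∈ s, ∀ d ∈ s, c ≠ d → 1 ≤ ‖c - d‖) : (s.card : ℝ) ≤ (2 * R + 1) ^ finrank ℝ E := by
  borelize E
  let μ : Measure E := Measure.addHaar
  let δ : ℝ := (1 : ℝ) / 2
  let ρ : ℝ := R + 1 / 2
  have δpos : 0 < δ := by norm_num [δ]
  have ρpos : 0 < ρ := by simp only [ρ]; linarith
  set A := ⋃ c ∈ s, ball (c : E) δ with hA
  have D : Set.Pairwise (s : Set E) (Disjoint on fun c => ball (c : E) δ) := by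
    intro c hc d hd hcd
    apply ball_disjoint_ball
    rw [dist_eq_norm]
    have h1 := h c hc d hd hcd
    have h2 : δ + δ = 1 := by norm_num [δ]
    rw [h2]
    exact h1
  have A_subset : A ⊆ ball (0 : E) ρ := by
    refine iUnion₂_subset fun x hx => ?_
    apply ball_subset_ball'
    rw [dist_zero_right]
    have := hs x hx
    simp only [ρ, δ]
    linarith
  have I :
    (s.card : ℝ≥0∞) * ENNReal.ofReal (δ ^ finrank ℝ E) * μ (ball 0 1) ≤
      ENNReal.ofReal (ρ ^ finrank ℝ E) * μ (ball 0 1) :=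
    calc
      (s.card : ℝ≥0∞) * ENNReal.ofReal (δ ^ finrank ℝ E) * μ (ball 0 1) = μ A := by
        rw [hA, measure_biUnion_finset D fun c _ => measurableSet_ball]
        simp only [μ.addHaar_ball_of_pos _ δpos]
        simp only [Finset.sum_const, nsmul_eq_mul, mul_assoc]
      _ ≤ μ (ball (0 : E) ρ) := measure_mono A_subset
      _ = ENNReal.ofReal (ρ ^ finrank ℝ E) * μ (ball 0 1) := by
        simp only [μ.addHaar_ball_of_pos _ ρpos]
  have J : (s.card : ℝ≥0∞) * ENNReal.ofReal (δ ^ finrank ℝ E) ≤ ENNReal.ofReal (ρ ^ finrank ℝ E) :=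
    (ENNReal.mul_le_mul_iff_left (measure_ball_pos _ _ zero_lt_one).ne' measure_ball_lt_top.ne).1 I
  have K := ENNReal.toReal_le_of_le_ofReal (pow_nonneg ρpos.le _) J
  rw [ENNReal.toReal_mul, ENNReal.toReal_natCast, ENNReal.toReal_ofReal (pow_nonneg δpos.le _)] at K
  have h2 : (2 * R + 1) ^ finrank ℝ E * δ ^ finrank ℝ E = ρ ^ finrank ℝ E := by
    rw [← mul_pow]
    congr 1
    simp only [ρ, δ]
    ring
  rw [← h2] at K
  exact le_of_mul_le_mul_right K (pow_pos δpos _)

theorem packing {N : ℕ} (W : Submodule ℝ (Fin N → ℝ)) (S : Finset (Fin N → ℝ))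
    (hSW : ∀ x ∈ S, x ∈ W) (R : ℝ) (hR : 0 ≤ R) (hS : ∀ x ∈ S, ‖x‖ ≤ R)
    (hsep : ∀ x ∈ S, ∀ y ∈ S, x ≠ y → 1 ≤ ‖x - y‖) :
    (S.card : ℝ) ≤ (2 * R + 1) ^ Module.finrank ℝ W := by
  classical
  let T : Finset W := S.attach.image fun x => ⟨x.1, hSW x.1 x.2⟩
  have hT : T.card = S.card := by
    rw [Finset.card_image_of_injective, Finset.card_attach]
    intro a b hab
    exact Subtype.ext (congrArg (fun z : W => (z : Fin N → ℝ)) hab)
  have hTS : ∀ c ∈ T, (c : Fin N → ℝ) ∈ S := by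
    intro c hc
    obtain ⟨x, -, rfl⟩ := Finset.mem_image.1 hc
    exact x.2
  have key := s2_3_card T R hR (fun c hc => by
    have := hS c (hTS c hc)
    exact this) (fun c hc d hd hcd => by
    have := hsep c (hTS c hc) d (hTS d hd) (fun he => hcd (Subtype.ext he))
    exact this)
  rw [hT] at key
  exact key

end Pool.Agent.H92.SQ2
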