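import Pool.Agent.H92.SQ2.Defs

/-!
# Project SQ2 (MP_a3214d), row S2-7: double roots modulo `l` which are not double modulo `l²` in
the value give ramification

If `l` divides `f (x)` and `f' (x)`, and `l²` does not divide `f (x)`, then `l` divides the
discriminant of the number field of `f`. Proof: let `α = x - θ`, of norm `f (x)`, and
`γ = f (x) / α`, an algebraic integer of trace `f' (x)`. The ideal `(α, l)` has norm `1` or `l`, so
every algebraic integer `y` is `c + α u + l v` with `c ∈ ℤ`, and `Tr (γ y) ≡ c Tr γ ≡ 0` modulo `l`.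
If `l` does not divide the discriminant then `l` divides `γ`, and the norm of
`α (γ / l) = f (x) / l` shows that `l` divides `f (x) / l`.
-/

set_option autoImplicit false

open Polynomial NumberField Module Matrix Pool.Agent.H92.SQ

namespace Pool.Agent.H92.SQ2

/-- the factorization of `f` over `ℂ` by the embeddings of `K = ℚ(x)` -/
private theorem ram_fac {n : ℕ} {K : Type} [Field K] [NumberField K]
    (hK : Module.finrank ℚ K = n) {f : ℤ[X]} (hf : f.natDegree = n) (hfi : Irreducible (FQ f))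
    {x : K} (hx : aeval x f = 0) :
    f.map (Int.castRingHom ℂ) =
      C (f.leadingCoeff : ℂ) * ∏ φ : K →+* ℂ, (X - C (φ x)) := by
  classical
  have hinj : Function.Injective (Int.castRingHom ℚ) := (Int.castRingHom ℚ).injective_int
  have hx' : aeval x (FQ f) = 0 := by
    unfold FQ
    rw [aeval_def, eval₂_map, ← hx, aeval_def]
    congr 1
    exact RingHom.ext_int _ _
  have hmin : minpoly ℚ x = FQ f * C (FQ f).leadingCoeff⁻¹ :=
    (minpoly.eq_of_irreducible hfi hx').symm
  have hlc : (FQ f).leadingCoeff = (f.leadingCoeff : ℚ) := by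
    unfold FQ
    rw [leadingCoeff_map_of_injective hinj]
    rfl
  have hf0 : f ≠ 0 := by
    rintro rfl
    exact hfi.ne_zero (by unfold FQ; simp)
  have hl0 : (f.leadingCoeff : ℚ) ≠ 0 := by
    exact_mod_cast leadingCoeff_ne_zero.2 hf0
  have hdeg : (minpoly ℚ x).natDegree = n := by
    rw [hmin, hlc, natDegree_mul_C (inv_ne_zero hl0)]
    unfold FQ
    rw [natDegree_map_eq_of_injective hinj, hf]
  set P : ℂ[X] := (minpoly ℚ x).map (algebraMap ℚ ℂ) with hP
  have hPmonic : P.Monic := (minpoly.monic (Algebra.IsIntegral.isIntegral x)).map _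
  have hPsep : P.Separable := (minpoly.irreducible (Algebra.IsIntegral.isIntegral x)).separable.map
  have hPsplit : P.Splits := IsAlgClosed.splits P
  have hPdeg : P.natDegree = n := by rw [hP, natDegree_map, hdeg]
  have hroots : P.roots.toFinset = Finset.univ.image (fun φ : K →+* ℂ => φ x) := by
    ext z
    have h1 := NumberField.Embeddings.range_eval_eq_rootSet_minpoly K ℂ x
    have h2 : z ∈ (minpoly ℚ x).rootSet ℂ ↔ z ∈ P.roots.toFinset := by
      rw [rootSet, aroots_def]
      simp [hP]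
    rw [← h2, ← h1]
    simp
  have hnodup : P.roots.Nodup := nodup_roots hPsep
  have hcardroots : P.roots.toFinset.card = n := by
    rw [Multiset.toFinset_card_of_nodup hnodup, ← hPdeg]
    exact hPsplit.natDegree_eq_card_roots.symm
  have hcardemb : Fintype.card (K →+* ℂ) = n := by
    rw [NumberField.Embeddings.card, hK]
  have hinj2 : Function.Injective (fun φ : K →+* ℂ => φ x) := by
    have h1 : (Finset.univ.image (fun φ : K →+* ℂ => φ x)).card =
        (Finset.univ : Finset (K →+* ℂ)).card := by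
      rw [← hroots, hcardroots, Finset.card_univ, hcardemb]
    have := Finset.card_image_iff.1 h1
    intro a b hab
    exact this (by simp) (by simp) hab
  have hfac : P = ∏ φ : K →+* ℂ, (X - C (φ x)) := by
    have h1 : P = (P.roots.map fun a => X - C a).prod := by
      conv_lhs => rw [hPsplit.eq_prod_roots]
      rw [hPmonic.leadingCoeff, C_1, one_mul]
    rw [h1]
    have h2 : P.roots = P.roots.toFinset.val := by
      rw [Multiset.toFinset_val, hnodup.dedup]
    rw [h2, hroots]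
    change ∏ a ∈ Finset.univ.image (fun φ : K →+* ℂ => φ x), (X - C a) = _
    rw [Finset.prod_image (fun a _ b _ hab => hinj2 hab)]
  have hmap : f.map (Int.castRingHom ℂ) = (FQ f).map (algebraMap ℚ ℂ) := by
    unfold FQ
    rw [Polynomial.map_map]
    congr 1
  have hFQ : FQ f = C (f.leadingCoeff : ℚ) * minpoly ℚ x := by
    rw [hmin, hlc, mul_comm, mul_assoc, ← C_mul, inv_mul_cancel₀ hl0, C_1, mul_one]
  rw [hmap, hFQ, Polynomial.map_mul, map_C, ← hP, hfac]
  simp

/-- an ideal of norm `1` or `l`: every integer is a rational integer modulo the ideal -/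
private theorem ram_surj {K : Type} [Field K] [NumberField K] (I : Ideal (𝓞 K)) {l : ℕ}
    (hl : l.Prime) (hI : Ideal.absNorm I = 1 ∨ Ideal.absNorm I = l) (y : 𝓞 K) :
    ∃ c : ℤ, y - (c : 𝓞 K) ∈ I := by
  rcases hI with h | h
  · rw [Ideal.absNorm_eq_one_iff] at h
    exact ⟨0, by rw [h]; trivial⟩
  · haveI : Fact l.Prime := ⟨hl⟩
    have hcard : Nat.card (𝓞 K ⧸ I) = l := by
      rw [← h, Ideal.absNorm_apply]
      rfl
    have h1 : (1 : 𝓞 K ⧸ I) ≠ 0 := by
      intro h0
      have : I = ⊤ := by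
        rw [Ideal.eq_top_iff_one]
        exact Ideal.Quotient.eq_zero_iff_mem.1 (by rw [map_one, h0])
      rw [this, Ideal.absNorm_top] at h
      exact hl.one_lt.ne h
    have h2 : (Ideal.Quotient.mk I y) ∈ AddSubgroup.zmultiples (1 : 𝓞 K ⧸ I) :=
      mem_zmultiples_of_prime_card hcard h1
    obtain ⟨c, hc⟩ := AddSubgroup.mem_zmultiples_iff.1 h2
    refine ⟨c, ?_⟩
    rw [← Ideal.Quotient.eq_zero_iff_mem, map_sub, map_intCast, ← hc, zsmul_one, sub_self]

theorem ramified {n : ℕ} (hn : 2 ≤ n) (K : Type) [Field K] [NumberField K]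
    (hK : Module.finrank ℚ K = n) {f : ℤ[X]} (hf : f.natDegree = n) (hm : f.Monic)
    (hirr : Irreducible (FQ f)) {θ : K} (hθ : aeval θ f = 0) {l : ℕ} (hl : l.Prime) {x : ℤ}
    (h1 : (l : ℤ) ∣ f.eval x) (h2 : ¬ (l : ℤ) ^ 2 ∣ f.eval x)
    (h3 : (l : ℤ) ∣ f.derivative.eval x) : (l : ℤ) ∣ NumberField.discr K := by
  classical
  by_contra hdisc
  haveI : Fact l.Prime := ⟨hl⟩
  have hlZ : Prime (l : ℤ) := Nat.prime_iff_prime_int.1 hl
  have hfx0 : f.eval x ≠ 0 := fun h => h2 (by rw [h]; exact dvd_zero _)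
  -- the factorization
  have hfac := ram_fac hK hf hirr hθ
  rw [hm.leadingCoeff, Int.cast_one, C_1, one_mul] at hfac
  have hev : ((f.eval x : ℤ) : ℂ) = ∏ φ : K →+* ℂ, ((x : ℂ) - φ θ) := by
    have h := congrArg (fun p : ℂ[X] => p.eval (x : ℂ)) hfac
    simp only [eval_prod, eval_sub, eval_X, eval_C] at h
    rw [← h]
    have := eval_intCast_map (Int.castRingHom ℂ) f x
    simpa using this.symm
  have hder : ((f.derivative.eval x : ℤ) : ℂ) =
      ∑ φ : K →+* ℂ, ∏ ψ ∈ Finset.univ.erase φ, ((x : ℂ) - ψ θ) := by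
    have h := congrArg (fun p : ℂ[X] => p.derivative.eval (x : ℂ)) hfac
    simp only [derivative_prod_finset, derivative_X_sub_C, mul_one, eval_finset_sum, eval_prod,
      eval_sub, eval_X, eval_C, derivative_map] at h
    rw [← h]
    have := eval_intCast_map (Int.castRingHom ℂ) f.derivative x
    simpa using this.symm
  -- the integers `θ`, `α`, `γ`
  have hint : IsIntegral ℤ θ := ⟨f, hm, by rw [← aeval_def]; exact hθ⟩
  let t : 𝓞 K := ⟨θ, hint⟩
  have ht : (t : K) = θ := rfl
  obtain ⟨q, hq⟩ : ∃ q : ℤ[X], f = (X - C x) * q + C (f.eval x) := by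
    have := X_sub_C_dvd_sub_C_eval (p := f) (a := x)
    obtain ⟨q, hq⟩ := this
    exact ⟨q, by rw [← hq]; ring⟩
  let γ : 𝓞 K := aeval t q
  have hγt : ((x : 𝓞 K) - t) * γ = ((f.eval x : ℤ) : 𝓞 K) := by
    have h0 : aeval t f = 0 := by
      have : ((aeval t f : 𝓞 K) : K) = 0 := by
        rw [← hθ, ← ht]
        exact (aeval_algebraMap_apply K t f).symm
      exact RingOfIntegers.ext this
    have h4 := congrArg (aeval t) hq
    rw [h0, map_add, map_mul, map_sub, aeval_X, aeval_C, aeval_C] at h4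
    have h5 : (algebraMap ℤ (𝓞 K)) x = (x : 𝓞 K) := by simp
    have h6 : (algebraMap ℤ (𝓞 K)) (f.eval x) = ((f.eval x : ℤ) : 𝓞 K) := by simp
    rw [h5, h6] at h4
    change ((x : 𝓞 K) - t) * aeval t q = _
    linear_combination h4
  have hγφ : ∀ φ : K →+* ℂ, ((x : ℂ) - φ θ) * φ (γ : K) = ((f.eval x : ℤ) : ℂ) := by
    intro φ
    have h4 : ((x : K) - θ) * (γ : K) = ((f.eval x : ℤ) : K) := by
      have := congrArg (fun z : 𝓞 K => (z : K)) hγt
      simpa [ht] using this
    have := congrArg φ h4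
    simpa using this
  have hne : ∀ φ : K →+* ℂ, (x : ℂ) - φ θ ≠ 0 := by
    intro φ h0
    have := hγφ φ
    rw [h0, zero_mul] at this
    exact hfx0 (by exact_mod_cast this.symm)
  have hγval : ∀ φ : K →+* ℂ, φ (γ : K) = ∏ ψ ∈ Finset.univ.erase φ, ((x : ℂ) - ψ θ) := by
    intro φ
    have h4 := hγφ φ
    rw [hev, ← Finset.mul_prod_erase Finset.univ _ (Finset.mem_univ φ)] at h4
    exact mul_left_cancel₀ (hne φ) h4
  -- the norm of `α`
  have hN : Algebra.norm ℤ ((x : 𝓞 K) - t) = f.eval x := by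
    have h4 : ((Algebra.norm ℤ ((x : 𝓞 K) - t) : ℤ) : ℚ) = ((f.eval x : ℤ) : ℚ) := by
      rw [Algebra.coe_norm_int]
      have h5 := Algebra.norm_eq_prod_embeddings ℚ ℂ (((x : 𝓞 K) - t : 𝓞 K) : K)
      have h6 : ∏ σ : K →ₐ[ℚ] ℂ, σ (((x : 𝓞 K) - t : 𝓞 K) : K) =
          ∏ φ : K →+* ℂ, ((x : ℂ) - φ θ) := by
        refine (Fintype.prod_equiv (RingHom.equivRatAlgHom K ℂ) _ _ fun φ => ?_).symm
        have h7 : (((x : 𝓞 K) - t : 𝓞 K) : K) = (x : K) - θ := by simp [ht]
        rw [h7, map_sub, map_intCast]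
        rfl
      rw [h6, ← hev] at h5
      have h8 : (((f.eval x : ℤ) : ℚ) : ℂ) = ((f.eval x : ℤ) : ℂ) := by simp
      rw [← h8] at h5
      exact (algebraMap ℚ ℂ).injective h5
    exact_mod_cast h4
  -- the trace of `γ`
  have hT : Algebra.trace ℤ (𝓞 K) γ = f.derivative.eval x := by
    have h4 : ((Algebra.trace ℤ (𝓞 K) γ : ℤ) : ℚ) = ((f.derivative.eval x : ℤ) : ℚ) := by
      rw [Algebra.coe_trace_int]
      have h5 := trace_eq_sum_embeddings (K := ℚ) (L := K) ℂ (x := (γ : K))
      have h6 : ∑ σ : K →ₐ[ℚ] ℂ, σ (γ : K) =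
          ∑ φ : K →+* ℂ, ∏ ψ ∈ Finset.univ.erase φ, ((x : ℂ) - ψ θ) := by
        refine (Fintype.sum_equiv (RingHom.equivRatAlgHom K ℂ) _ _ fun φ => ?_).symm
        rw [← hγval φ]
        rfl
      rw [h6, ← hder] at h5
      have h8 : (((f.derivative.eval x : ℤ) : ℚ) : ℂ) = ((f.derivative.eval x : ℤ) : ℂ) := by
        simp
      rw [← h8] at h5
      exact (algebraMap ℚ ℂ).injective h5
    exact_mod_cast h4
  -- the ideal
  let α : 𝓞 K := (x : 𝓞 K) - t
  let I : Ideal (𝓞 K) := Ideal.span {α, (l : 𝓞 K)}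
  have hIα : ((Ideal.absNorm I : ℕ) : ℤ) ∣ f.eval x := by
    rw [← hN]
    exact Ideal.absNorm_dvd_norm_of_mem (Ideal.subset_span (by simp [α]))
  have hIl : ((Ideal.absNorm I : ℕ) : ℤ) ∣ (l : ℤ) ^ (Module.finrank ℤ (𝓞 K)) := by
    have h4 : ((Ideal.absNorm I : ℕ) : ℤ) ∣ Algebra.norm ℤ (l : 𝓞 K) :=
      Ideal.absNorm_dvd_norm_of_mem (Ideal.subset_span (by simp))
    have h5 : Algebra.norm ℤ (l : 𝓞 K) = (l : ℤ) ^ (Module.finrank ℤ (𝓞 K)) := by
      have := Algebra.norm_algebraMap (R := ℤ) (S := 𝓞 K) (l : ℤ)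
      simpa using this
    rwa [h5] at h4
  have hI : Ideal.absNorm I = 1 ∨ Ideal.absNorm I = l := by
    have h4 : Ideal.absNorm I ∣ l ^ (Module.finrank ℤ (𝓞 K)) := by exact_mod_cast hIl
    obtain ⟨k, -, hk⟩ := (Nat.dvd_prime_pow hl).1 h4
    rcases Nat.lt_or_ge k 2 with hk2 | hk2
    · interval_cases k
      · left; simpa using hk
      · right; simpa using hk
    · exfalso
      refine h2 (dvd_trans ?_ hIα)
      rw [hk]
      push_cast
      exact pow_dvd_pow _ hk2
  -- the traces of the multiples of `γ`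
  have htr : ∀ y : 𝓞 K, (l : ℤ) ∣ Algebra.trace ℤ (𝓞 K) (γ * y) := by
    intro y
    obtain ⟨c, hc⟩ := ram_surj I hl hI y
    obtain ⟨u, v, huv⟩ := Ideal.mem_span_pair.1 hc
    have h4 : γ * y = c • γ + (f.eval x) • u + (l : ℤ) • (v * γ) := by
      have h5 : y = (c : 𝓞 K) + (u * α + v * (l : 𝓞 K)) := by rw [huv]; ring
      rw [h5, zsmul_eq_mul, zsmul_eq_mul, zsmul_eq_mul, ← hγt, Int.cast_natCast]
      change γ * ((c : 𝓞 K) + (u * α + v * (l : 𝓞 K))) =
        (c : 𝓞 K) * γ + α * γ * u + (l : 𝓞 K) * (v * γ)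
      ring
    rw [h4, map_add, map_add, map_zsmul, map_zsmul, map_zsmul, hT, smul_eq_mul, smul_eq_mul,
      smul_eq_mul]
    exact dvd_add (dvd_add (dvd_mul_of_dvd_right h3 _) (dvd_mul_of_dvd_left h1 _))
      (dvd_mul_right _ _)
  -- the coordinates of `γ` are divisible by `l`
  have hcoord : ∀ i, (l : ℤ) ∣ (RingOfIntegers.basis K).equivFun γ i := by
    have h4 := Algebra.traceMatrix_of_basis_mulVec (RingOfIntegers.basis K) γ
    set M := Algebra.traceMatrix ℤ (RingOfIntegers.basis K) with hM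
    set c := (RingOfIntegers.basis K).equivFun γ with hcdef
    have h5 : (M.map (Int.castRingHom (ZMod l))) *ᵥ (fun i => Int.castRingHom (ZMod l) (c i)) = 0 := by
      funext i
      have h6 := congrFun h4 i
      have h7 := congrArg (Int.castRingHom (ZMod l)) h6
      simp only [Matrix.mulVec, dotProduct, map_sum, map_mul] at h7
      simp only [Matrix.mulVec, dotProduct, Matrix.map_apply, Pi.zero_apply]
      rw [h7]
      simpa using (ZMod.intCast_zmod_eq_zero_iff_dvd _ l).2 (htr _)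
    have h6 : (M.map (Int.castRingHom (ZMod l))).det ≠ 0 := by
      have h7 : (M.map (Int.castRingHom (ZMod l))).det = Int.castRingHom (ZMod l) M.det :=
        ((Int.castRingHom (ZMod l)).map_det M).symm
      rw [h7]
      intro h8
      refine hdisc ?_
      have h9 : NumberField.discr K = M.det := rfl
      rw [h9]
      exact (ZMod.intCast_zmod_eq_zero_iff_dvd _ l).1 (by simpa using h8)
    have h7 := Matrix.eq_zero_of_mulVec_eq_zero h6 h5
    intro i
    have h8 := congrFun h7 i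
    exact (ZMod.intCast_zmod_eq_zero_iff_dvd _ l).1 (by simpa using h8)
  choose g hg using hcoord
  have hγl : γ = (l : 𝓞 K) * (RingOfIntegers.basis K).equivFun.symm g := by
    have h4 : (RingOfIntegers.basis K).equivFun γ = (l : ℤ) • g := by
      funext i
      rw [hg i]
      rfl
    have h5 : γ = (l : ℤ) • (RingOfIntegers.basis K).equivFun.symm g := by
      rw [← map_zsmul, ← h4, LinearEquiv.symm_apply_apply]
    rw [h5, zsmul_eq_mul, Int.cast_natCast]
  obtain ⟨m, hm'⟩ := h1
  set δ := (RingOfIntegers.basis K).equivFun.symm g with hδ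
  have hαδ : α * δ = (m : 𝓞 K) := by
    have h4 : (l : 𝓞 K) * (α * δ) = (l : 𝓞 K) * (m : 𝓞 K) := by
      have h5 := hγt
      rw [hγl, hm'] at h5
      push_cast at h5
      change α * ((l : 𝓞 K) * δ) = _ at h5
      rw [← h5]
      ring
    exact mul_left_cancel₀ (by exact_mod_cast hl.ne_zero) h4
  have hnorm : f.eval x * Algebra.norm ℤ δ = m ^ (Module.finrank ℤ (𝓞 K)) := by
    have h4 := congrArg (Algebra.norm ℤ) hαδ
    rw [map_mul] at h4
    have h5 : Algebra.norm ℤ (m : 𝓞 K) = m ^ (Module.finrank ℤ (𝓞 K)) := by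
      have := Algebra.norm_algebraMap (R := ℤ) (S := 𝓞 K) m
      simpa using this
    rw [← h5, ← h4, ← hN]
  have hlm : (l : ℤ) ∣ m := by
    refine hlZ.dvd_of_dvd_pow (n := Module.finrank ℤ (𝓞 K)) ?_
    rw [← hnorm, hm', mul_assoc]
    exact dvd_mul_right _ _
  obtain ⟨k, hk⟩ := hlm
  exact h2 ⟨k, by rw [hm', hk]; ring⟩

end Pool.Agent.H92.SQ2
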